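import Pool.Agent.N993.Core

/-!
The core theorem with additional information about a set of divisors of the level.
-/

set_option linter.unusedSectionVars false

namespace Pool.Agent.N993

open Finset Pool.Agent.H916R2 Pool.Agent.N992

variable {ι : Type} [Fintype ι] [LinearOrder ι] {n : ι → ℕ} [∀ i, NeZero (n i)] {N : ℕ} [NeZero N]

/-- points with support in `T` come from the level `mT` -/
lemma exists_iota (hco : Pairwise (fun i j => (n i).Coprime (n j)))
    (hN : ∏ i, n i = N) (E : (∀ i, ZMod (n i)) ≃+* ZMod N) (T : Finset ι) {mT l : ℕ} [NeZero mT]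
    (hmT : ∏ i ∈ T, n i = mT) (hl : l * mT = N) {x : (cyc n).Pt} (hx : (cyc n).Supp T x) :
    ∃ b : ZMod mT, E (emb x) = iota l b := by
  classical
  set a : ZMod N := E (emb x) with ha
  have hl2 : l = ∏ i ∈ univ \ T, n i := by
    have hprod : mT * ∏ i ∈ univ \ T, n i = N := by
      rw [← hmT, ← hN, mul_comm]
      exact prod_sdiff (subset_univ T)
    have h1 : mT * l = mT * ∏ i ∈ univ \ T, n i := by rw [hprod, mul_comm]; exact hl
    exact Nat.eq_of_mul_eq_mul_left (NeZero.pos mT) h1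
  have h0 : ∀ i, i ∉ T → n i ∣ a.val := by
    intro i hi
    rw [← ZMod.natCast_eq_zero_iff]
    have h1 : E (fun j => ((a.val : ℕ) : ZMod (n j))) = E (emb x) := by
      rw [← E_natCast E a.val, ZMod.natCast_zmod_val]
    have h2 := E.injective h1
    rw [congrFun h2 i]
    exact emb_none0 (hx i hi)
  have h1 : l ∣ a.val := by
    rw [hl2]
    have hall : ∀ U : Finset ι, (∀ i ∈ U, n i ∣ a.val) → ∏ i ∈ U, n i ∣ a.val := by
      intro U
      induction U using Finset.induction_on with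
      | empty => intro _; simp
      | insert i U hi ih =>
        intro h
        rw [prod_insert hi]
        refine Nat.Coprime.mul_dvd_of_dvd_of_dvd ?_ (h i (mem_insert_self _ _))
          (ih fun j hj => h j (mem_insert_of_mem hj))
        apply Nat.Coprime.prod_right
        intro j hj
        exact hco (fun e => hi (e ▸ hj))
    exact hall _ fun i hi => h0 i (mem_sdiff.mp hi).2
  obtain ⟨k, hk⟩ := h1
  have hl0 : 0 < l := Nat.pos_of_ne_zero (by rintro rfl; simp at hl; exact NeZero.ne N hl.symm)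
  refine ⟨(k : ZMod mT), ?_⟩
  rw [iota_natCast hl, ← hk, ZMod.natCast_zmod_val]

/-- weights for the points with support in `T` -/
lemma exists_weights_T (hco : Pairwise (fun i j => (n i).Coprime (n j)))
    (hN : ∏ i, n i = N) (E : (∀ i, ZMod (n i)) ≃+* ZMod N) {Q : Type} [AddCommGroup Q]
    {c : ZMod N → Q} (T : Finset ι) {mT l : ℕ} [NeZero mT]
    (hmT : ∏ i ∈ T, n i = mT) (hl : l * mT = N)
    (hk : ∀ x : ZMod mT → ℤ, Rel x → ∑ b, x b • c (iota l b) = 0)
    (φ : Q →+ AddCircle (1 : ℚ)) :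
    ∃ w : (∀ i, ZMod (n i))ˣ → ℚ, ∀ x : (cyc n).Pt, (cyc n).Supp T x →
      φ (c (E (emb x))) = ((∑ t : (∀ i, ZMod (n i))ˣ,
        ((saw (E ((t : ∀ i, ZMod (n i)) * emb x)) : ℤ) : ℚ) * w t : ℚ) : AddCircle (1 : ℚ)) := by
  classical
  let X := (∀ i, ZMod (n i))ˣ
  let F : (ZMod mT → ℤ) →+ Q × (X → ℤ) :=
    { toFun := fun x => (∑ b, x b • c (iota l b),
        fun t => ∑ b, x b * saw (E (t : ∀ i, ZMod (n i)) * iota l b))
      map_zero' := by
        refine Prod.ext ?_ ?_
        · simp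
        · funext t; simp
      map_add' := by
        intro x y
        refine Prod.ext ?_ ?_
        · simp [add_smul, sum_add_distrib]
        · funext t; simp [add_mul, sum_add_distrib] }
  have hK : ∀ z ∈ F.range, z.2 = 0 → z.1 = 0 := by
    rintro z ⟨x, rfl⟩ hz
    apply hk
    intro t
    have hdvd : mT ∣ N := Dvd.intro_left l hl
    obtain ⟨t', ht'⟩ := ZMod.unitsMap_surjective hdvd t
    obtain ⟨u, hu⟩ : ∃ u : X, E (u : ∀ i, ZMod (n i)) = (t' : ZMod N) := by
      refine ⟨Units.mapEquiv E.symm.toMulEquiv t', ?_⟩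
      simp
    have h1 : ∑ b, x b * saw (E (u : ∀ i, ZMod (n i)) * iota l b) = 0 := congrFun hz u
    have h2 : ∀ b : ZMod mT, saw (E (u : ∀ i, ZMod (n i)) * iota l b) =
        (l : ℤ) * saw ((t : ZMod mT) * b) := by
      intro b
      rw [hu, unit_iota hl, saw_iota hl, ht']
    have h3 : (l : ℤ) * ∑ b, x b * saw ((t : ZMod mT) * b) = 0 := by
      rw [mul_sum, ← h1]
      refine sum_congr rfl fun b _ => ?_
      rw [h2]; ring
    have hl0 : (l : ℤ) ≠ 0 := by
      rintro h
      have : l = 0 := by exact_mod_cast h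
      subst this
      simp at hl; exact NeZero.ne N hl.symm
    exact (mul_eq_zero.mp h3).resolve_left hl0
  obtain ⟨q, hq⟩ := exists_weights F.range hK φ
  refine ⟨q, fun x hx => ?_⟩
  obtain ⟨b, hb⟩ := exists_iota hco hN E T hmT hl hx
  have h1 := hq _ ⟨Pi.single b 1, rfl⟩
  have e1 : (F (Pi.single b 1)).1 = c (E (emb x)) := by
    change ∑ b', (Pi.single b (1 : ℤ) : ZMod mT → ℤ) b' • c (iota l b') = _
    rw [sum_eq_single b, Pi.single_eq_same, one_smul, hb]
    · intro b' _ h; rw [Pi.single_eq_of_ne h, zero_smul]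
    · intro h; exact absurd (mem_univ _) h
  have e2 : ∀ t, (F (Pi.single b 1)).2 t = saw (E ((t : ∀ i, ZMod (n i)) * emb x)) := by
    intro t
    change ∑ b', (Pi.single b (1 : ℤ) : ZMod mT → ℤ) b' *
      saw (E (t : ∀ i, ZMod (n i)) * iota l b') = _
    rw [sum_eq_single b, Pi.single_eq_same, one_mul, map_mul, hb]
    · intro b' _ h; rw [Pi.single_eq_of_ne h, zero_mul]
    · intro h; exact absurd (mem_univ _) h
  rw [e1] at h1
  simp only [e2] at h1
  exact h1

theorem coreG (hn : Adm' n) (hco : Pairwise (fun i j => (n i).Coprime (n j)))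
    (hN : ∏ i, n i = N) (E : (∀ i, ZMod (n i)) ≃+* ZMod N) {Q : Type} [AddCommGroup Q]
    {c : ZMod N → Q} (hc : OddDist c) (hk : ∀ s, ModularCharacter N s → (s.map c).sum = 0)
    (S : Finset ι) (TT : Finset ι → Prop)
    (hT : ∀ T, TT T → ∀ (mT l : ℕ) [NeZero mT], ∏ i ∈ T, n i = mT → l * mT = N →
      ∀ x : ZMod mT → ℤ, Rel x → ∑ b, x b • c (iota l b) = 0)
    (hmain : ∀ ν : (cyc n).Pt → ℤ, (cyc n).IsD univ ν → (cyc n).Ty 1 univ ν →
      ((cyc n).small (qn n)).Img 1 univ (Dat.sm (qn n) ν) → (∀ T, TT T → (cyc n).Img 1 T ν) →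
      (cyc n).Img 1 S ν) {m0 l : ℕ} [NeZero m0]
    (hm0 : ∏ i ∈ S, n i = m0) (hl : l * m0 = N) (x : ZMod m0 → ℤ) (hx : Rel x) :
    ∑ b, x b • c (iota l b) = 0 := by
  classical
  refine CharacterModule.eq_zero_of_character_apply fun φ0 => ?_
  let φ : Q →+ AddCircle (1 : ℚ) := φ0
  change φ _ = 0
  let D := cyc n
  let χ := qn n
  have hsupp : ∀ x : D.Pt, D.Supp univ x := fun x i hi => absurd (mem_univ i) hi
  have hsupp' : ∀ x : (D.small χ).Pt, (D.small χ).Supp univ x := fun x i hi => absurd (mem_univ i) hi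
  -- the distribution with values in the circle
  have hcφ : OddDist (fun a => φ (c a)) := Pool.Agent.N998.oddDist_map hc φ
  set f : D.Pt → AddCircle (1 : ℚ) := fun x => φ (c (E (emb x))) with hf
  have hfD : D.IsD0 univ f := (isD0_of_oddDist hn hco hN E hcφ).1
  have hfo : ∀ x, f (D.act D.c x) = - f x := fun x => (isD0_of_oddDist hn hco hN E hcφ).2 x
  -- lift to the rational numbers
  let π : ℚ →+ AddCircle (1 : ℚ) := QuotientAddGroup.mk' (AddSubgroup.zmultiples (1 : ℚ))
  have hπ : ∀ q : ℚ, π q = (q : AddCircle (1 : ℚ)) := fun q => rfl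
  obtain ⟨ft, hft, hft'⟩ : ∃ g : D.Pt → ℚ, D.IsD0 univ g ∧ ∀ x, π (g x) = f x := by
    let _ := D.trivAct ℚ
    let _ := D.trivAct (AddCircle (1 : ℚ))
    obtain ⟨g, hg, hg'⟩ := Dat.exists_lift (D := D) univ π (fun _ _ => rfl)
      (QuotientAddGroup.mk'_surjective _) (f := f) hfD
    exact ⟨g, hg, fun x => hg' x (hsupp x)⟩
  have hker : ∀ q : ℚ, π q = 0 → ∃ k : ℤ, q = k := by
    intro q hq
    rw [hπ, AddCircle.coe_eq_zero_iff] at hq
    obtain ⟨k, hk⟩ := hq
    exact ⟨k, by rw [← hk]; simp⟩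
  have hint : ∀ k : ℤ, π (k : ℚ) = 0 := by
    intro k
    rw [hπ, AddCircle.coe_eq_zero_iff]
    exact ⟨k, by simp⟩
  -- the integral distribution
  have hν0 : ∀ x, ∃ k : ℤ, ft x + ft (D.act D.c x) = k := by
    intro x
    apply hker
    rw [map_add, hft', hft', hfo, add_neg_cancel]
  choose ν hν using hν0
  have hνD : D.IsD0 univ ν := by
    apply Dat.IsD0.of_cast
    have h1 : D.IsD0 univ (fun x => ft x + ft (D.act D.c x)) := hft.add (hft.act D.c)
    have h2 : (fun x => ft x + ft (D.act D.c x)) = fun x => (ν x : ℚ) := funext hν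
    rwa [h2] at h1
  have hνT : ∀ x, ν (D.act D.c x) = ν x := by
    intro x
    have h1 := hν x
    have h2 := hν (D.act D.c x)
    rw [Dat.act_c_c] at h2
    have : ((ν (D.act D.c x) : ℤ) : ℚ) = ν x := by rw [← h1, ← h2]; ring
    exact_mod_cast this
  -- the weights
  let X := (∀ i, ZMod (n i))ˣ
  let σ : X → D.Pt → ℤ := fun t x => saw (E ((t : ∀ i, ZMod (n i)) * emb x))
  have hKK0 : ∀ z ∈ KK E hc, z.2 = 0 → z.1 = 0 := by
    rintro z ⟨s, hs, h1, h2⟩ hz
    rw [← h1]
    apply kill_of_balanced hc hk hs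
    intro t
    obtain ⟨u, hu⟩ : ∃ u : (∀ i, ZMod (n i))ˣ, E (u : ∀ i, ZMod (n i)) = (t : ZMod N) := by
      refine ⟨Units.mapEquiv E.symm.toMulEquiv t, ?_⟩
      simp
    have h3 := h2 u
    rw [hu, hz] at h3
    exact h3
  obtain ⟨q, hq⟩ := exists_weights (KK E hc) hKK0 φ
  -- the values on the small system
  have hfib : ∀ x' : (D.small χ).Pt, (Dat.smA χ (fun x : D.Pt => c (E (emb x))) x',
      fun t : X => Dat.smA χ (σ t) x') ∈ KK E hc := by
    intro x'
    have hv : ∀ i, ∃ v : (ZMod (n i))ˣ, ∀ ε, x' i = some ε → qch (n i) v = ε := by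
      intro i
      cases hxi : x' i with
      | none => exact ⟨1, fun ε h => by cases h⟩
      | some ε =>
        obtain ⟨v, hv⟩ := exists_qch (hn i) ε
        exact ⟨v, fun ε' h => by rw [hv]; exact Option.some_injective _ h⟩
    choose v hv using hv
    have h1 := Pool.Agent.N998.QV_mem_KK hn hco E hc v (univ.filter (fun i => x' i ≠ none))
    have e1 := sum_fib hn (fun y => c (E y)) v x' hv
    have e2 : ∀ t : X, Dat.smA χ (σ t) x' = ∑ y ∈ PA (fun i => (Hf (n i)).image
        (fun a => (v i : ZMod (n i)) * a)) (univ.filter (fun i => x' i ≠ none)),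
        saw (E ((t : ∀ i, ZMod (n i)) * y)) := fun t =>
      sum_fib hn (fun y => saw (E ((t : ∀ i, ZMod (n i)) * y))) v x' hv
    have e3 : (fun t : X => Dat.smA χ (σ t) x') = fun t : X => ∑ y ∈ PA (fun i => (Hf (n i)).image
        (fun a => (v i : ZMod (n i)) * a)) (univ.filter (fun i => x' i ≠ none)),
        saw (E ((t : ∀ i, ZMod (n i)) * y)) := funext e2
    rw [e3]
    have e4 : Dat.smA χ (fun x : D.Pt => c (E (emb x))) x' = _ := e1
    rw [e4]
    exact h1
  let fh : (D.small χ).Pt → ℚ := fun x' => ∑ t, ((Dat.smA χ (σ t) x' : ℤ) : ℚ) * q t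
  have hσD : ∀ t, D.IsD0 univ (σ t) := by
    intro t
    have h1 := (isD0_of_oddDist hn hco hN E
      (saw_oddDist' (Units.mapEquiv E.toMulEquiv t))).1
    have h2 : (fun x : D.Pt => saw (((Units.mapEquiv E.toMulEquiv t : (ZMod N)ˣ) : ZMod N) *
        E (emb x))) = σ t := by
      funext x
      change saw (E t * E (emb x)) = saw (E (t * emb x))
      rw [map_mul]
    rw [h2] at h1
    exact h1
  have hσo : ∀ t x, σ t (D.act D.c x) = - σ t x := by
    intro t x
    have h1 := (isD0_of_oddDist hn hco hN E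
      (saw_oddDist' (Units.mapEquiv E.toMulEquiv t))).2 x
    have h2 : ∀ x : D.Pt, saw (((Units.mapEquiv E.toMulEquiv t : (ZMod N)ˣ) : ZMod N) *
        E (emb x)) = σ t x := by
      intro x
      change saw (E t * E (emb x)) = saw (E (t * emb x))
      rw [map_mul]
    rw [h2, h2] at h1
    exact h1
  have hfhD : (D.small χ).IsD0 univ fh := by
    apply Dat.IsD0.sum
    intro t _
    have h1 : (D.small χ).IsD0 univ (fun x' => ((Dat.smA χ (σ t) x' : ℤ) : ℚ)) :=
      (Dat.smA_isD0 (hσD t)).cast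
    exact h1.map (AddMonoidHom.mulRight (q t))
  have hσc : ∀ t x', Dat.smA χ (σ t) ((D.small χ).act (D.small χ).c x') = - Dat.smA χ (σ t) x' := by
    intro t x'
    have h1 := Dat.smA_act (χ := χ) D.c (σ t) x'
    have h2 : (fun x => σ t (D.act D.c x)) = fun x => - σ t x := funext (hσo t)
    rw [h2] at h1
    refine h1.symm.trans ?_
    exact Dat.smA_map (-(AddMonoidHom.id ℤ)) (σ t) x'
  have hfho : ∀ x', fh ((D.small χ).act (D.small χ).c x') = - fh x' := by
    intro x'
    change ∑ t, ((Dat.smA χ (σ t) ((D.small χ).act (D.small χ).c x') : ℤ) : ℚ) * q t =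
      - ∑ t, ((Dat.smA χ (σ t) x' : ℤ) : ℚ) * q t
    rw [← sum_neg_distrib]
    refine sum_congr rfl fun t _ => ?_
    rw [hσc]; push_cast; ring
  have hk'0 : ∀ x', ∃ k : ℤ, Dat.smA χ ft x' - fh x' = k := by
    intro x'
    apply hker
    rw [map_sub]
    have h1 := hq _ (hfib x')
    have h2 : π (fh x') = φ (Dat.smA χ (fun x : D.Pt => c (E (emb x))) x') := h1.symm
    rw [h2, ← Dat.smA_map, ← Dat.smA_map]
    have h3 : (fun x => π (ft x)) = f := funext hft'
    rw [h3, sub_self]
  choose k' hk' using hk'0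
  have hk'D : (D.small χ).IsD0 univ k' := by
    apply Dat.IsD0.of_cast
    have h1 : (D.small χ).IsD0 univ (fun x' => Dat.smA χ ft x' - fh x') :=
      (Dat.smA_isD0 hft).sub hfhD
    have h2 : (fun x' => Dat.smA χ ft x' - fh x') = fun x' => (k' x' : ℚ) := funext hk'
    rwa [h2] at h1
  have himg : (D.small χ).Img 1 univ (Dat.sm χ ν) := by
    refine ⟨k', hk'D, fun x' _ => ?_⟩
    change Dat.sm χ ν x' = k' x' + 1 * k' ((D.small χ).act (D.small χ).c x')
    have h1 : ((Dat.sm χ ν x' : ℤ) : ℚ) = Dat.smA χ ft x' +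
        Dat.smA χ ft ((D.small χ).act (D.small χ).c x') := by
      have e0 : Dat.smA χ ft ((D.small χ).act (D.small χ).c x') =
          Dat.smA χ (fun x => ft (D.act D.c x)) x' := (Dat.smA_act D.c ft x').symm
      rw [e0]
      unfold Dat.sm Dat.smA
      rw [← sum_add_distrib]
      push_cast
      exact sum_congr rfl fun x _ => (hν x).symm
    have h2 := hk' x'
    have h3 := hk' ((D.small χ).act (D.small χ).c x')
    rw [hfho] at h3
    have h4 : ((Dat.sm χ ν x' : ℤ) : ℚ) = k' x' + 1 * k' ((D.small χ).act (D.small χ).c x') := by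
      rw [h1, ← h2, ← h3]; ring
    exact_mod_cast h4
  -- the subsets in the set `TT`
  have himgT : ∀ T, TT T → D.Img 1 T ν := by
    intro T hTT
    have hmT0 : ∏ i ∈ T, n i ≠ 0 := prod_ne_zero_iff.mpr fun i _ => NeZero.ne (n i)
    have : NeZero (∏ i ∈ T, n i) := ⟨hmT0⟩
    have hlT : (∏ i ∈ univ \ T, n i) * (∏ i ∈ T, n i) = N := by
      rw [← hN]; exact prod_sdiff (subset_univ T)
    obtain ⟨w, hw⟩ := exists_weights_T hco hN E (c := c) T rfl hlT (hT T hTT _ _ rfl hlT) φ
    set ht : D.Pt → ℚ := fun x => ∑ t : X, ((σ t x : ℤ) : ℚ) * w t with hht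
    have hhtD : D.IsD0 univ ht := by
      apply Dat.IsD0.sum
      intro t _
      exact (hσD t).cast.map (AddMonoidHom.mulRight (w t))
    have hhto : ∀ x, ht (D.act D.c x) = - ht x := by
      intro x
      rw [hht]
      beta_reduce
      rw [← sum_neg_distrib]
      refine sum_congr rfl fun t _ => ?_
      rw [hσo]; push_cast; ring
    have hk0 : ∀ x, ∃ k : ℤ, D.Supp T x → ft x - ht x = k := by
      intro x
      by_cases hx : D.Supp T x
      · have h1 : π (ft x - ht x) = 0 := by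
          rw [map_sub, sub_eq_zero, hft']
          exact hw x hx
        obtain ⟨k, hk⟩ := hker _ h1
        exact ⟨k, fun _ => hk⟩
      · exact ⟨0, fun h => absurd h hx⟩
    choose k hkk using hk0
    refine ⟨k, ?_, ?_⟩
    · change D.IsD0 T k
      apply Dat.IsD0.of_cast
      intro i hi x hx h0
      have h1 := (hft.sub hhtD) i (mem_univ i) x (hsupp x) h0
      beta_reduce at h1 ⊢
      rw [← hkk _ (hx.act _), ← hkk _ (hx.act _), ← h1]
      exact sum_congr rfl fun u _ => (hkk _ (hx.update hi _)).symm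
    · intro x hx
      change ν x = k x + 1 * k (D.act D.c x)
      have h1 := hkk x hx
      have h2 := hkk _ (hx.act D.c)
      have h3 := hν x
      rw [hhto] at h2
      have h4 : ((ν x : ℤ) : ℚ) = k x + 1 * k (D.act D.c x) := by
        rw [← h1, ← h2, ← h3]; ring
      exact_mod_cast h4
  -- the main theorem on systems
  obtain ⟨k, hkD, hk2⟩ := hmain ν hνD (fun x _ => by
    change ν (D.act D.c x) = 1 * ν x
    rw [hνT, one_mul]) himg himgT
  have hkD0 : D.IsD0 S k := hkD
  have hk3 : ∀ x, D.Supp S x → ν x = k x + k (D.act D.c x) := by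
    intro x hx
    have := hk2 x hx
    change ν x = k x + 1 * k (D.act D.c x) at this
    rw [this, one_mul]
  set h : D.Pt → ℚ := fun x => ft x - (k x : ℚ) with hh
  have hhD : D.IsD0 S h := by
    have h1 : D.IsD0 S ft := fun i _ x _ h0 => hft i (mem_univ i) x (hsupp x) h0
    exact h1.sub hkD0.cast
  have hho : ∀ x, D.Supp S x → h (D.act D.c x) = - h x := by
    intro x hx
    have h1 := hν x
    have h2 := hk3 x hx
    rw [h2] at h1
    push_cast at h1
    change ft (D.act D.c x) - (k (D.act D.c x) : ℚ) = -(ft x - (k x : ℚ))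
    linear_combination h1
  -- the numbers
  have hprod : m0 * ∏ i ∈ univ \ S, n i = N := by
    rw [← hm0, ← hN, mul_comm]
    exact prod_sdiff (subset_univ S)
  have hl2 : l = ∏ i ∈ univ \ S, n i := by
    have h1 : m0 * l = m0 * ∏ i ∈ univ \ S, n i := by rw [hprod, mul_comm]; exact hl
    exact Nat.eq_of_mul_eq_mul_left (NeZero.pos m0) h1
  have hlS : ∀ i, i ∉ S → n i ∣ l := by
    intro i hi
    rw [hl2]
    exact dvd_prod_of_mem n (mem_sdiff.mpr ⟨mem_univ _, hi⟩)
  have hlS' : ∀ i ∈ S, l.Coprime (n i) := by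
    intro i hi
    rw [hl2]
    apply Nat.Coprime.prod_left
    intro j hj
    exact hco (fun h => (mem_sdiff.mp hj).2 (h ▸ hi))
  have hdist := oddDist_ext hn hco S hm0 l hlS hlS' hhD hho
  have hrat := Pool.Agent.N998.rat_zero _ hdist x hx
  -- conclusion
  set a : ZMod m0 → ∀ i, ZMod (n i) := fun b i => ((l * b.val : ℕ) : ZMod (n i)) with ha
  have hio : ∀ b : ZMod m0, (iota l b : ZMod N) = E (a b) := by
    intro b
    exact E_natCast E (l * b.val)
  have h1 : ∀ b : ZMod m0, φ (c (iota l b)) = π (ext ft (a b)) := by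
    intro b
    rw [hio]
    have e1 := c_eq_ext hn hco hN E hcφ (a b)
    refine e1.trans ?_
    rw [← ext_map]
    congr 1
    funext y
    exact (hft' y).symm
  have h2 : ∀ b : ZMod m0, ext h (a b) = ext ft (a b) - ((ext k (a b) : ℤ) : ℚ) := by
    intro b
    rw [hh, ext_sub]
    congr 1
    exact ext_map (Int.castRingHom ℚ).toAddMonoidHom k (a b)
  have h3 : ∑ b, (x b : ℚ) * ext ft (a b) = ((∑ b, x b * ext k (a b) : ℤ) : ℚ) := by
    have h4 : ∑ b, (x b : ℚ) * ext h (a b) = 0 := hrat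
    simp only [h2, mul_sub, sum_sub_distrib] at h4
    rw [sub_eq_zero] at h4
    rw [h4]; push_cast; rfl
  rw [map_sum]
  have h5 : ∀ b : ZMod m0, φ (x b • c (iota l b)) = π ((x b : ℚ) * ext ft (a b)) := by
    intro b
    rw [map_zsmul, h1, ← map_zsmul, zsmul_eq_mul]
  simp only [h5]
  rw [← map_sum, h3, hint]

end Pool.Agent.N993
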