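import Pool.Agent.N993.Chain2
import Pool.Agent.N998.SpecAll
import Pool.Agent.N998.Rat

/-!
Sums over the fibres with values in arbitrary groups; extension of characters.
-/

set_option linter.unusedSectionVars false

namespace Pool.Agent.N993

open Finset Pool.Agent.H916R2 Pool.Agent.N992

namespace Dat

variable {ι : Type} [DecidableEq ι] [Fintype ι] {D : Dat ι} {A : Type} [AddCommGroup A]

/-- sums over the fibres -/
def smA (χ : ∀ i, D.G i →* ℤˣ) (f : D.Pt → A) : (D.small χ).Pt → A := fun x' =>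
  ∑ x ∈ univ.filter (fun x => mp χ x = x'), f x

variable {χ : ∀ i, D.G i →* ℤˣ}

lemma smA_int (f : D.Pt → ℤ) : smA χ f = sm χ f := rfl

lemma smA_map {B : Type} [AddCommGroup B] (g : A →+ B) (f : D.Pt → A) (x' : (D.small χ).Pt) :
    smA χ (fun x => g (f x)) x' = g (smA χ f x') := by
  unfold smA; rw [map_sum]

lemma smA_act (b : D.GG) (f : D.Pt → A) (x' : (D.small χ).Pt) :
    smA χ (fun x => f (D.act b x)) x' = smA χ f ((D.small χ).act (mg χ b) x') := by
  unfold smA
  refine sum_nbij' (fun x => D.act b x) (fun y => D.act b⁻¹ y) ?_ ?_ ?_ ?_ ?_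
  · intro x hx
    rw [mem_filter] at hx ⊢
    refine ⟨mem_univ _, ?_⟩
    rw [mp_act, hx.2]
  · intro y hy
    rw [mem_filter] at hy ⊢
    refine ⟨mem_univ _, ?_⟩
    rw [mp_act, hy.2, act_act]
    have : mg χ b⁻¹ * mg χ b = 1 := by
      funext i
      change χ i (b i)⁻¹ * χ i (b i) = 1
      rw [← map_mul, inv_mul_cancel, map_one]
    rw [this, act_one]
  · intro x _; exact act_inv_act b x
  · intro y _; exact act_act_inv b y
  · intro x _; rfl

lemma smA_fib (i : ι) (f : D.Pt → A) {z : (D.small χ).Pt} (hz : z i = none) :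
    ∑ ε : ℤˣ, smA χ f (Function.update z i (some ε)) =
      smA χ (fun x => ∑ u : D.G i, f (Function.update x i (some u))) z := by
  unfold smA
  have h0 : ∀ x, ∑ u : D.G i, f (Function.update x i (some u)) =
      ∑ ε : ℤˣ, ∑ u ∈ univ.filter (fun u => χ i u = ε), f (Function.update x i (some u)) := by
    intro x
    rw [← sum_fiberwise_of_maps_to (s := univ) (t := univ) (g := fun u : D.G i => χ i u)
      (fun _ _ => mem_univ _)]
  simp only [h0]
  rw [sum_comm]
  refine sum_congr rfl fun ε _ => ?_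
  rw [← sum_product' (univ.filter (fun x => mp χ x = z)) (univ.filter (fun u => χ i u = ε))
    (fun x u => f (Function.update x i (some u)))]
  symm
  refine sum_nbij' (fun p => Function.update p.1 i (some p.2))
    (fun y => (Function.update y i none, (y i).getD 1)) ?_ ?_ ?_ ?_ ?_
  · rintro ⟨x, u⟩ h
    rw [mem_product, mem_filter, mem_filter] at h
    rw [mem_filter]
    refine ⟨mem_univ _, ?_⟩
    rw [mp_update_some, h.1.2, h.2.2]
  · intro y hy
    rw [mem_filter] at hy
    rw [mem_product, mem_filter, mem_filter]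
    have hyi : mp χ y i = some ε := by rw [hy.2, Function.update_self]
    refine ⟨⟨mem_univ _, ?_⟩, mem_univ _, ?_⟩
    · rw [mp_update_none, hy.2, Function.update_idem, update_none_eq hz]
    · cases hh : y i with
      | none => unfold mp at hyi; rw [hh] at hyi; cases hyi
      | some v =>
        unfold mp at hyi
        rw [hh, Option.map_some, Option.some_inj] at hyi
        exact hyi
  · rintro ⟨x, u⟩ h
    rw [mem_product, mem_filter, mem_filter] at h
    have hxi : x i = none := by rw [← mp_none (χ := χ), h.1.2]; exact hz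
    simp only [Function.update_self, Function.update_idem, Option.getD_some]
    rw [update_none_eq hxi]
  · intro y hy
    rw [mem_filter] at hy
    have hyi : mp χ y i = some ε := by rw [hy.2, Function.update_self]
    cases hh : y i with
    | none => unfold mp at hyi; rw [hh] at hyi; cases hyi
    | some v =>
      simp only [Option.getD_some, Function.update_idem]
      rw [← hh, Function.update_eq_self]
  · rintro ⟨x, u⟩ _; rfl

lemma smA_isD0 {S : Finset ι} {f : D.Pt → A} (hf : D.IsD0 S f) :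
    (D.small χ).IsD0 S (smA χ f) := by
  intro i hi x' hx' h0
  have h4 : smA χ (fun x => ∑ u : D.G i, f (Function.update x i (some u))) x' =
      smA χ (fun x => f (D.act (D.α i) x)) x' - smA χ (fun x => f (D.act (D.β i) x)) x' := by
    unfold smA
    rw [← sum_sub_distrib]
    refine sum_congr rfl fun x hx => ?_
    have hx2 := (mem_filter.mp hx).2
    have hxS : D.Supp S x := supp_mp (by rw [hx2]; exact hx')
    have hxi : x i = none := by rw [← mp_none (χ := χ), hx2]; exact h0
    exact hf i hi x hxS hxi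
  rw [smA_act, smA_act] at h4
  exact (smA_fib i f h0).trans h4

/-! ### Functions with the trivial action -/

lemma IsD0.map {B : Type} [AddCommGroup B] {S : Finset ι} {f : D.Pt → A} (hf : D.IsD0 S f)
    (g : A →+ B) : D.IsD0 S (fun x => g (f x)) := by
  intro i hi x hx h0
  have := hf i hi x hx h0
  rw [← map_sum, this, map_sub]

lemma IsD0.sub {S : Finset ι} {f g : D.Pt → A} (hf : D.IsD0 S f) (hg : D.IsD0 S g) :
    D.IsD0 S (fun x => f x - g x) := by
  intro i hi x hx h0
  rw [sum_sub_distrib, hf i hi x hx h0, hg i hi x hx h0]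
  beta_reduce
  abel

lemma IsD0.add {S : Finset ι} {f g : D.Pt → A} (hf : D.IsD0 S f) (hg : D.IsD0 S g) :
    D.IsD0 S (fun x => f x + g x) := by
  intro i hi x hx h0
  rw [sum_add_distrib, hf i hi x hx h0, hg i hi x hx h0]
  beta_reduce
  abel

lemma IsD0.sum {κ : Type} {S : Finset ι} (s : Finset κ) (f : κ → D.Pt → A)
    (hf : ∀ k ∈ s, D.IsD0 S (f k)) : D.IsD0 S (fun x => ∑ k ∈ s, f k x) := by
  intro i hi x hx h0
  rw [sum_comm, ← sum_sub_distrib]
  exact sum_congr rfl fun k hk => hf k hk i hi x hx h0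

lemma IsD0.act {S : Finset ι} {f : D.Pt → A} (hf : D.IsD0 S f) (b : D.GG) :
    D.IsD0 S (fun x => f (D.act b x)) := by
  let _ := D.trivAct A
  exact (show D.IsD S f from hf).T b

lemma IsD0.of_cast {S : Finset ι} {k : D.Pt → ℤ} (h : D.IsD0 S (fun x => (k x : ℚ))) :
    D.IsD0 S k := by
  intro i hi x hx h0
  have := h i hi x hx h0
  beta_reduce at this
  exact_mod_cast this

lemma IsD0.cast {S : Finset ι} {k : D.Pt → ℤ} (h : D.IsD0 S k) :
    D.IsD0 S (fun x => (k x : ℚ)) := h.map (Int.castRingHom ℚ).toAddMonoidHom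

end Dat

/-! ### Extension of characters -/

lemma exists_weights {Q X : Type} [AddCommGroup Q] [Fintype X] [DecidableEq X]
    (K : AddSubgroup (Q × (X → ℤ))) (h0 : ∀ z ∈ K, z.2 = 0 → z.1 = 0)
    (φ : Q →+ AddCircle (1 : ℚ)) :
    ∃ q : X → ℚ, ∀ z ∈ K, φ z.1 = ((∑ t, (z.2 t : ℚ) * q t : ℚ) : AddCircle (1 : ℚ)) := by
  let f : K →ₗ[ℤ] (X → ℤ) := ((AddMonoidHom.snd Q (X → ℤ)).comp K.subtype).toIntLinearMap
  have hf : Function.Injective f := by
    rw [injective_iff_map_eq_zero]
    intro z hz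
    have h1 : z.1.2 = 0 := hz
    have h2 := h0 z.1 z.2 h1
    apply Subtype.ext
    exact Prod.ext h2 h1
  obtain ⟨ψ, hψ⟩ := CharacterModule.dual_surjective_of_injective f hf
    ((φ.comp (AddMonoidHom.fst Q (X → ℤ))).comp K.subtype : K →+ AddCircle (1 : ℚ))
  have hq : ∀ t : X, ∃ q : ℚ, (q : AddCircle (1 : ℚ)) = ψ (Pi.single t 1) := fun t =>
    QuotientAddGroup.mk_surjective _
  choose q hq using hq
  refine ⟨q, fun z hz => ?_⟩
  have h1 : ψ (f ⟨z, hz⟩) = φ z.1 := DFunLike.congr_fun hψ ⟨z, hz⟩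
  have h2 : f ⟨z, hz⟩ = ∑ t, (z.2 t) • (Pi.single t (1 : ℤ) : X → ℤ) := by
    change z.2 = _
    funext s
    rw [Finset.sum_apply, Finset.sum_eq_single s]
    · simp
    · intro t _ hts; simp [Pi.single_eq_of_ne (Ne.symm hts)]
    · intro h; exact absurd (mem_univ _) h
  rw [← h1, h2]
  have h3 : ψ (∑ t, (z.2 t) • (Pi.single t (1 : ℤ) : X → ℤ)) =
      ∑ t, (z.2 t) • ψ (Pi.single t (1 : ℤ) : X → ℤ) := by
    have := map_sum (ψ : (X → ℤ) →+ AddCircle (1 : ℚ)) (fun t => (z.2 t) • (Pi.single t (1 : ℤ) : X → ℤ)) univ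
    refine this.trans (sum_congr rfl fun t _ => ?_)
    exact map_zsmul (ψ : (X → ℤ) →+ AddCircle (1 : ℚ)) _ _
  rw [h3]
  have h4 : ((∑ t, (z.2 t : ℚ) * q t : ℚ) : AddCircle (1 : ℚ)) =
      ∑ t, (((z.2 t : ℚ) * q t : ℚ) : AddCircle (1 : ℚ)) :=
    map_sum (QuotientAddGroup.mk' (AddSubgroup.zmultiples (1 : ℚ))) _ _
  rw [h4]
  refine sum_congr rfl fun t _ => ?_
  rw [← hq t]
  have h5 : ((z.2 t : ℚ) * q t : ℚ) = (z.2 t) • q t := by rw [zsmul_eq_mul]
  rw [h5]; rfl

end Pool.Agent.N993
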