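import Pool.Agent.N993.Fib
import Pool.Agent.N999.Conv

/-!
All relations supported on the indices in `S` follow from the distribution relations and the modular
characters of the full level.
-/

set_option linter.unusedSectionVars false

namespace Pool.Agent.N993

open Finset Pool.Agent.H916R2 Pool.Agent.N992

section ext

variable {ι : Type} [Fintype ι] [DecidableEq ι] {n : ι → ℕ} [∀ i, NeZero (n i)]

lemma ext_map {A B : Type} [AddCommGroup A] [AddCommGroup B] (g : A →+ B) (f : (cyc n).Pt → A)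
    (a : ∀ i, ZMod (n i)) : ext (fun x => g (f x)) a = g (ext f a) := by
  classical
  unfold ext
  by_cases h : ∃ i, n i = 4 ∧ a i = 2
  · rw [dif_pos h, dif_pos h, map_sub]
  · rw [dif_neg h, dif_neg h]

lemma ext_sub {A : Type} [AddCommGroup A] (f g : (cyc n).Pt → A)
    (a : ∀ i, ZMod (n i)) : ext (fun x => f x - g x) a = ext f a - ext g a := by
  classical
  unfold ext
  by_cases h : ∃ i, n i = 4 ∧ a i = 2
  · rw [dif_pos h, dif_pos h, dif_pos h]; exact sub_sub_sub_comm _ _ _ _
  · rw [dif_neg h, dif_neg h, dif_neg h]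

end ext

lemma saw_oddDist' {m : ℕ} [NeZero m] (t : (ZMod m)ˣ) :
    OddDist (fun a : ZMod m => saw ((t : ZMod m) * a)) where
  neg := fun a => by rw [mul_neg, saw_neg]
  half := fun a ha => by
    apply saw_half
    rw [← mul_add, ha, mul_zero]
  dist := fun p d _ hpd a => saw_dist_unit hpd t a

variable {ι : Type} [Fintype ι] [LinearOrder ι] {n : ι → ℕ} [∀ i, NeZero (n i)] {N : ℕ} [NeZero N]

theorem core (hn : Adm' n) (hco : Pairwise (fun i j => (n i).Coprime (n j)))
    (hN : ∏ i, n i = N) (E : (∀ i, ZMod (n i)) ≃+* ZMod N) {Q : Type} [AddCommGroup Q]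
    {c : ZMod N → Q} (hc : OddDist c) (hk : ∀ s, ModularCharacter N s → (s.map c).sum = 0)
    (S : Finset ι) (hmain : Dat.MainP (cyc n) (qn n) S univ) {m0 l : ℕ} [NeZero m0]
    (hm0 : ∏ i ∈ S, n i = m0) (hl : l * m0 = N) (x : ZMod m0 → ℤ) (hx : Rel x) :
    ∑ b, x b • c (iota l b) = 0 := by
  classical
  refine CharacterModule.eq_zero_of_character_apply fun φ0 => ?_
  let φ : Q →+ AddCircle (1 : ℚ) := φ0
  change φ _ = 0
  let D := cyc n
  let χ := qn n
  have hsupp : ∀ x : D.Pt, D.Supp univ x := fun x i hi => absurd (mem_univ i) hi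
  have hsupp' : ∀ x : (D.small χ).Pt, (D.small χ).Supp univ x := fun x i hi => absurd (mem_univ i) hi
  -- the distribution with values in the circle
  have hcφ : OddDist (fun a => φ (c a)) := Pool.Agent.N998.oddDist_map hc φ
  set f : D.Pt → AddCircle (1 : ℚ) := fun x => φ (c (E (emb x))) with hf
  have hfD : D.IsD0 univ f := (isD0_of_oddDist hn hco hN E hcφ).1
  have hfo : ∀ x, f (D.act D.c x) = - f x := fun x => (isD0_of_oddDist hn hco hN E hcφ).2 x
  -- lift to the rational numbers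
  let π : ℚ →+ AddCircle (1 : ℚ) := QuotientAddGroup.mk' (AddSubgroup.zmultiples (1 : ℚ))
  have hπ : ∀ q : ℚ, π q = (q : AddCircle (1 : ℚ)) := fun q => rfl
  obtain ⟨ft, hft, hft'⟩ : ∃ g : D.Pt → ℚ, D.IsD0 univ g ∧ ∀ x, π (g x) = f x := by
    let _ := D.trivAct ℚ
    let _ := D.trivAct (AddCircle (1 : ℚ))
    obtain ⟨g, hg, hg'⟩ := Dat.exists_lift (D := D) univ π (fun _ _ => rfl)
      (QuotientAddGroup.mk'_surjective _) (f := f) hfD
    exact ⟨g, hg, fun x => hg' x (hsupp x)⟩
  have hker : ∀ q : ℚ, π q = 0 → ∃ k : ℤ, q = k := by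
    intro q hq
    rw [hπ, AddCircle.coe_eq_zero_iff] at hq
    obtain ⟨k, hk⟩ := hq
    exact ⟨k, by rw [← hk]; simp⟩
  have hint : ∀ k : ℤ, π (k : ℚ) = 0 := by
    intro k
    rw [hπ, AddCircle.coe_eq_zero_iff]
    exact ⟨k, by simp⟩
  -- the integral distribution
  have hν0 : ∀ x, ∃ k : ℤ, ft x + ft (D.act D.c x) = k := by
    intro x
    apply hker
    rw [map_add, hft', hft', hfo, add_neg_cancel]
  choose ν hν using hν0
  have hνD : D.IsD0 univ ν := by
    apply Dat.IsD0.of_cast
    have h1 : D.IsD0 univ (fun x => ft x + ft (D.act D.c x)) := hft.add (hft.act D.c)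
    have h2 : (fun x => ft x + ft (D.act D.c x)) = fun x => (ν x : ℚ) := funext hν
    rwa [h2] at h1
  have hνT : ∀ x, ν (D.act D.c x) = ν x := by
    intro x
    have h1 := hν x
    have h2 := hν (D.act D.c x)
    rw [Dat.act_c_c] at h2
    have : ((ν (D.act D.c x) : ℤ) : ℚ) = ν x := by rw [← h1, ← h2]; ring
    exact_mod_cast this
  -- the weights
  let X := (∀ i, ZMod (n i))ˣ
  let σ : X → D.Pt → ℤ := fun t x => saw (E ((t : ∀ i, ZMod (n i)) * emb x))
  have hKK0 : ∀ z ∈ KK E hc, z.2 = 0 → z.1 = 0 := by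
    rintro z ⟨s, hs, h1, h2⟩ hz
    rw [← h1]
    apply kill_of_balanced hc hk hs
    intro t
    obtain ⟨u, hu⟩ : ∃ u : (∀ i, ZMod (n i))ˣ, E (u : ∀ i, ZMod (n i)) = (t : ZMod N) := by
      refine ⟨Units.mapEquiv E.symm.toMulEquiv t, ?_⟩
      simp
    have h3 := h2 u
    rw [hu, hz] at h3
    exact h3
  obtain ⟨q, hq⟩ := exists_weights (KK E hc) hKK0 φ
  -- the values on the small system
  have hfib : ∀ x' : (D.small χ).Pt, (Dat.smA χ (fun x : D.Pt => c (E (emb x))) x',
      fun t : X => Dat.smA χ (σ t) x') ∈ KK E hc := by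
    intro x'
    have hv : ∀ i, ∃ v : (ZMod (n i))ˣ, ∀ ε, x' i = some ε → qch (n i) v = ε := by
      intro i
      cases hxi : x' i with
      | none => exact ⟨1, fun ε h => by cases h⟩
      | some ε =>
        obtain ⟨v, hv⟩ := exists_qch (hn i) ε
        exact ⟨v, fun ε' h => by rw [hv]; exact Option.some_injective _ h⟩
    choose v hv using hv
    have h1 := Pool.Agent.N998.QV_mem_KK hn hco E hc v (univ.filter (fun i => x' i ≠ none))
    have e1 := sum_fib hn (fun y => c (E y)) v x' hv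
    have e2 : ∀ t : X, Dat.smA χ (σ t) x' = ∑ y ∈ PA (fun i => (Hf (n i)).image
        (fun a => (v i : ZMod (n i)) * a)) (univ.filter (fun i => x' i ≠ none)),
        saw (E ((t : ∀ i, ZMod (n i)) * y)) := fun t =>
      sum_fib hn (fun y => saw (E ((t : ∀ i, ZMod (n i)) * y))) v x' hv
    have e3 : (fun t : X => Dat.smA χ (σ t) x') = fun t : X => ∑ y ∈ PA (fun i => (Hf (n i)).image
        (fun a => (v i : ZMod (n i)) * a)) (univ.filter (fun i => x' i ≠ none)),
        saw (E ((t : ∀ i, ZMod (n i)) * y)) := funext e2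
    rw [e3]
    have e4 : Dat.smA χ (fun x : D.Pt => c (E (emb x))) x' = _ := e1
    rw [e4]
    exact h1
  let fh : (D.small χ).Pt → ℚ := fun x' => ∑ t, ((Dat.smA χ (σ t) x' : ℤ) : ℚ) * q t
  have hσD : ∀ t, D.IsD0 univ (σ t) := by
    intro t
    have h1 := (isD0_of_oddDist hn hco hN E
      (saw_oddDist' (Units.mapEquiv E.toMulEquiv t))).1
    have h2 : (fun x : D.Pt => saw (((Units.mapEquiv E.toMulEquiv t : (ZMod N)ˣ) : ZMod N) *
        E (emb x))) = σ t := by
      funext x
      change saw (E t * E (emb x)) = saw (E (t * emb x))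
      rw [map_mul]
    rw [h2] at h1
    exact h1
  have hσo : ∀ t x, σ t (D.act D.c x) = - σ t x := by
    intro t x
    have h1 := (isD0_of_oddDist hn hco hN E
      (saw_oddDist' (Units.mapEquiv E.toMulEquiv t))).2 x
    have h2 : ∀ x : D.Pt, saw (((Units.mapEquiv E.toMulEquiv t : (ZMod N)ˣ) : ZMod N) *
        E (emb x)) = σ t x := by
      intro x
      change saw (E t * E (emb x)) = saw (E (t * emb x))
      rw [map_mul]
    rw [h2, h2] at h1
    exact h1
  have hfhD : (D.small χ).IsD0 univ fh := by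
    apply Dat.IsD0.sum
    intro t _
    have h1 : (D.small χ).IsD0 univ (fun x' => ((Dat.smA χ (σ t) x' : ℤ) : ℚ)) :=
      (Dat.smA_isD0 (hσD t)).cast
    exact h1.map (AddMonoidHom.mulRight (q t))
  have hσc : ∀ t x', Dat.smA χ (σ t) ((D.small χ).act (D.small χ).c x') = - Dat.smA χ (σ t) x' := by
    intro t x'
    have h1 := Dat.smA_act (χ := χ) D.c (σ t) x'
    have h2 : (fun x => σ t (D.act D.c x)) = fun x => - σ t x := funext (hσo t)
    rw [h2] at h1
    refine h1.symm.trans ?_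
    exact Dat.smA_map (-(AddMonoidHom.id ℤ)) (σ t) x'
  have hfho : ∀ x', fh ((D.small χ).act (D.small χ).c x') = - fh x' := by
    intro x'
    change ∑ t, ((Dat.smA χ (σ t) ((D.small χ).act (D.small χ).c x') : ℤ) : ℚ) * q t =
      - ∑ t, ((Dat.smA χ (σ t) x' : ℤ) : ℚ) * q t
    rw [← sum_neg_distrib]
    refine sum_congr rfl fun t _ => ?_
    rw [hσc]; push_cast; ring
  have hk'0 : ∀ x', ∃ k : ℤ, Dat.smA χ ft x' - fh x' = k := by
    intro x'
    apply hker
    rw [map_sub]
    have h1 := hq _ (hfib x')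
    have h2 : π (fh x') = φ (Dat.smA χ (fun x : D.Pt => c (E (emb x))) x') := h1.symm
    rw [h2, ← Dat.smA_map, ← Dat.smA_map]
    have h3 : (fun x => π (ft x)) = f := funext hft'
    rw [h3, sub_self]
  choose k' hk' using hk'0
  have hk'D : (D.small χ).IsD0 univ k' := by
    apply Dat.IsD0.of_cast
    have h1 : (D.small χ).IsD0 univ (fun x' => Dat.smA χ ft x' - fh x') :=
      (Dat.smA_isD0 hft).sub hfhD
    have h2 : (fun x' => Dat.smA χ ft x' - fh x') = fun x' => (k' x' : ℚ) := funext hk'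
    rwa [h2] at h1
  have himg : (D.small χ).Img 1 univ (Dat.sm χ ν) := by
    refine ⟨k', hk'D, fun x' _ => ?_⟩
    change Dat.sm χ ν x' = k' x' + 1 * k' ((D.small χ).act (D.small χ).c x')
    have h1 : ((Dat.sm χ ν x' : ℤ) : ℚ) = Dat.smA χ ft x' +
        Dat.smA χ ft ((D.small χ).act (D.small χ).c x') := by
      have e0 : Dat.smA χ ft ((D.small χ).act (D.small χ).c x') =
          Dat.smA χ (fun x => ft (D.act D.c x)) x' := (Dat.smA_act D.c ft x').symm
      rw [e0]
      unfold Dat.sm Dat.smA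
      rw [← sum_add_distrib]
      push_cast
      exact sum_congr rfl fun x _ => (hν x).symm
    have h2 := hk' x'
    have h3 := hk' ((D.small χ).act (D.small χ).c x')
    rw [hfho] at h3
    have h4 : ((Dat.sm χ ν x' : ℤ) : ℚ) = k' x' + 1 * k' ((D.small χ).act (D.small χ).c x') := by
      rw [h1, ← h2, ← h3]; ring
    exact_mod_cast h4
  -- the main theorem on systems
  obtain ⟨k, hkD, hk2⟩ := hmain 1 (by norm_num) ν hνD (fun x _ => by
    change ν (D.act D.c x) = 1 * ν x
    rw [hνT, one_mul]) himg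
  have hkD0 : D.IsD0 S k := hkD
  have hk3 : ∀ x, D.Supp S x → ν x = k x + k (D.act D.c x) := by
    intro x hx
    have := hk2 x hx
    change ν x = k x + 1 * k (D.act D.c x) at this
    rw [this, one_mul]
  set h : D.Pt → ℚ := fun x => ft x - (k x : ℚ) with hh
  have hhD : D.IsD0 S h := by
    have h1 : D.IsD0 S ft := fun i _ x _ h0 => hft i (mem_univ i) x (hsupp x) h0
    exact h1.sub hkD0.cast
  have hho : ∀ x, D.Supp S x → h (D.act D.c x) = - h x := by
    intro x hx
    have h1 := hν x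
    have h2 := hk3 x hx
    rw [h2] at h1
    push_cast at h1
    change ft (D.act D.c x) - (k (D.act D.c x) : ℚ) = -(ft x - (k x : ℚ))
    linear_combination h1
  -- the numbers
  have hprod : m0 * ∏ i ∈ univ \ S, n i = N := by
    rw [← hm0, ← hN, mul_comm]
    exact prod_sdiff (subset_univ S)
  have hl2 : l = ∏ i ∈ univ \ S, n i := by
    have h1 : m0 * l = m0 * ∏ i ∈ univ \ S, n i := by rw [hprod, mul_comm]; exact hl
    exact Nat.eq_of_mul_eq_mul_left (NeZero.pos m0) h1
  have hlS : ∀ i, i ∉ S → n i ∣ l := by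
    intro i hi
    rw [hl2]
    exact dvd_prod_of_mem n (mem_sdiff.mpr ⟨mem_univ _, hi⟩)
  have hlS' : ∀ i ∈ S, l.Coprime (n i) := by
    intro i hi
    rw [hl2]
    apply Nat.Coprime.prod_left
    intro j hj
    exact hco (fun h => (mem_sdiff.mp hj).2 (h ▸ hi))
  have hdist := oddDist_ext hn hco S hm0 l hlS hlS' hhD hho
  have hrat := Pool.Agent.N998.rat_zero _ hdist x hx
  -- conclusion
  set a : ZMod m0 → ∀ i, ZMod (n i) := fun b i => ((l * b.val : ℕ) : ZMod (n i)) with ha
  have hio : ∀ b : ZMod m0, (iota l b : ZMod N) = E (a b) := by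
    intro b
    exact E_natCast E (l * b.val)
  have h1 : ∀ b : ZMod m0, φ (c (iota l b)) = π (ext ft (a b)) := by
    intro b
    rw [hio]
    have e1 := c_eq_ext hn hco hN E hcφ (a b)
    refine e1.trans ?_
    rw [← ext_map]
    congr 1
    funext y
    exact (hft' y).symm
  have h2 : ∀ b : ZMod m0, ext h (a b) = ext ft (a b) - ((ext k (a b) : ℤ) : ℚ) := by
    intro b
    rw [hh, ext_sub]
    congr 1
    exact ext_map (Int.castRingHom ℚ).toAddMonoidHom k (a b)
  have h3 : ∑ b, (x b : ℚ) * ext ft (a b) = ((∑ b, x b * ext k (a b) : ℤ) : ℚ) := by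
    have h4 : ∑ b, (x b : ℚ) * ext h (a b) = 0 := hrat
    simp only [h2, mul_sub, sum_sub_distrib] at h4
    rw [sub_eq_zero] at h4
    rw [h4]; push_cast; rfl
  rw [map_sum]
  have h5 : ∀ b : ZMod m0, φ (x b • c (iota l b)) = π ((x b : ℚ) * ext ft (a b)) := by
    intro b
    rw [map_zsmul, h1, ← map_zsmul, zsmul_eq_mul]
  simp only [h5]
  rw [← map_sum, h3, hint]

end Pool.Agent.N993
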