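import Pool.Agent.N992.Main
import Pool.Agent.N993.Core
import Pool.Agent.N998.AuxPrimes

/-!
Hodge characters of the degrees whose prime factors are squares modulo each other, or congruent to 3
modulo 4.
-/

set_option linter.unusedSectionVars false

namespace Pool.Agent.N993

open Finset Pool.Agent.H916R2 Pool.Agent.N992

/-- Every prime factor `p` of `m` congruent to 1 modulo 4 sees only squares: all other odd prime
factors of `m`, and 2 if `4` divides `m`, are squares modulo `p`. -/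
def MutualSquares (m : ℕ) : Prop :=
  ∀ p : ℕ, p.Prime → p ∣ m → p % 4 = 1 →
    (∀ q : ℕ, q.Prime → q ∣ m → q ≠ 2 → q ≠ p → IsSquare (q : ZMod p)) ∧ (4 ∣ m → p % 8 = 1)

/-- The transfer to the full level with auxiliary primes. -/
theorem transfer {m m0 k l N : ℕ} [NeZero m] [NeZero m0] [NeZero N] [NeZero (l * m)]
    (hk : k * m0 = m) (hl : l * m0 = N) (hred : Red m m0 k)
    (hcore : ∀ (Q : Type) [AddCommGroup Q] (c : ZMod N → Q), OddDist c →
      (∀ s, ModularCharacter N s → (s.map c).sum = 0) → ∀ x : ZMod m0 → ℤ, Rel x →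
      ∑ b, x b • c (iota l b) = 0) {s : Multiset (ZMod m)} (hs : IsHodge m s) (hne : s ≠ 0) :
    Generated (l * m) (ModularCharacter (l * m)) (s.map (iota l : ZMod m → ZMod (l * m))) := by
  have hkN : k * N = l * m := by rw [← hl, ← hk]; ring
  set c := cQ (l * m) (ModularCharacter (l * m)) with hc
  have hcD : OddDist c := cQ_oddDist
  have hsl : IsHodge (l * m) (s.map (iota l : ZMod m → ZMod (l * m))) := hs.iota rfl
  obtain ⟨x0, hx0, he⟩ := hred _ (fun b : ZMod m => c (iota l b)) (hcD.comp_iota rfl) _ hs.rel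
  have h1 : ∀ b : ZMod m0, c (iota l (iota k b : ZMod m)) = c (iota k (iota l b : ZMod N)) := by
    intro b
    rw [iota_comp rfl, iota_comp hkN, mul_comm l k]
  simp only [h1] at he
  have h2 := hcore _ (fun d : ZMod N => c (iota k d)) (hcD.comp_iota hkN) (by
    intro s0 hs0
    have h3 := cQ_sum_eq_zero (Generated.ofBase (m := l * m) (base := ModularCharacter (l * m))
      (s0.map (iota k : ZMod N → ZMod (l * m))) (hs0.lift hkN))
    rw [Multiset.map_map] at h3
    exact h3) x0 hx0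
  rw [h2, sum_count] at he
  have h4 : ((s.map (iota l : ZMod m → ZMod (l * m))).map c).sum = 0 := by
    rw [Multiset.map_map]; exact he
  rw [hc, cQ_sum, QuotientAddGroup.eq_zero_iff] at h4
  refine generated_of_mem_LL (fun s hs => ⟨hs.1.1, hs.1.2.1⟩) (fun s hs => hs.neg) hsl.1 hsl.2.1 ?_ h4
  intro h5
  exact hne (Multiset.map_eq_zero.mp h5)

lemma chain_eq {S N : Finset ℕ} (h : Chain S N) (hS : ∀ p ∈ S, p % 4 ≠ 1) : S = N := by
  cases h with
  | base T h => rfl
  | step h p q hc => exact absurd hc.p4 (hS p (mem_insert_self _ _))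

/-- The core statement for the set `S` of odd primes and possibly 4. -/
theorem core_set (S : Finset ℕ) (hS : ∀ x ∈ S, (x.Prime ∧ x % 2 = 1) ∨ x = 4)
    (hsq : ∀ p ∈ S, p % 4 = 1 → (∀ j ∈ S, j ≠ p → IsSquare ((j : ℕ) : ZMod p)) ∧
      (4 ∈ S → IsSquare ((2 : ℕ) : ZMod p))) (m0 : ℕ) [NeZero m0] (hm0 : ∏ x ∈ S, x = m0) :
    ∃ l N : ℕ, ∃ _ : NeZero N, l * m0 = N ∧ ((∀ p ∈ S, p % 4 ≠ 1) → l = 1) ∧
      ∀ (Q : Type) [AddCommGroup Q] (c : ZMod N → Q),
      OddDist c → (∀ s, ModularCharacter N s → (s.map c).sum = 0) → ∀ x : ZMod m0 → ℤ, Rel x →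
      ∑ b, x b • c (iota l b) = 0 := by
  classical
  obtain ⟨U, hchain, hSU, hU, _⟩ := Pool.Agent.N998.exists_chain S hS hsq
  have hnz : ∀ i : Ix U, NeZero (nn U i) := fun i =>
    ⟨by have := one_lt_of (hU i i.2); change (i : ℕ) ≠ 0; omega⟩
  have hn : Adm' (nn U) := fun i => hU i i.2
  have hco : Pairwise (fun i j : Ix U => (nn U i).Coprime (nn U j)) := fun i j hij =>
    coprime_of (hU i i.2) (hU j j.2) (fun h => hij (Subtype.ext h))
  have hmain := (mainP_of_chain hU hchain (Subset.refl U)).1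
  have hun : U.subtype (· ∈ U) = univ := by
    ext x; simp
  rw [hun] at hmain
  have hN0 : ∏ i : Ix U, nn U i ≠ 0 := prod_ne_zero_iff.mpr fun i _ => (hnz i).out
  have hNZ : NeZero (∏ i : Ix U, nn U i) := ⟨hN0⟩
  have hm0' : ∏ i ∈ S.subtype (· ∈ U), nn U i = m0 := by
    rw [← hm0]
    exact Finset.prod_subtype_of_mem (fun x => x) (fun x hx => hSU hx)
  have hdvd : m0 ∣ ∏ i : Ix U, nn U i := by
    rw [← hm0']
    exact prod_dvd_prod_of_subset _ _ _ (subset_univ _)
  obtain ⟨l, hl⟩ := hdvd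
  have hl' : l * m0 = ∏ i : Ix U, nn U i := (mul_comm _ _).trans hl.symm
  refine ⟨l, _, hNZ, hl', ?_, ?_⟩
  · intro h1
    have h2 := chain_eq hchain h1
    subst h2
    have h3 : ∏ i : Ix S, nn S i = m0 := by rw [← hm0', hun]
    rw [h3] at hl'
    have h4 : l * m0 = 1 * m0 := by rw [hl', one_mul]
    exact Nat.eq_of_mul_eq_mul_right (NeZero.pos m0) h4
  intro Q _ c hc hk x hx
  exact core hn hco rfl (ZMod.prodEquivPi (nn U) hco).symm hc hk (S.subtype (· ∈ U)) hmain hm0' hl' x hx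

theorem main (m : ℕ) [NeZero m] (hm : MutualSquares m) :
    ∃ l : ℕ, ∃ _ : NeZero (l * m), ((∀ p : ℕ, p.Prime → p ∣ m → p % 4 ≠ 1) → l = 1) ∧
      ∀ s : Multiset (ZMod m), IsHodge m s → s ≠ 0 →
      Generated (l * m) (ModularCharacter (l * m))
        (s.map (fun a => ((l * a.val : ℕ) : ZMod (l * m)))) := by
  classical
  have hm0 : m ≠ 0 := NeZero.ne m
  set P := m.primeFactors.erase 2 with hP
  have hPp : ∀ x ∈ P, x.Prime ∧ x % 2 = 1 ∧ x ∣ m := by
    intro x hx
    have h1 := Nat.prime_of_mem_primeFactors (mem_of_mem_erase hx)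
    refine ⟨h1, ?_, Nat.dvd_of_mem_primeFactors (mem_of_mem_erase hx)⟩
    rcases h1.eq_two_or_odd with h | h
    · exact absurd h (ne_of_mem_erase hx)
    · exact h
  have hPmem : ∀ p, p.Prime → p ∣ m → p ≠ 2 → p ∈ P := fun p hp hpm h2 =>
    mem_erase.mpr ⟨h2, Nat.mem_primeFactors.mpr ⟨hp, hpm, hm0⟩⟩
  have h4P : 4 ∉ P := fun h => absurd (hPp 4 h).1 (by norm_num)
  have hdvdP : ∏ x ∈ P, x ∣ m := by
    apply Finset.prod_dvd_of_isRelPrime
    · intro a ha b hb hab
      exact Nat.coprime_iff_isRelPrime.mp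
        ((Nat.coprime_primes (hPp a ha).1 (hPp b hb).1).mpr hab)
    · intro x hx; exact (hPp x hx).2.2
  have hoddP : (∏ x ∈ P, x) % 2 = 1 := by
    rw [← Nat.odd_iff]
    refine Finset.prod_induction _ Odd (fun a b => Odd.mul) odd_one fun x hx => ?_
    exact Nat.odd_iff.mpr (hPp x hx).2.1
  have hP0 : ∏ x ∈ P, x ≠ 0 := by omega
  have hprimes : ∀ p, p.Prime → p ∣ m → p ≠ 2 → p ∣ ∏ x ∈ P, x := fun p hp hpm h2 =>
    dvd_prod_of_mem (fun x => x) (hPmem p hp hpm h2)
  -- the final step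
  have fin : ∀ (m0 k : ℕ) (_ : NeZero m0) (S : Finset ℕ) (_ : ∀ p ∈ S, p % 4 = 1 → p ∈ P),
      k * m0 = m → Red m m0 k →
      (∃ l N : ℕ, ∃ _ : NeZero N, l * m0 = N ∧ ((∀ p ∈ S, p % 4 ≠ 1) → l = 1) ∧
      ∀ (Q : Type) [AddCommGroup Q] (c : ZMod N → Q),
      OddDist c → (∀ s, ModularCharacter N s → (s.map c).sum = 0) → ∀ x : ZMod m0 → ℤ, Rel x →
      ∑ b, x b • c (iota l b) = 0) →
      ∃ l : ℕ, ∃ _ : NeZero (l * m), ((∀ p : ℕ, p.Prime → p ∣ m → p % 4 ≠ 1) → l = 1) ∧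
      ∀ s : Multiset (ZMod m), IsHodge m s → s ≠ 0 →
      Generated (l * m) (ModularCharacter (l * m))
        (s.map (fun a => ((l * a.val : ℕ) : ZMod (l * m)))) := by
    intro m0 k _ S hSP hk hred ⟨l, N, hN, hl, hl1, hcore⟩
    have hl0 : l ≠ 0 := by
      rintro rfl
      rw [zero_mul] at hl
      exact hN.out hl.symm
    have hlm : NeZero (l * m) := ⟨Nat.mul_ne_zero hl0 hm0⟩
    refine ⟨l, hlm, fun h => hl1 fun p hp h4 => ?_, fun s hs hne => transfer hk hl hred hcore hs hne⟩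
    have h5 := hPp p (hSP p hp h4)
    exact h p h5.1 h5.2.2 h4
  by_cases h4 : 4 ∣ m
  · have hS : ∀ x ∈ insert 4 P, (x.Prime ∧ x % 2 = 1) ∨ x = 4 := by
      intro x hx
      rcases mem_insert.mp hx with h | h
      · right; exact h
      · left; exact ⟨(hPp x h).1, (hPp x h).2.1⟩
    have hm0' : ∏ x ∈ insert 4 P, x = 4 * ∏ x ∈ P, x := prod_insert h4P
    have hNZ : NeZero (∏ x ∈ insert 4 P, x) := ⟨by rw [hm0']; omega⟩
    have hcop : Nat.Coprime 4 (∏ x ∈ P, x) := by
      have : Nat.Coprime (2 ^ 2) (∏ x ∈ P, x) := by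
        apply Nat.Coprime.pow_left
        rw [Nat.coprime_two_left]; exact Nat.odd_iff.mpr hoddP
      exact this
    have hdvd : ∏ x ∈ insert 4 P, x ∣ m := by
      rw [hm0']; exact hcop.mul_dvd_of_dvd_of_dvd h4 hdvdP
    obtain ⟨k, hk⟩ := hdvd
    have hk' : k * ∏ x ∈ insert 4 P, x = m := (mul_comm _ _).trans hk.symm
    refine fin _ k hNZ (insert 4 P) (fun p hp h1 => ?_) hk' (red_exists _ m _ k rfl hk' ?_ ?_)
      (core_set (insert 4 P) hS ?_ _ rfl)
    · rcases mem_insert.mp hp with h | h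
      · omega
      · exact h
    · intro p hp hpm
      by_cases h2 : p = 2
      · rw [h2, hm0']
        exact Dvd.dvd.mul_right (by norm_num) _
      · rw [hm0']; exact (hprimes p hp hpm h2).mul_left 4
    · intro _; rw [hm0']; exact dvd_mul_right 4 _
    · intro p hp hp4
      have hpP : p ∈ P := by
        rcases mem_insert.mp hp with h | h
        · omega
        · exact h
      obtain ⟨h1, h2⟩ := hm p (hPp p hpP).1 (hPp p hpP).2.2 hp4
      have hpF : Fact p.Prime := ⟨(hPp p hpP).1⟩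
      have hs2 : IsSquare ((2 : ℕ) : ZMod p) := by
        have h3 := (ZMod.exists_sq_eq_two_iff (p := p) (by rintro rfl; omega)).mpr (Or.inl (h2 h4))
        exact_mod_cast h3
      refine ⟨fun j hj hjp => ?_, fun _ => hs2⟩
      rcases mem_insert.mp hj with h | h
      · subst h
        have : ((4 : ℕ) : ZMod p) = ((2 : ℕ) : ZMod p) * ((2 : ℕ) : ZMod p) := by
          push_cast; norm_num
        rw [this]
        exact ⟨_, rfl⟩
      · exact h1 j (hPp j h).1 (hPp j h).2.2 (ne_of_mem_erase h) hjp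
  · have hS : ∀ x ∈ P, (x.Prime ∧ x % 2 = 1) ∨ x = 4 := fun x h =>
      Or.inl ⟨(hPp x h).1, (hPp x h).2.1⟩
    have hNZ : NeZero (∏ x ∈ P, x) := ⟨hP0⟩
    have hcs := core_set P hS (by
      intro p hp hp4
      obtain ⟨h1, _⟩ := hm p (hPp p hp).1 (hPp p hp).2.2 hp4
      exact ⟨fun j hj hjp => h1 j (hPp j hj).1 (hPp j hj).2.2 (ne_of_mem_erase hj) hjp,
        fun h => absurd h h4P⟩) _ rfl
    by_cases h2 : 2 ∣ m
    · have h2N : 2 * ∏ x ∈ P, x ∣ m := by
        apply Nat.Coprime.mul_dvd_of_dvd_of_dvd _ h2 hdvdP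
        rw [Nat.coprime_two_left]; exact Nat.odd_iff.mpr hoddP
      obtain ⟨k, hk⟩ := h2N
      have hNZ2 : NeZero (2 * ∏ x ∈ P, x) := ⟨Nat.mul_ne_zero two_ne_zero hP0⟩
      have hk' : k * (2 * ∏ x ∈ P, x) = m := (mul_comm _ _).trans hk.symm
      have hr1 : Red m (2 * ∏ x ∈ P, x) k := by
        refine red_exists _ m _ k rfl hk' ?_ (fun h => absurd h h4)
        intro p hp hpm
        by_cases hp2 : p = 2
        · rw [hp2]; exact dvd_mul_right 2 _
        · exact (hprimes p hp hpm hp2).mul_left 2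
      have hr2 : Red m (∏ x ∈ P, x) (k * 2) := Red.trans hk' hr1 (red_two hoddP)
      exact fin _ (k * 2) hNZ P (fun p hp _ => hp) ((mul_assoc _ _ _).trans hk') hr2 hcs
    · obtain ⟨k, hk⟩ := hdvdP
      have hk' : k * ∏ x ∈ P, x = m := (mul_comm _ _).trans hk.symm
      refine fin _ k hNZ P (fun p hp _ => hp) hk'
        (red_exists _ m _ k rfl hk' ?_ (fun h => absurd h h4)) hcs
      intro p hp hpm
      exact hprimes p hp hpm (fun h => h2 (h ▸ hpm))

end Pool.Agent.N993
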