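import Pool.Agent.N993.Zee

/-!
Nonresidue pairs: the class of a pair does not depend on the nonresidue.
-/

set_option linter.unusedSectionVars false

namespace Pool.Agent.N993

open Finset

namespace Dat

variable {ι : Type} [DecidableEq ι] {D : Dat ι}

/-- the point all of whose coordinates are zero -/
def O (D : Dat ι) : D.Pt := fun _ => none

lemma act_O (b : D.GG) : D.act b D.O = D.O := by
  funext i; exact act_apply_none rfl

lemma supp_O (S : Finset ι) : D.Supp S D.O := fun _ _ => rfl

lemma eq_O {z : D.Pt} (hz : D.Supp ∅ z) : z = D.O := funext fun i => hz i (notMem_empty _)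

lemma supp_single {a : ι} {z : D.Pt} (hz : D.Supp {a} z) : z = Function.update D.O a (z a) := by
  funext i
  by_cases h : i = a
  · subst h; rw [Function.update_self]
  · rw [Function.update_of_ne h]
    exact hz i (by rwa [mem_singleton])

variable {χ : ∀ i, D.G i →* ℤˣ} [Fintype ι]

/-- the invariant of `ζ` -/
def z0 (χ : ∀ i, D.G i →* ℤˣ) (p : ι) (ζ : D.Pt → D.Ind p ℤ) : ℤ :=
  sm χ (ns χ p 1 ζ) (D.small χ).O + sm χ (ns χ p (-1) ζ) (D.small χ).O

lemma z0_eq (p : ι) (ζ : D.Pt → D.Ind p ℤ) (ε : ℤˣ) :
    z0 χ p ζ = sm χ (ns χ p ε ζ) (D.small χ).O + sm χ (ns χ p (-ε) ζ) (D.small χ).O := by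
  unfold z0
  rcases Int.units_eq_one_or ε with h | h
  · rw [h]
  · rw [h, neg_neg, add_comm]

/-- The parity of the sum over a class of a pair of nonresidues. -/
lemma rel_z0 {S0 : Finset ι} {p a : ι} (ha : a ∈ S0) {ζ : D.Pt → D.Ind p ℤ} (hζ : D.IsD S0 ζ)
    (hnr : χ p (D.α a p) * χ p (D.β a p) = -1) (ε ε' : ℤˣ) :
    2 ∣ sm χ (ns χ p ε ζ) (Function.update (D.small χ).O a (some ε')) +
      sm χ (ns χ p ε ζ) (Function.update (D.small χ).O a (some (-ε'))) - z0 χ p ζ := by
  rw [rel_ns ha hζ (supp_O S0) rfl, act_O, act_O]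
  have h1 : χ p (D.β a p) * ε = -(χ p (D.α a p) * ε) := by
    have h2 : χ p (D.β a p) = -χ p (D.α a p) := by
      rcases Int.units_eq_one_or (χ p (D.α a p)) with h | h <;>
        rcases Int.units_eq_one_or (χ p (D.β a p)) with h' | h' <;>
        rw [h, h'] at hnr ⊢ <;> first | rfl | (exact absurd hnr (by decide))
    rw [h2, neg_mul]
  rw [h1, z0_eq p ζ (χ p (D.α a p) * ε)]
  omega

/-- The pair class is given by the invariant `z0`. -/
theorem pair_z (hfree : ∀ i, D.c i ≠ 1) {S0 : Finset ι} {p q : ι} (h : AuxC D χ S0 p q)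
    {f : D.Pt → ℤ} (hf : D.IsD (insert p (insert q S0)) f)
    (hty : D.Ty 1 (insert p (insert q S0)) f)
    (hev : ∀ z, (D.small χ).Supp (insert p (insert q S0)) z → 2 ∣ sm χ f z)
    {gp ζ : D.Pt → D.Ind p ℤ} (hgp : D.IsD S0 gp)
    (hgp' : D.EqS S0 (D.un p f) (gp + (1 : ℤ) • D.T D.c gp)) (hζD : D.IsD S0 ζ)
    (hζ : ∀ ε x, D.Supp S0 x →
        ns χ p ε (ns χ q 1 (D.un q (D.un p f))) x - ns χ p (-ε) gp x + ns χ p ε gp x =
          ns χ p ε ζ x - ns χ p ε ζ (D.act D.c x))
    {a : ι} (ha : a ∈ S0) (hac : χ a (D.c a) = -1) (hodd : (Kr χ a).card % 2 = 1)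
    (hnr : χ p (D.α a p) * χ p (D.β a p) = -1) :
    D.Img 1 (insert p {a}) f ↔ 2 ∣ z0 χ p ζ := by
  have hsub : ({a} : Finset ι) ⊆ insert p (insert q S0) := by
    intro x hx
    rw [mem_singleton] at hx
    subst hx
    exact mem_insert_of_mem (mem_insert_of_mem ha)
  have hsub0 : ({a} : Finset ι) ⊆ S0 := by
    intro x hx
    rw [mem_singleton] at hx
    exact hx ▸ ha
  have hpa : p ∉ ({a} : Finset ι) := fun h' => h.hp (hsub0 h')
  have hsurj : ∀ i ∈ ({a} : Finset ι), ∃ u, χ i u = -1 := by
    intro i hi
    rw [mem_singleton] at hi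
    subst hi
    exact ⟨_, hac⟩
  have hodd' : ∀ i ∈ ({a} : Finset ι), (Kr χ i).card % 2 = 1 := by
    intro i hi
    rw [mem_singleton] at hi
    subst hi
    exact hodd
  obtain ⟨g0, hg0, hg0'⟩ : D.Img 1 {a} f :=
    base_case hfree hsurj hodd' (by norm_num) (hf.mono hsub) (hty.mono hsub)
      (small_img (by norm_num) (hf.mono hsub) (hty.mono hsub) fun z hz => hev z (hz.mono hsub))
  rw [img_iff hfree hpa (by norm_num) hg0 hg0' (hgp.mono hsub0) (hgp'.mono hsub0)]
  -- the sums over the fibres
  have hsm : ∀ z : (D.small χ).Pt, sm χ (dlt p g0 gp) z = sm χ (fun x => D.nrm p (gp x)) z -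
      (sm χ g0 ((D.small χ).act (mg χ (D.α p)) z) -
        sm χ g0 ((D.small χ).act (mg χ (D.β p)) z)) := by
    intro z
    unfold dlt
    rw [sm_sub, sm_sub, sm_T, sm_T, Pi.sub_apply, Pi.sub_apply, T_triv (triv_int _),
      T_triv (triv_int _)]
  have hpar : ∀ z : (D.small χ).Pt, (D.small χ).Supp {a} z → ∀ b : (D.small χ).GG,
      2 ∣ sm χ g0 ((D.small χ).act b z) - sm χ g0 z := fun z hz b =>
    par (sm_isD hg0) _ z hz le_rfl b
  have hsome : ∀ ε', 2 ∣ sm χ (fun x => D.nrm p (gp x)) (Function.update (D.small χ).O a (some ε')) -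
      z0 χ p ζ := by
    intro ε'
    have h1 := par_formula h hev hζ (z := Function.update (D.small χ).O a (some ε'))
      ((supp_O S0).update ha _) 1
    have h2 := rel_z0 ha hζD hnr 1 ε'
    have h3 : (D.small χ).act (D.small χ).c (Function.update (D.small χ).O a (some ε')) =
        Function.update (D.small χ).O a (some (-ε')) := by
      rw [act_update_some, act_O]
      have : (D.small χ).c a * ε' = -ε' := by
        change χ a (D.c a) * ε' = -ε'
        rw [hac, neg_one_mul]
      rw [this]
    rw [h3] at h1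
    omega
  have hnone : 2 ∣ sm χ (fun x => D.nrm p (gp x)) (D.small χ).O := by
    have h1 := par_formula h hev hζ (z := (D.small χ).O) (supp_O S0) 1
    rw [act_O] at h1
    omega
  constructor
  · intro hI
    have hz : (D.small χ).Supp {a} (Function.update (D.small χ).O a (some 1)) :=
      (supp_O _).update (mem_singleton_self a) _
    have h1 := sm_even (χ := χ) (by norm_num) hI hz
    rw [hsm] at h1
    have h2 := hpar _ hz (mg χ (D.α p))
    have h3 := hpar _ hz (mg χ (D.β p))
    have h4 := hsome 1
    omega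
  · intro hz0
    refine base_case hfree hsurj hodd' (by norm_num)
      (dlt_isD hg0 (hgp.mono hsub0))
      (dlt_ty hpa (by norm_num) (hf.mono ?_) hg0' (hgp'.mono hsub0)) ?_
    · exact insert_subset_insert _ (hsub0.trans (subset_insert _ _))
    refine small_img (by norm_num) (dlt_isD hg0 (hgp.mono hsub0))
      (dlt_ty hpa (by norm_num) (hf.mono ?_) hg0' (hgp'.mono hsub0)) ?_
    · exact insert_subset_insert _ (hsub0.trans (subset_insert _ _))
    intro z hz
    rw [hsm]
    have h2 := hpar _ hz (mg χ (D.α p))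
    have h3 := hpar _ hz (mg χ (D.β p))
    have h4 : 2 ∣ sm χ (fun x => D.nrm p (gp x)) z := by
      rw [supp_single hz]
      cases hza : z a with
      | none =>
        have : Function.update (D.small χ).O a none = (D.small χ).O :=
          Function.update_eq_self a (D.small χ).O
        rw [this]; exact hnone
      | some ε' =>
        have := hsome ε'
        omega
    omega

/-- The class of the pair does not depend on the nonresidue. -/
theorem pair_iff (hfree : ∀ i, D.c i ≠ 1) {S0 : Finset ι} {p q : ι} (h : AuxC D χ S0 p q)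
    {f : D.Pt → ℤ} (hf : D.IsD (insert p (insert q S0)) f)
    (hty : D.Ty 1 (insert p (insert q S0)) f)
    (hev : ∀ z, (D.small χ).Supp (insert p (insert q S0)) z → 2 ∣ sm χ f z)
    {a b : ι} (ha : a ∈ S0) (hac : χ a (D.c a) = -1) (hoddA : (Kr χ a).card % 2 = 1)
    (hnrA : χ p (D.α a p) * χ p (D.β a p) = -1)
    (hb : b ∈ S0) (hbc : χ b (D.c b) = -1) (hoddB : (Kr χ b).card % 2 = 1)
    (hnrB : χ p (D.α b p) * χ p (D.β b p) = -1) :
    D.Img 1 (insert p {a}) f ↔ D.Img 1 (insert p {b}) f := by
  obtain ⟨gp, ζ, hgp, hgp', hζD, hζ⟩ := zeta_exists hfree h hf hty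
  rw [pair_z hfree h hf hty hev hgp hgp' hζD hζ ha hac hoddA hnrA,
    pair_z hfree h hf hty hev hgp hgp' hζD hζ hb hbc hoddB hnrB]

/-- Two primes which see each other as nonresidues. -/
theorem two_primes (hfree : ∀ i, D.c i ≠ 1) {S0 : Finset ι} {p q : ι} (h : AuxC D χ S0 p q)
    {f : D.Pt → ℤ} (hf : D.IsD (insert p (insert q S0)) f)
    (hty : D.Ty 1 (insert p (insert q S0)) f)
    (hev : ∀ z, (D.small χ).Supp (insert p (insert q S0)) z → 2 ∣ sm χ f z)
    {a : ι} (ha : a ∈ S0) (hac : χ a (D.c a) = -1) (hoddA : (Kr χ a).card % 2 = 1)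
    (hnrA : χ p (D.α a p) * χ p (D.β a p) = -1) (hIa : D.Img 1 (insert p {a}) f)
    {r s : ι} (hrs : r ≠ s) (hr : r ∈ S0) (hs : s ∈ S0) (hrc : χ r (D.c r) = 1)
    (hsc : χ s (D.c s) = -1) (hαrp : χ p (D.α r p) = -1) (hβr : D.β r = 1)
    (hαsp : χ p (D.α s p) = 1) (hβs : D.β s = 1) (hαsr : χ r (D.α s r) = -1)
    (hI : D.Img 1 (insert r {s}) f) : D.Img 1 (insert p {r}) f := by
  obtain ⟨gp, ζ, hgp, hgp', hζD, hζ⟩ := zeta_exists hfree h hf hty
  have hz0 := (pair_z hfree h hf hty hev hgp hgp' hζD hζ ha hac hoddA hnrA).mp hIa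
  obtain ⟨g0, hg0, hg0'⟩ := hI
  have hrsS : (insert r {s} : Finset ι) ⊆ S0 := by
    intro x hx
    rw [mem_insert, mem_singleton] at hx
    rcases hx with rfl | rfl
    · exact hr
    · exact hs
  have hrS : ({r} : Finset ι) ⊆ insert r {s} := by
    intro x hx
    rw [mem_singleton] at hx
    rw [hx]; exact mem_insert_self _ _
  have hp_rs : p ∉ (insert r {s} : Finset ι) := fun h' => h.hp (hrsS h')
  have hpr : p ∉ ({r} : Finset ι) := fun h' => hp_rs (hrS h')
  have hMain : MainP D χ (insert r ∅) (insert r (insert s ∅)) := by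
    refine step hfree (Subset.refl ∅) (notMem_empty _) (notMem_empty _) hrs hrc hsc ?_ ?_ ?_ ?_ ?_
      hαsr hβs 1 ?_ hβr ?_
    · intro j hj; exact absurd hj (notMem_empty _)
    · intro j hj; exact absurd hj (notMem_empty _)
    · intro j hj; exact absurd hj (notMem_empty _)
    · intro j hj; exact absurd hj (notMem_empty _)
    · intro j hj; exact absurd hj (notMem_empty _)
    · intro j hj; exact absurd hj (notMem_empty _)
    · intro θ hθ f hf hty hsm
      exact base_case hfree (T := ∅) (fun i hi => absurd hi (notMem_empty _))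
        (fun i hi => absurd hi (notMem_empty _)) hθ hf hty hsm
  rw [img_iff hfree hpr (by norm_num) (hg0.mono hrS) (hg0'.mono hrS) (hgp.mono (hrS.trans hrsS))
    (hgp'.mono (hrS.trans hrsS))]
  have hDD : D.IsD (insert r {s}) (dlt p g0 gp) := dlt_isD hg0 (hgp.mono hrsS)
  have hTT : D.Ty (-1) (insert r {s}) (dlt p g0 gp) :=
    dlt_ty hp_rs (by norm_num) (hf.mono (insert_subset_insert _ (hrsS.trans (subset_insert _ _))))
      hg0' (hgp'.mono hrsS)
  refine hMain (-1) (by norm_num) _ hDD hTT (small_img (by norm_num) hDD hTT ?_)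
  intro z hz
  have hnm : ∀ i, ¬ i = r → ¬ i = s → i ∉ (insert r (insert s ∅) : Finset ι) := by
    intro i h1 h2; simp [h1, h2]
  have hsm : sm χ (dlt p g0 gp) z = sm χ (fun x => D.nrm p (gp x)) z -
      (sm χ g0 ((D.small χ).act (mg χ (D.α p)) z) -
        sm χ g0 ((D.small χ).act (mg χ (D.β p)) z)) := by
    unfold dlt
    rw [sm_sub, sm_sub, sm_T, sm_T, Pi.sub_apply, Pi.sub_apply, T_triv (triv_int _),
      T_triv (triv_int _)]
  have hpar : ∀ b : (D.small χ).GG,
      2 ∣ sm χ g0 ((D.small χ).act b z) - sm χ g0 z := fun b =>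
    par (sm_isD hg0) _ z hz le_rfl b
  have h2 := hpar (mg χ (D.α p))
  have h3 := hpar (mg χ (D.β p))
  have hzS : (D.small χ).Supp S0 z := hz.mono hrsS
  have h1 := par_formula h hev hζ hzS 1
  suffices h4 : 2 ∣ sm χ (ns χ p 1 ζ) z + sm χ (ns χ p 1 ζ) ((D.small χ).act (D.small χ).c z) by
    rw [hsm]; omega
  have hcz : ∀ i, (D.small χ).act (D.small χ).c z i =
      if i = s then (z s).map (fun u => -u) else z i := by
    intro i
    by_cases his : i = s
    · subst his
      rw [if_pos rfl]
      unfold act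
      change (z i).map (fun u => χ i (D.c i) * u) = _
      rw [hsc]
      congr 1
      funext u; rw [neg_one_mul]
    · rw [if_neg his]
      cases hzi : z i with
      | none => exact act_apply_none hzi
      | some u =>
        rw [act_apply_some hzi]
        have hir : i = r := by
          by_contra hir
          rw [hz i (hnm i hir his)] at hzi
          cases hzi
        subst hir
        change some (χ i (D.c i) * u) = some u
        rw [hrc, one_mul]
  cases hzs : z s with
  | none =>
    have : (D.small χ).act (D.small χ).c z = z := by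
      funext i
      rw [hcz]
      by_cases his : i = s
      · subst his; rw [if_pos rfl, hzs]; rfl
      · rw [if_neg his]
    rw [this]
    omega
  | some δ =>
    set z' := Function.update z s none with hz'
    have hz's : z' s = none := Function.update_self ..
    have hz'S : (D.small χ).Supp S0 z' := hzS.update hs _
    have e1 : z = Function.update z' s (some δ) := by
      rw [hz', Function.update_idem, ← hzs, Function.update_eq_self]
    have e2 : (D.small χ).act (D.small χ).c z = Function.update z' s (some (-δ)) := by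
      funext i
      rw [hcz]
      by_cases his : i = s
      · subst his; rw [if_pos rfl, hzs, Function.update_self]; rfl
      · rw [if_neg his, Function.update_of_ne his, hz', Function.update_of_ne his]
    rw [e2]
    conv => rhs; lhs; rw [e1]
    rw [rel_ns hs hζD hz'S hz's 1 δ, hαsp, one_mul]
    have e3 : (D.small χ).act (mg χ (D.β s)) z' = z' := by
      apply act_eq_self
      intro i _
      change χ i (D.β s i) = 1
      rw [hβs, Pi.one_apply, map_one]
    have e4 : χ p (D.β s p) * 1 = 1 := by rw [hβs, Pi.one_apply, map_one, mul_one]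
    rw [e3, e4]
    have hz'r : z' = Function.update (D.small χ).O r (z r) := by
      funext i
      by_cases hir : i = r
      · subst hir
        rw [Function.update_self, hz', Function.update_of_ne hrs]
      · rw [Function.update_of_ne hir, hz']
        by_cases his : i = s
        · subst his; rw [Function.update_self]; rfl
        · rw [Function.update_of_ne his]
          exact hz i (hnm i hir his)
    cases hzr : z r with
    | none =>
      rw [hzr] at hz'r
      have : Function.update (D.small χ).O r none = (D.small χ).O :=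
        Function.update_eq_self r (D.small χ).O
      rw [this] at hz'r
      rw [hz'r, act_O, sub_self]
      exact dvd_zero _
    | some δ' =>
      rw [hzr] at hz'r
      have e5 : (D.small χ).act (mg χ (D.α s)) z' = Function.update (D.small χ).O r (some (-δ')) := by
        rw [hz'r, act_update_some, act_O]
        have : mg χ (D.α s) r * δ' = -δ' := by
          change χ r (D.α s r) * δ' = -δ'
          rw [hαsr, neg_one_mul]
        rw [this]
      rw [e5, hz'r]
      have h5 := rel_z0 hr hζD (by rw [hαrp, hβr, Pi.one_apply, map_one, mul_one]) 1 δ'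
      omega

end Dat

end Pool.Agent.N993
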