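import Pool.Agent.N993.Good
import Pool.Agent.Y2.Cv.Certs

/-!
The certificates for 5, 13 and 17.
-/

namespace Pool.Agent.N993

open Finset Pool.Agent.H916R2 Pool.Agent.N992 Pool.Agent.Y2.Cv

lemma good_of_fullP {T : Finset ℕ} {l m0 : ℕ} [NeZero m0] [NeZero (l * m0)] (hl : l ≠ 0)
    (hT : ∏ x ∈ T, x = m0) (h : FullP (l * m0) (FourBase (l * m0))) : Good T := by
  classical
  refine good_of_level hl ?_
  intro N mT _ _ hmT hN Q _ c hc hk x hx
  have hm : m0 = mT := hT.symm.trans hmT
  subst hm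
  subst hN
  set x' : ZMod (l * m0) → ℤ := fun a => ∑ b : ZMod m0, if (iota l b : ZMod (l * m0)) = a then x b else 0
    with hx'
  have hsum : ∀ {A : Type} [AddCommGroup A] (F : ZMod (l * m0) → A),
      ∑ a, x' a • F a = ∑ b, x b • F (iota l b) := by
    intro A _ F
    simp only [hx', sum_smul]
    rw [sum_comm]
    refine sum_congr rfl fun b _ => ?_
    rw [sum_eq_single (iota l b : ZMod (l * m0))]
    · rw [if_pos rfl]
    · intro a _ ha
      rw [if_neg (Ne.symm ha), zero_smul]
    · intro h; exact absurd (mem_univ _) h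
  rw [← hsum]
  apply h Q c hc hk
  intro t
  have h1 := hsum (fun a => saw ((t : ZMod (l * m0)) * a))
  simp only [smul_eq_mul] at h1
  rw [h1]
  have h2 : ∀ b : ZMod m0, saw ((t : ZMod (l * m0)) * iota l b) =
      (l : ℤ) * saw (((ZMod.unitsMap (Dvd.intro_left l rfl : m0 ∣ l * m0) t : (ZMod m0)ˣ) : ZMod m0) * b) := by
    intro b
    rw [unit_iota rfl, saw_iota rfl]
  simp only [h2]
  have h3 := hx (ZMod.unitsMap (Dvd.intro_left l rfl : m0 ∣ l * m0) t)
  have h4 : ∀ b : ZMod m0, x b * ((l : ℤ) *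
      saw (((ZMod.unitsMap (Dvd.intro_left l rfl : m0 ∣ l * m0) t : (ZMod m0)ˣ) : ZMod m0) * b)) =
      (l : ℤ) * (x b *
      saw (((ZMod.unitsMap (Dvd.intro_left l rfl : m0 ∣ l * m0) t : (ZMod m0)ˣ) : ZMod m0) * b)) := by
    intro b; ring
  simp only [h4]
  rw [← mul_sum, h3, mul_zero]

lemma FullP.fourBase {m : ℕ} [NeZero m] (h : FullP m (SurfaceOrCurveProduct m)) :
    FullP m (FourBase m) := fun Q _ c hc hk =>
  h Q c hc fun s hs => hk s (Or.inl hs)

theorem good_5_3 : Good {5, 3} := by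
  have : NeZero (1 * 15) := ⟨by norm_num⟩
  refine good_of_fullP (l := 1) (m0 := 15) one_ne_zero (by decide) ?_
  exact FullP.fourBase (FullP.of_full (fun s hs => Or.inl hs) full_15)

theorem good_13_4 : Good {13, 4} := by
  have : NeZero (1 * 52) := ⟨by norm_num⟩
  refine good_of_fullP (l := 1) (m0 := 52) one_ne_zero (by decide) ?_
  exact FullP.fourBase full_52

theorem good_17_3 : Good {17, 3} := by
  have : NeZero (2 * 51) := ⟨by norm_num⟩
  refine good_of_fullP (l := 2) (m0 := 51) two_ne_zero (by decide) ?_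
  exact FullP.fourBase full_102

end Pool.Agent.N993
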