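import Pool.Agent.N993.NonRes
import Pool.Agent.N993.Cert

/-!
Hodge characters of the degrees with at most three primes.
-/

set_option linter.unusedSectionVars false

namespace Pool.Agent.N993

open Finset Pool.Agent.H916R2 Pool.Agent.N992 Pool.Agent.N998

/-- All odd prime factors of `m` other than `p` are squares modulo `p`, and so is 2 if `4` divides `m`
(for primes `p` congruent to 1 modulo 4). -/
def SeesSquares (m p : ℕ) : Prop :=
  (∀ q : ℕ, q.Prime → q ∣ m → q ≠ 2 → q ≠ p → IsSquare (q : ZMod p)) ∧ (4 ∣ m → p % 8 = 1)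

/-- There are at most three odd prime factors, at most two if `4` divides `m`, and every prime factor
congruent to 1 modulo 4 sees only squares or is 5, 13 or 17. -/
def ThreePrimes (m : ℕ) : Prop :=
  (m.primeFactors.erase 2).card + (if 4 ∣ m then 1 else 0) ≤ 3 ∧
    ∀ p : ℕ, p.Prime → p ∣ m → p % 4 = 1 → SeesSquares m p ∨ p = 5 ∨ p = 13 ∨ p = 17

/-- The condition on the sets of odd primes and possibly 4. -/
structure SmallSet (S : Finset ℕ) : Prop where
  adm : ∀ x ∈ S, (x.Prime ∧ x % 2 = 1) ∨ x = 4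
  sq : ∀ p ∈ S, p % 4 = 1 → ((∀ j ∈ S, j ≠ p → IsSquare ((j : ℕ) : ZMod p)) ∧
      (4 ∈ S → IsSquare ((2 : ℕ) : ZMod p))) ∨ p = 5 ∨ p = 13 ∨ p = 17

lemma SmallSet.mono {S T : Finset ℕ} (h : SmallSet S) (hT : T ⊆ S) : SmallSet T where
  adm := fun x hx => h.adm x (hT hx)
  sq := fun p hp hp4 => by
    rcases h.sq p (hT hp) hp4 with h1 | h1
    · left
      exact ⟨fun j hj => h1.1 j (hT hj), fun h4 => h1.2 (hT h4)⟩
    · right; exact h1

lemma isSquare_four (p : ℕ) : IsSquare ((4 : ℕ) : ZMod p) := ⟨2, by push_cast; norm_num⟩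

/-- the pairs with a nonresidue congruent to 3 modulo 4, or 4 -/
lemma good_nr {p a : ℕ} (hp : p = 5 ∨ p = 13 ∨ p = 17) (ha : Three a) (hna : NR p a) :
    Good {p, a} := by
  have h3 : Three 3 := Or.inl ⟨by norm_num, by norm_num⟩
  have h4 : Three 4 := Or.inr rfl
  rcases hp with rfl | rfl | rfl
  · refine good_pair_transfer (b := 3) (by norm_num) (by norm_num) ha h3 hna ?_ good_5_3
    unfold NR; rw [if_neg (by norm_num)]; decide
  · refine good_pair_transfer (b := 4) (by norm_num) (by norm_num) ha h4 hna ?_ good_13_4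
    unfold NR; rw [if_pos rfl]; decide
  · refine good_pair_transfer (b := 3) (by norm_num) (by norm_num) ha h3 hna ?_ good_17_3
    unfold NR; rw [if_neg (by norm_num)]; decide

/-- one nonresidue for each of the three primes -/
lemma exists_nr {p : ℕ} (hp : p = 5 ∨ p = 13 ∨ p = 17) : ∃ a, Three a ∧ NR p a := by
  rcases hp with rfl | rfl | rfl
  · refine ⟨3, Or.inl ⟨by norm_num, by norm_num⟩, ?_⟩
    unfold NR; rw [if_neg (by norm_num)]; decide
  · refine ⟨4, Or.inr rfl, ?_⟩
    unfold NR; rw [if_pos rfl]; decide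
  · refine ⟨3, Or.inl ⟨by norm_num, by norm_num⟩, ?_⟩
    unfold NR; rw [if_neg (by norm_num)]; decide

lemma good_pair_mixed {p a : ℕ} (hp : p.Prime) (hp4 : p % 4 = 1) (ha : Three a)
    (h : SmallSet {p, a}) : Good {p, a} := by
  have hpa : p ≠ a := by rintro rfl; exact ha.mod hp4
  by_cases hna : NR p a
  · refine good_nr ?_ ha hna
    rcases h.sq p (mem_insert_self _ _) hp4 with h1 | h1
    · exfalso
      unfold NR at hna
      by_cases h4 : a = 4
      · rw [if_pos h4] at hna
        exact hna (h1.2 (by rw [← h4]; exact mem_insert_of_mem (mem_singleton_self _)))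
      · rw [if_neg h4] at hna
        exact hna (h1.1 a (mem_insert_of_mem (mem_singleton_self _)) hpa.symm)
    · exact h1
  · unfold NR at hna
    rw [not_not] at hna
    refine good_of_squares h.adm ?_
    intro p' hp' hp4'
    have hpp : p' = p := by
      rw [mem_insert, mem_singleton] at hp'
      rcases hp' with h1 | h1
      · exact h1
      · exact absurd hp4' (h1 ▸ ha.mod)
    subst hpp
    refine ⟨fun j hj hjp => ?_, fun h4 => ?_⟩
    · rw [mem_insert, mem_singleton] at hj
      rcases hj with h1 | h1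
      · exact absurd h1 hjp
      · subst h1
        by_cases h4 : j = 4
        · rw [h4]; exact isSquare_four _
        · rwa [if_neg h4] at hna
    · rw [mem_insert, mem_singleton] at h4
      rcases h4 with h1 | h1
      · omega
      · rwa [if_pos h1.symm] at hna

lemma good_pair_ones {p r : ℕ} (hp : p.Prime) (hp4 : p % 4 = 1) (hr : r.Prime) (hr4 : r % 4 = 1)
    (hpr : p ≠ r) (h : SmallSet {p, r}) : Good {p, r} := by
  have : Fact p.Prime := ⟨hp⟩
  have : Fact r.Prime := ⟨hr⟩
  have hrec : IsSquare ((r : ℕ) : ZMod p) ↔ IsSquare ((p : ℕ) : ZMod r) :=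
    ZMod.exists_sq_eq_prime_iff_of_mod_four_eq_one hp4 (by omega)
  by_cases hsq : IsSquare ((r : ℕ) : ZMod p)
  · refine good_of_squares h.adm ?_
    intro p' hp' _
    refine ⟨fun j hj hjp => ?_, fun h4 => ?_⟩
    · rw [mem_insert, mem_singleton] at hp' hj
      rcases hp' with h1 | h1 <;> rcases hj with h2 | h2
      · exact absurd (h2.trans h1.symm) hjp
      · rw [h1, h2]; exact hsq
      · rw [h1, h2]; exact hrec.mp hsq
      · exact absurd (h2.trans h1.symm) hjp
    · rw [mem_insert, mem_singleton] at h4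
      omega
  · have h1 : p = 5 ∨ p = 13 ∨ p = 17 := by
      rcases h.sq p (mem_insert_self _ _) hp4 with h1 | h1
      · exact absurd (h1.1 r (mem_insert_of_mem (mem_singleton_self _)) hpr.symm) hsq
      · exact h1
    have h2 : r = 5 ∨ r = 13 ∨ r = 17 := by
      rcases h.sq r (mem_insert_of_mem (mem_singleton_self _)) hr4 with h1 | h1
      · exact absurd (hrec.mpr (h1.1 p (mem_insert_self _ _) hpr)) hsq
      · exact h1
    obtain ⟨a, ha, hna⟩ := exists_nr h1
    obtain ⟨b, hb, hnb⟩ := exists_nr h2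
    exact good_two_primes hp hp4 hr hr4 hpr hsq ha hna (good_nr h1 ha hna) hb hnb
      (good_nr h2 hb hnb)

lemma good_pair {x y : ℕ} (hxy : x ≠ y) (h : SmallSet {x, y}) : Good {x, y} := by
  have hx := h.adm x (mem_insert_self _ _)
  have hy := h.adm y (mem_insert_of_mem (mem_singleton_self _))
  have key : ∀ {z : ℕ}, (z.Prime ∧ z % 2 = 1) ∨ z = 4 → (z.Prime ∧ z % 4 = 1) ∨ Three z := by
    intro z hz
    rcases hz with hz | hz
    · by_cases h1 : z % 4 = 1
      · left; exact ⟨hz.1, h1⟩
      · right; left; exact ⟨hz.1, by omega⟩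
    · right; right; exact hz
  rcases key hx with hx1 | hx1 <;> rcases key hy with hy1 | hy1
  · exact good_pair_ones hx1.1 hx1.2 hy1.1 hy1.2 hxy h
  · exact good_pair_mixed hx1.1 hx1.2 hy1 h
  · rw [pair_comm] at h ⊢
    exact good_pair_mixed hy1.1 hy1.2 hx1 h
  · refine good_of_squares h.adm ?_
    intro p hp hp4
    rw [mem_insert, mem_singleton] at hp
    rcases hp with rfl | rfl
    · exact absurd hp4 hx1.mod
    · exact absurd hp4 hy1.mod

theorem good_three {S : Finset ℕ} (hcard : S.card ≤ 3) (h : SmallSet S) : Good S := by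
  refine good_of_even h.adm fun T hT heven => ?_
  have hTc : T.card ≤ 3 := (card_le_card hT).trans hcard
  have h2 : T.card = 0 ∨ T.card = 2 := by
    obtain ⟨r, hr⟩ := heven
    omega
  rcases h2 with h2 | h2
  · rw [card_eq_zero] at h2
    subst h2
    exact good_of_squares (fun x hx => absurd hx (notMem_empty _))
      (fun x hx => absurd hx (notMem_empty _))
  · obtain ⟨x, y, hxy, rfl⟩ := card_eq_two.mp h2
    exact good_pair hxy (h.mono hT)

/-- The transfer to the full level. -/
theorem transferF {m m0 k : ℕ} [NeZero m] [NeZero m0] (hk : k * m0 = m) (hred : Red m m0 k)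
    {S : Finset ℕ} (hS : ∏ x ∈ S, x = m0) (hgood : Good S) :
    ∃ l : ℕ, ∃ _ : NeZero (l * m), ∀ s : Multiset (ZMod m), IsHodge m s → s ≠ 0 →
      Generated (l * m) (FourBase (l * m)) (s.map (iota l : ZMod m → ZMod (l * m))) := by
  obtain ⟨l, hl0, hgood⟩ := hgood
  have hlm : NeZero (l * m) := ⟨Nat.mul_ne_zero hl0 (NeZero.ne m)⟩
  refine ⟨l, hlm, fun s hs hne => ?_⟩
  have hkN : k * (l * m0) = l * m := by rw [← hk]; ring
  set c := cQ (l * m) (FourBase (l * m)) with hc
  have hcD : OddDist c := cQ_oddDist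
  have hsl : IsHodge (l * m) (s.map (iota l : ZMod m → ZMod (l * m))) := hs.iota rfl
  obtain ⟨x0, hx0, he⟩ := hred _ (fun b : ZMod m => c (iota l b)) (hcD.comp_iota rfl) _ hs.rel
  have h1 : ∀ b : ZMod m0, c (iota l (iota k b : ZMod m)) = c (iota (k * l) b) := by
    intro b
    rw [iota_comp rfl, mul_comm l k]
  simp only [h1] at he
  have h2 := hgood k (l * m) m0 hS hkN _ c hcD (by
    intro s0 hs0
    have h3 := cQ_sum_eq_zero (Generated.ofBase (m := l * m) (base := FourBase (l * m)) s0 hs0)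
    exact h3) x0 hx0
  rw [h2, sum_count] at he
  have h4 : ((s.map (iota l : ZMod m → ZMod (l * m))).map c).sum = 0 := by
    rw [Multiset.map_map]; exact he
  rw [hc, cQ_sum, QuotientAddGroup.eq_zero_iff] at h4
  refine generated_of_mem_LL ?_ ?_ hsl.1 hsl.2.1 ?_ h4
  · rintro s (hs | hs)
    · exact Pool.Agent.Y2.Cv.base_good s hs
    · exact ⟨hs.1.1, hs.1.2.1⟩
  · rintro s (hs | hs)
    · exact Or.inl (Pool.Agent.Y2.Cv.base_neg s hs)
    · exact Or.inr hs.neg
  · intro h5
    exact hne (Multiset.map_eq_zero.mp h5)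

lemma Generated.mono {m : ℕ} {B B' : Multiset (ZMod m) → Prop} (hB : ∀ s, B s → B' s)
    {s : Multiset (ZMod m)} (h : Generated m B s) : Generated m B' s := by
  induction h with
  | ofBase s hs => exact Generated.ofBase s (hB s hs)
  | pair a ha => exact Generated.pair a ha
  | standard p hp hp2 hpm a ha => exact Generated.standard p hp hp2 hpm a ha
  | standardTwo hm a ha => exact Generated.standardTwo hm a ha
  | join s t _ _ h1 h2 => exact Generated.join s t h1 h2
  | cancel a s _ h1 => exact Generated.cancel a s h1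

lemma smallDegree : ∀ m ∈ range 87, (m.primeFactors.erase 2).card + (if 4 ∣ m then 1 else 0) ≤ 3 := by
  decide +kernel

lemma threePrimes_of_le {m : ℕ} (hm0 : m ≠ 0) (hm : m ≤ 86) : ThreePrimes m := by
  refine ⟨smallDegree m (mem_range.mpr (by omega)), ?_⟩
  intro p hp hpm hp4
  by_cases h29 : p < 29
  · right
    have h5 : 5 ≤ p := by
      have := hp.two_le
      by_contra h
      have : p = 1 := by omega
      omega
    interval_cases p <;> first | omega | (exact absurd hp (by norm_num))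
  · left
    obtain ⟨k, hk⟩ := hpm
    have hk2 : k ≤ 2 := by
      by_contra h
      have h3 : 3 ≤ k := by omega
      have h4 : 29 * 3 ≤ p * k := Nat.mul_le_mul (by omega) h3
      omega
    have hk0 : k ≠ 0 := by rintro rfl; rw [mul_zero] at hk; exact hm0 hk
    refine ⟨?_, ?_⟩
    · intro q hq hqm hq2 hqp
      exfalso
      rw [hk] at hqm
      rcases (Nat.Prime.dvd_mul hq).mp hqm with h | h
      · exact hqp ((Nat.prime_dvd_prime_iff_eq hq hp).mp h)
      · have h1 := Nat.le_of_dvd (Nat.pos_of_ne_zero hk0) h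
        have h2 := hq.two_le
        omega
    · intro h4
      exfalso
      rw [hk] at h4
      have h5 : k = 1 ∨ k = 2 := by omega
      rcases h5 with h5 | h5 <;> subst h5 <;> omega

theorem main3 (m : ℕ) [NeZero m] (hm : ThreePrimes m) :
    ∃ l : ℕ, ∃ _ : NeZero (l * m), ∀ s : Multiset (ZMod m), IsHodge m s → s ≠ 0 →
      Generated (l * m) (FourBase (l * m))
        (s.map (fun a => ((l * a.val : ℕ) : ZMod (l * m)))) := by
  classical
  have hm0 : m ≠ 0 := NeZero.ne m
  obtain ⟨hcard, hm⟩ := hm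
  set P := m.primeFactors.erase 2 with hP
  have hPp : ∀ x ∈ P, x.Prime ∧ x % 2 = 1 ∧ x ∣ m := by
    intro x hx
    have h1 := Nat.prime_of_mem_primeFactors (mem_of_mem_erase hx)
    refine ⟨h1, ?_, Nat.dvd_of_mem_primeFactors (mem_of_mem_erase hx)⟩
    rcases h1.eq_two_or_odd with h | h
    · exact absurd h (ne_of_mem_erase hx)
    · exact h
  have hPmem : ∀ p, p.Prime → p ∣ m → p ≠ 2 → p ∈ P := fun p hp hpm h2 =>
    mem_erase.mpr ⟨h2, Nat.mem_primeFactors.mpr ⟨hp, hpm, hm0⟩⟩
  have h4P : 4 ∉ P := fun h => absurd (hPp 4 h).1 (by norm_num)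
  have hdvdP : ∏ x ∈ P, x ∣ m := by
    apply Finset.prod_dvd_of_isRelPrime
    · intro a ha b hb hab
      exact Nat.coprime_iff_isRelPrime.mp
        ((Nat.coprime_primes (hPp a ha).1 (hPp b hb).1).mpr hab)
    · intro x hx; exact (hPp x hx).2.2
  have hoddP : (∏ x ∈ P, x) % 2 = 1 := by
    rw [← Nat.odd_iff]
    refine Finset.prod_induction _ Odd (fun a b => Odd.mul) odd_one fun x hx => ?_
    exact Nat.odd_iff.mpr (hPp x hx).2.1
  have hP0 : ∏ x ∈ P, x ≠ 0 := by omega
  have hprimes : ∀ p, p.Prime → p ∣ m → p ≠ 2 → p ∣ ∏ x ∈ P, x := fun p hp hpm h2 =>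
    dvd_prod_of_mem (fun x => x) (hPmem p hp hpm h2)
  by_cases h4 : 4 ∣ m
  · rw [if_pos h4] at hcard
    have hm0' : ∏ x ∈ insert 4 P, x = 4 * ∏ x ∈ P, x := prod_insert h4P
    have hNZ : NeZero (∏ x ∈ insert 4 P, x) := ⟨by rw [hm0']; omega⟩
    have hcop : Nat.Coprime 4 (∏ x ∈ P, x) := by
      have : Nat.Coprime (2 ^ 2) (∏ x ∈ P, x) := by
        apply Nat.Coprime.pow_left
        rw [Nat.coprime_two_left]; exact Nat.odd_iff.mpr hoddP
      exact this
    have hdvd : ∏ x ∈ insert 4 P, x ∣ m := by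
      rw [hm0']; exact hcop.mul_dvd_of_dvd_of_dvd h4 hdvdP
    obtain ⟨k, hk⟩ := hdvd
    have hk' : k * ∏ x ∈ insert 4 P, x = m := (mul_comm _ _).trans hk.symm
    refine transferF hk' (red_exists _ m _ k rfl hk' ?_ ?_) (S := insert 4 P) rfl
      (good_three ?_ ⟨?_, ?_⟩)
    · intro p hp hpm
      by_cases h2 : p = 2
      · rw [h2, hm0']
        exact Dvd.dvd.mul_right (by norm_num) _
      · rw [hm0']; exact (hprimes p hp hpm h2).mul_left 4
    · intro _; rw [hm0']; exact dvd_mul_right 4 _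
    · rw [card_insert_of_notMem h4P]; exact hcard
    · intro x hx
      rcases mem_insert.mp hx with h | h
      · right; exact h
      · left; exact ⟨(hPp x h).1, (hPp x h).2.1⟩
    · intro p hp hp4
      have hpP : p ∈ P := by
        rcases mem_insert.mp hp with h | h
        · omega
        · exact h
      rcases hm p (hPp p hpP).1 (hPp p hpP).2.2 hp4 with ⟨h1, h2⟩ | h1
      · left
        have hpF : Fact p.Prime := ⟨(hPp p hpP).1⟩
        have hs2 : IsSquare ((2 : ℕ) : ZMod p) := by
          have h3 := (ZMod.exists_sq_eq_two_iff (p := p) (by rintro rfl; omega)).mpr (Or.inl (h2 h4))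
          exact_mod_cast h3
        refine ⟨fun j hj hjp => ?_, fun _ => hs2⟩
        rcases mem_insert.mp hj with h | h
        · rw [h]; exact isSquare_four p
        · exact h1 j (hPp j h).1 (hPp j h).2.2 (ne_of_mem_erase h) hjp
      · right; exact h1
  · rw [if_neg h4] at hcard
    have hgood : Good P := by
      refine good_three (by omega) ⟨fun x h => Or.inl ⟨(hPp x h).1, (hPp x h).2.1⟩, ?_⟩
      intro p hp hp4
      rcases hm p (hPp p hp).1 (hPp p hp).2.2 hp4 with ⟨h1, h2⟩ | h1
      · left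
        exact ⟨fun j hj hjp => h1 j (hPp j hj).1 (hPp j hj).2.2 (ne_of_mem_erase hj) hjp,
          fun h => absurd h h4P⟩
      · right; exact h1
    have hNZ : NeZero (∏ x ∈ P, x) := ⟨hP0⟩
    by_cases h2 : 2 ∣ m
    · have h2N : 2 * ∏ x ∈ P, x ∣ m := by
        apply Nat.Coprime.mul_dvd_of_dvd_of_dvd _ h2 hdvdP
        rw [Nat.coprime_two_left]; exact Nat.odd_iff.mpr hoddP
      obtain ⟨k, hk⟩ := h2N
      have hNZ2 : NeZero (2 * ∏ x ∈ P, x) := ⟨Nat.mul_ne_zero two_ne_zero hP0⟩
      have hk' : k * (2 * ∏ x ∈ P, x) = m := (mul_comm _ _).trans hk.symm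
      have hr1 : Red m (2 * ∏ x ∈ P, x) k := by
        refine red_exists _ m _ k rfl hk' ?_ (fun h => absurd h h4)
        intro p hp hpm
        by_cases hp2 : p = 2
        · rw [hp2]; exact dvd_mul_right 2 _
        · exact (hprimes p hp hpm hp2).mul_left 2
      have hr2 : Red m (∏ x ∈ P, x) (k * 2) := Red.trans hk' hr1 (red_two hoddP)
      exact transferF ((mul_assoc _ _ _).trans hk') hr2 rfl hgood
    · obtain ⟨k, hk⟩ := hdvdP
      have hk' : k * ∏ x ∈ P, x = m := (mul_comm _ _).trans hk.symm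
      refine transferF hk'
        (red_exists _ m _ k rfl hk' ?_ (fun h => absurd h h4)) rfl hgood
      intro p hp hpm
      exact hprimes p hp hpm (fun h => h2 (h ▸ hpm))

/-- The final theorem. -/
theorem mainT (m : ℕ) [NeZero m] (hm : MutualSquares m ∨ ThreePrimes m ∨ m ≤ 86) :
    ∃ l : ℕ, ∃ _ : NeZero (l * m), ((∀ p : ℕ, p.Prime → p ∣ m → p % 4 ≠ 1) → l = 1) ∧
      ∀ s : Multiset (ZMod m), IsHodge m s → s ≠ 0 →
      Generated (l * m) (FourBase (l * m))
        (s.map (fun a => ((l * a.val : ℕ) : ZMod (l * m)))) := by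
  by_cases h : MutualSquares m
  · obtain ⟨l, hl, h1, h2⟩ := main m h
    exact ⟨l, hl, h1, fun s hs hne => Generated.mono (fun _ h => Or.inr h) (h2 s hs hne)⟩
  · have h3 : ThreePrimes m := by
      rcases hm with hm | hm | hm
      · exact absurd hm h
      · exact hm
      · exact threePrimes_of_le (NeZero.ne m) hm
    obtain ⟨l, hl, h2⟩ := main3 m h3
    refine ⟨l, hl, fun h1 => ?_, h2⟩
    exact absurd (fun p hp hpm hp4 => absurd hp4 (h1 p hp hpm)) h

end Pool.Agent.N993
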