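import Pool.Agent.N993.Sys
import Pool.Agent.N992.Kill

/-!
The data attached to a family `n i` of pairwise coprime numbers, each an odd prime or 4.
-/

set_option linter.unusedSectionVars false

namespace Pool.Agent.N993

open Finset Pool.Agent.H916R2

/-- Every `n i` is an odd prime or 4. -/
def Adm' {ι : Type} (n : ι → ℕ) : Prop := ∀ i, ((n i).Prime ∧ n i % 2 = 1) ∨ n i = 4

/-- `k` as a unit modulo `m` (1 if it is no unit) -/
def unOf (k m : ℕ) : (ZMod m)ˣ := if h : k.Coprime m then ZMod.unitOfCoprime k h else 1

lemma unOf_val {k m : ℕ} (h : k.Coprime m) : ((unOf k m : (ZMod m)ˣ) : ZMod m) = k := by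
  unfold unOf; rw [dif_pos h]; rfl

/-- the data -/
@[reducible] def cyc {ι : Type} (n : ι → ℕ) [∀ i, NeZero (n i)] : Dat ι where
  G i := (ZMod (n i))ˣ
  grp i := inferInstance
  fin i := inferInstance
  deq i := inferInstance
  α i j := unOf (n i) (n j)
  β i j := if n i = 4 then unOf 2 (n j) else 1
  c i := -1
  hc i := by rw [neg_mul_neg, one_mul]

section

variable {ι : Type} [Fintype ι] [DecidableEq ι] {n : ι → ℕ} [∀ i, NeZero (n i)]

/-- the embedding of the points -/
def emb (x : (cyc n).Pt) : ∀ i, ZMod (n i) := fun i =>
  match x i with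
  | none => 0
  | some u => Units.val (α := ZMod (n i)) u

/-- the point of an element of the product (the element 2 modulo 4 is treated as zero) -/
noncomputable def pt (a : ∀ i, ZMod (n i)) : (cyc n).Pt := fun i => by
  classical exact if h : IsUnit (a i) then some h.unit else none

/-- the extension of a system to the whole product -/
noncomputable def ext {Q : Type} [AddCommGroup Q] (f : (cyc n).Pt → Q) (a : ∀ i, ZMod (n i)) : Q := by
  classical exact (if h : ∃ i, n i = 4 ∧ a i = 2 then
    (f ((cyc n).act ((cyc n).β h.choose) (pt a)) - f (pt a)) else f (pt a))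

end

end Pool.Agent.N993
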