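import Pool.Agent.N993.Par

/-!
The base case: all kernels of the characters have odd order.
-/

set_option linter.unusedSectionVars false

namespace Pool.Agent.N993

open Finset

namespace Dat

variable {ι : Type} [DecidableEq ι] [Fintype ι] {D : Dat ι} (χ : ∀ i, D.G i →* ℤˣ)

/-- the kernel of the character with index `i` -/
def Kr (i : ι) : Finset (D.G i) := univ.filter (fun u => χ i u = 1)

/-- the product of the kernels over `T` -/
def KT (T : Finset ι) : Finset D.GG := Fintype.piFinset (fun i => if i ∈ T then Kr χ i else {1})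

/-- pull back from the small system -/
def pb (T : Finset ι) (g : (D.small χ).Pt → ℤ) : D.Pt → ℤ := fun x =>
  (∏ i ∈ T.filter (fun i => x i = none), ((Kr χ i).card : ℤ)) * g (mp χ x)

variable {χ}

lemma mem_KT {T : Finset ι} {k : D.GG} :
    k ∈ KT χ T ↔ (∀ i ∈ T, χ i (k i) = 1) ∧ ∀ i ∉ T, k i = 1 := by
  unfold KT Kr
  rw [Fintype.mem_piFinset]
  constructor
  · intro h
    refine ⟨fun i hi => ?_, fun i hi => ?_⟩
    · have := h i; rw [if_pos hi] at this; exact (mem_filter.mp this).2
    · have := h i; rw [if_neg hi] at this; exact mem_singleton.mp this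
  · rintro ⟨h1, h2⟩ i
    by_cases hi : i ∈ T
    · rw [if_pos hi]; exact mem_filter.mpr ⟨mem_univ _, h1 i hi⟩
    · rw [if_neg hi]; exact mem_singleton.mpr (h2 i hi)

lemma sumK {T : Finset ι} (f : D.Pt → ℤ) {x : D.Pt} (hx : D.Supp T x) :
    ∑ k ∈ KT χ T, f (D.act k x) = pb χ T (sm χ f) x := by
  have hmaps : ∀ k ∈ KT χ T, D.act k x ∈ univ.filter (fun y => mp χ y = mp χ x) := by
    intro k hk
    rw [mem_filter]
    refine ⟨mem_univ _, ?_⟩
    rw [mem_KT] at hk
    rw [mp_act]
    apply act_eq_self
    intro i hi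
    by_cases hiT : i ∈ T
    · exact hk.1 i hiT
    · exact absurd (mp_none.mpr (hx i hiT)) hi
  rw [← sum_fiberwise_of_maps_to hmaps]
  unfold pb sm
  rw [mul_sum]
  refine sum_congr rfl fun y hy => ?_
  have hy2 := (mem_filter.mp hy).2
  have h1 : ∀ k ∈ (KT χ T).filter (fun k => D.act k x = y), f (D.act k x) = f y := fun k hk => by
    rw [(mem_filter.mp hk).2]
  rw [sum_congr rfl h1, sum_const, nsmul_eq_mul]
  congr 1
  -- the number of the elements
  have h2 : (KT χ T).filter (fun k => D.act k x = y) = Fintype.piFinset (fun i =>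
      (if i ∈ T then Kr χ i else {1}).filter (fun v => (x i).map (fun u => v * u) = y i)) := by
    ext k
    rw [mem_filter, Fintype.mem_piFinset]
    unfold KT
    rw [Fintype.mem_piFinset]
    constructor
    · rintro ⟨h, h'⟩ i
      rw [mem_filter]
      exact ⟨h i, congrFun h' i⟩
    · intro h
      exact ⟨fun i => (mem_filter.mp (h i)).1, funext fun i => (mem_filter.mp (h i)).2⟩
  rw [h2, Fintype.card_piFinset]
  push_cast
  rw [prod_filter]
  have h3 : ∀ i, ((((if i ∈ T then Kr χ i else {1}).filter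
      (fun v => (x i).map (fun u => v * u) = y i)).card : ℕ) : ℤ) =
      if i ∈ T ∧ x i = none then ((Kr χ i).card : ℤ) else 1 := by
    intro i
    have hyi : mp χ y i = mp χ x i := by rw [hy2]
    by_cases hiT : i ∈ T
    · rw [if_pos hiT]
      cases hxi : x i with
      | none =>
        have hyn : y i = none := by
          rw [← mp_none (χ := χ), hyi, mp_none]; exact hxi
        rw [if_pos ⟨hiT, rfl⟩, hyn]
        congr 2
        rw [filter_true_of_mem]
        intro v _; rfl
      | some u =>
        rw [if_neg (by simp)]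
        have : ∃ v, y i = some v ∧ χ i v = χ i u := by
          unfold mp at hyi
          rw [hxi] at hyi
          cases hyv : y i with
          | none => rw [hyv] at hyi; cases hyi
          | some v =>
            refine ⟨v, rfl, ?_⟩
            rw [hyv, Option.map_some, Option.map_some, Option.some_inj] at hyi
            exact hyi
        obtain ⟨v, hv, hχ⟩ := this
        have h4 : (Kr χ i).filter (fun w => (some u).map (fun u => w * u) = y i) = {v * u⁻¹} := by
          ext w
          rw [mem_filter, mem_singleton, hv, Option.map_some, Option.some_inj]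
          constructor
          · rintro ⟨_, h⟩; rw [← h, mul_assoc, mul_inv_cancel, mul_one]
          · rintro rfl
            refine ⟨mem_filter.mpr ⟨mem_univ _, ?_⟩, ?_⟩
            · rw [map_mul, hχ, ← map_mul, mul_inv_cancel, map_one]
            · rw [mul_assoc, inv_mul_cancel, mul_one]
        rw [h4, card_singleton, Nat.cast_one]
    · rw [if_neg hiT, if_neg (fun h => hiT h.1)]
      have hxi := hx i hiT
      have hyn : y i = none := by
        rw [← mp_none (χ := χ), hyi, mp_none]; exact hxi
      have h5 : ({1} : Finset (D.G i)).filter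
          (fun v => (none : Option (D.G i)).map (fun u => v * u) = none) = {1} :=
        filter_true_of_mem (fun _ _ => rfl)
      rw [hxi, hyn, h5, card_singleton, Nat.cast_one]
  rw [prod_congr rfl (fun i _ => h3 i)]
  symm
  rw [← prod_filter, ← prod_filter]
  congr 1
  ext i
  simp

lemma T_pb (T : Finset ι) (b : D.GG) (g : (D.small χ).Pt → ℤ) :
    D.T b (pb χ T g) = pb χ T ((D.small χ).T (mg χ b) g) := by
  funext x
  rw [T_triv (triv_int D)]
  unfold pb
  rw [T_triv (triv_int _), mp_act]
  congr 1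
  refine prod_congr ?_ (fun _ _ => rfl)
  exact filter_congr fun i _ => act_eq_none

lemma pb_add (T : Finset ι) (g k : (D.small χ).Pt → ℤ) : pb χ T (g + k) = pb χ T g + pb χ T k := by
  funext x; unfold pb; rw [Pi.add_apply, Pi.add_apply, mul_add]

lemma pb_zsmul (T : Finset ι) (n : ℤ) (g : (D.small χ).Pt → ℤ) :
    pb χ T (n • g) = n • pb χ T g := by
  funext x; unfold pb; rw [Pi.smul_apply, Pi.smul_apply, smul_eq_mul, smul_eq_mul]; ring

lemma pb_congr {T : Finset ι} {g k : (D.small χ).Pt → ℤ} (h : (D.small χ).EqS T g k) :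
    D.EqS T (pb χ T g) (pb χ T k) := fun x hx => by
  unfold pb; rw [h _ hx.mp]

lemma isD_pb {T : Finset ι} (hsurj : ∀ i ∈ T, ∃ u, χ i u = -1) {g : (D.small χ).Pt → ℤ}
    (hg : (D.small χ).IsD T g) : D.IsD T (pb χ T g) := by
  intro i hi x hx h0
  have h1 := hg i hi (mp χ x) hx.mp (mp_none.mpr h0)
  set P : ℤ := ∏ j ∈ (T.filter (fun j => x j = none)).erase i, ((Kr χ j).card : ℤ) with hP
  have hmem : i ∈ T.filter (fun j => x j = none) := mem_filter.mpr ⟨hi, h0⟩
  have hprod : ∏ j ∈ T.filter (fun j => x j = none), ((Kr χ j).card : ℤ) = ((Kr χ i).card : ℤ) * P :=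
    (mul_prod_erase _ _ hmem).symm
  have e1 : ∀ u : D.G i, pb χ T g (Function.update x i (some u)) =
      P * g (Function.update (mp χ x) i (some (χ i u))) := by
    intro u
    unfold pb
    rw [mp_update_some]
    congr 1
    refine prod_congr ?_ (fun _ _ => rfl)
    ext j
    rw [mem_filter, mem_erase, mem_filter]
    by_cases hji : j = i
    · subst hji; simp
    · rw [Function.update_of_ne hji]
      constructor
      · rintro ⟨h, h'⟩; exact ⟨hji, h, h'⟩
      · rintro ⟨_, h, h'⟩; exact ⟨h, h'⟩
  have e2 : ∀ b : D.GG, pb χ T g (D.act b x) = ((Kr χ i).card : ℤ) * P *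
      g ((D.small χ).act (mg χ b) (mp χ x)) := by
    intro b
    unfold pb
    rw [mp_act, ← hprod]
    congr 1
    refine prod_congr ?_ (fun _ _ => rfl)
    exact filter_congr fun i _ => act_eq_none
  simp only [e1, e2, triv_int]
  -- the fibres of the character
  have e3 : ∑ u : D.G i, g (Function.update (mp χ x) i (some (χ i u))) =
      ((Kr χ i).card : ℤ) * ∑ ε : ℤˣ, g (Function.update (mp χ x) i (some ε)) := by
    rw [← sum_fiberwise_of_maps_to (s := univ) (t := univ) (g := fun u : D.G i => χ i u)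
      (fun _ _ => mem_univ _), mul_sum]
    refine sum_congr rfl fun ε _ => ?_
    have h4 : ∀ u ∈ univ.filter (fun u : D.G i => χ i u = ε),
        g (Function.update (mp χ x) i (some (χ i u))) = g (Function.update (mp χ x) i (some ε)) :=
      fun u hu => by rw [(mem_filter.mp hu).2]
    rw [sum_congr rfl h4, sum_const, nsmul_eq_mul]
    congr 2
    obtain ⟨v, hv⟩ : ∃ v, χ i v = ε := by
      rcases Int.units_eq_one_or ε with h | h
      · exact ⟨1, by rw [map_one, h]⟩
      · rw [h]; exact hsurj i hi
    unfold Kr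
    refine card_nbij' (fun u => v⁻¹ * u) (fun u => v * u) ?_ ?_ ?_ ?_
    · intro u hu
      rw [mem_coe, mem_filter] at hu ⊢
      refine ⟨mem_univ _, ?_⟩
      rw [map_mul, hu.2, ← hv, ← map_mul, inv_mul_cancel, map_one]
    · intro u hu
      rw [mem_coe, mem_filter] at hu ⊢
      refine ⟨mem_univ _, ?_⟩
      rw [map_mul, hu.2, hv, mul_one]
    · intro u _; simp
    · intro u _; simp
  rw [← mul_sum, e3]
  have h1' : ∑ ε : ℤˣ, g (Function.update (mp χ x) i (some ε)) =
      g ((D.small χ).act (mg χ (D.α i)) (mp χ x)) - g ((D.small χ).act (mg χ (D.β i)) (mp χ x)) := h1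
  rw [h1']
  ring

lemma Img.sum {A : Type} [AddCommGroup A] [DistribMulAction D.GG A] {θ : ℤ} {S : Finset ι}
    {κ : Type} (s : Finset κ) (f : κ → D.Pt → A) (h : ∀ k ∈ s, D.Img θ S (f k)) :
    D.Img θ S (∑ k ∈ s, f k) := by
  classical
  induction s using Finset.induction_on with
  | empty => rw [sum_empty]; exact Img.zero
  | insert a s ha ih =>
    rw [sum_insert ha]
    exact (h a (mem_insert_self _ _)).add (ih fun k hk => h k (mem_insert_of_mem hk))

theorem base_case (hfree : ∀ i, D.c i ≠ 1) {T : Finset ι} (hsurj : ∀ i ∈ T, ∃ u, χ i u = -1)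
    (hodd : ∀ i ∈ T, (Kr χ i).card % 2 = 1) {θ : ℤ} (hθ : θ * θ = 1) {f : D.Pt → ℤ}
    (hf : D.IsD T f) (hty : D.Ty θ T f) (h : (D.small χ).Img θ T (sm χ f)) : D.Img θ T f := by
  have hcard : ((KT χ T).card : ℤ) % 2 = 1 := by
    have h1 : (KT χ T).card % 2 = 1 := by
      unfold KT
      rw [Fintype.card_piFinset, ← Nat.odd_iff]
      refine Finset.prod_induction _ Odd (fun a b => Odd.mul) odd_one fun i _ => ?_
      by_cases hi : i ∈ T
      · rw [if_pos hi, Nat.odd_iff]; exact hodd i hi
      · rw [if_neg hi, card_singleton]; exact odd_one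
    omega
  refine Img.of_odd hθ hty hf hcard ?_
  have h1 : D.Img θ T (∑ k ∈ KT χ T, (D.T k f - f)) :=
    Img.sum _ _ fun k _ => coh (triv_int D) hfree hθ hf hty k
  have h2 : D.Img θ T (pb χ T (sm χ f)) := by
    obtain ⟨g, hg, hg'⟩ := h
    refine ⟨pb χ T g, isD_pb hsurj hg, (pb_congr hg').trans (EqS.of_eq ?_)⟩
    rw [pb_add, pb_zsmul, T_pb]; rfl
  refine (h2.sub h1).congr ?_
  intro x hx
  rw [Pi.sub_apply, ← sumK f hx, Finset.sum_apply, Pi.smul_apply]
  have h3 : ∀ k ∈ KT χ T, (D.T k f - f) x = f (D.act k x) - f x := fun k _ => by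
    rw [Pi.sub_apply, T_triv (triv_int D)]
  rw [sum_congr rfl h3, sum_sub_distrib, sum_const]
  simp

end Dat

end Pool.Agent.N993
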