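import Mathlib

/-!
The conditions on the auxiliary primes.
-/

namespace Pool.Agent.N993

/-- The conditions on a prime `p`, congruent to 1 modulo 4, and an auxiliary prime `q`, relative to the
set `N` of the numbers (odd primes and possibly 4) already treated. -/
structure StepC (N : Finset ℕ) (p q : ℕ) : Prop where
  pp : p.Prime
  qp : q.Prime
  p4 : p % 4 = 1
  q8 : q % 8 = 7
  pN : p ∉ N
  qN : q ∉ N
  sqp : ∀ j ∈ N, IsSquare ((j : ℕ) : ZMod p)
  sq4 : 4 ∈ N → IsSquare ((2 : ℕ) : ZMod p)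
  sqq : ∀ j ∈ N, IsSquare ((j : ℕ) : ZMod q)
  pj : ∀ j ∈ N, IsSquare ((p : ℕ) : ZMod j)
  qj : ∀ j ∈ N, ((q : ℕ) : ZMod j) = -1
  qp' : ¬ IsSquare ((q : ℕ) : ZMod p)

/-- Chains of such steps. -/
inductive Chain : Finset ℕ → Finset ℕ → Prop
  | base (T : Finset ℕ) (h : ∀ x ∈ T, (x.Prime ∧ x % 4 = 3) ∨ x = 4) : Chain T T
  | step {S N : Finset ℕ} (h : Chain S N) (p q : ℕ) (hc : StepC N p q) :
      Chain (insert p S) (insert p (insert q N))

end Pool.Agent.N993
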