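import Pool.Agent.N993.Quad

/-!
The main theorem on systems for chains.
-/

set_option linter.unusedSectionVars false

namespace Pool.Agent.N993

open Finset Pool.Agent.H916R2

lemma coprime_of {a b : ℕ} (ha : (a.Prime ∧ a % 2 = 1) ∨ a = 4) (hb : (b.Prime ∧ b % 2 = 1) ∨ b = 4)
    (h : a ≠ b) : a.Coprime b := by
  rcases ha with ha | ha
  · rcases hb with hb | hb
    · exact (Nat.coprime_primes ha.1 hb.1).mpr h
    · subst hb
      have : a.Coprime (2 ^ 2) := by
        apply Nat.Coprime.pow_right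
        rw [Nat.coprime_two_right]; exact Nat.odd_iff.mpr ha.2
      exact this
  · rcases hb with hb | hb
    · subst ha
      have : (2 ^ 2).Coprime b := by
        apply Nat.Coprime.pow_left
        rw [Nat.coprime_two_left]; exact Nat.odd_iff.mpr hb.2
      exact this
    · exact absurd (ha.trans hb.symm) h

lemma two_coprime_of {a : ℕ} (ha : (a.Prime ∧ a % 2 = 1) ∨ a = 4) (h : a ≠ 4) : Nat.Coprime 2 a := by
  rcases ha with ha | ha
  · rw [Nat.coprime_two_left]; exact Nat.odd_iff.mpr ha.2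
  · exact absurd ha h

section

variable {U : Finset ℕ} (hU : ∀ x ∈ U, (x.Prime ∧ x % 2 = 1) ∨ x = 4)

/-- the index type -/
abbrev Ix (U : Finset ℕ) : Type := {x // x ∈ U}

/-- the numbers -/
abbrev nn (U : Finset ℕ) : Ix U → ℕ := fun i => (i : ℕ)

variable [∀ i : Ix U, NeZero (nn U i)]

/-- the quadratic characters -/
noncomputable def qq (U : Finset ℕ) [∀ i : Ix U, NeZero (nn U i)] :
    ∀ i, (cyc (nn U)).G i →* ℤˣ := fun i => qch (nn U i)

include hU

lemma qq_eq_one {i j : Ix U} (hij : i ≠ j) (h : IsSquare (((i : ℕ) : ℕ) : ZMod (j : ℕ))) :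
    qq U j ((cyc (nn U)).α i j) = 1 := by
  change qch (j : ℕ) (unOf i j) = 1
  rw [qch_eq_one_iff (hU j j.2), unOf_val (coprime_of (hU i i.2) (hU j j.2)
    (fun h => hij (Subtype.ext h)))]
  exact h

lemma qq_beta_eq_one {i j : Ix U} (hij : i ≠ j)
    (h : (i : ℕ) = 4 → IsSquare ((2 : ℕ) : ZMod (j : ℕ))) :
    qq U j ((cyc (nn U)).β i j) = 1 := by
  change qch (j : ℕ) (if (i : ℕ) = 4 then unOf 2 (j : ℕ) else 1) = 1
  by_cases h4 : (i : ℕ) = 4
  · rw [if_pos h4, qch_eq_one_iff (hU j j.2), unOf_val (two_coprime_of (hU j j.2)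
      (fun h' => hij (Subtype.ext (h4.trans h'.symm))))]
    exact h h4
  · rw [if_neg h4, map_one]

theorem mainP_of_chain {S N : Finset ℕ} (h : Chain S N) (hN : N ⊆ U) :
    Dat.MainP (cyc (nn U)) (qq U) (S.subtype (· ∈ U)) (N.subtype (· ∈ U)) ∧ S ⊆ N := by
  classical
  have hfree : ∀ i, (cyc (nn U)).c i ≠ 1 := fun i => neg_one_ne_one (hU i i.2)
  induction h with
  | base T h =>
    refine ⟨?_, Subset.refl _⟩
    intro θ hθ f hf hty hsm
    refine Dat.base_case hfree (T := T.subtype (· ∈ U)) ?_ ?_ hθ hf hty hsm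
    · intro i hi
      rw [mem_subtype] at hi
      refine ⟨(-1 : (ZMod (nn U i))ˣ), ?_⟩
      change qch (i : ℕ) (-1) = -1
      rw [qch_eq_neg_one_iff (hU i i.2)]
      rcases h i hi with h | h
      · have : Fact (i : ℕ).Prime := ⟨h.1⟩
        rw [Units.val_neg, Units.val_one, ZMod.exists_sq_eq_neg_one_iff]
        exact fun h' => h' h.2
      · rw [h]; decide
    · intro i hi
      rw [mem_subtype] at hi
      exact card_kernel_odd (h i hi)
  | @step S N h p q hc ih =>
    have hpU : p ∈ U := hN (mem_insert_self _ _)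
    have hqU : q ∈ U := hN (mem_insert_of_mem (mem_insert_self _ _))
    have hNU : N ⊆ U := fun x hx => hN (mem_insert_of_mem (mem_insert_of_mem hx))
    obtain ⟨ih, hSN⟩ := ih hNU
    refine ⟨?_, insert_subset_insert _ (hSN.trans (subset_insert _ _))⟩
    set p' : Ix U := ⟨p, hpU⟩ with hp'
    set q' : Ix U := ⟨q, hqU⟩ with hq'
    have hins : ∀ (x : ℕ) (hx : x ∈ U) (M : Finset ℕ), (insert x M).subtype (· ∈ U) =
        insert (⟨x, hx⟩ : Ix U) (M.subtype (· ∈ U)) := by
      intro x hx M
      ext y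
      rw [mem_subtype, mem_insert, mem_insert, mem_subtype, Subtype.ext_iff]
    rw [hins p hpU, hins p hpU, hins q hqU]
    have hpF : Fact p.Prime := ⟨hc.pp⟩
    have hqF : Fact q.Prime := ⟨hc.qp⟩
    have hq4 : q % 4 = 3 := by have := hc.q8; omega
    have hpq : p ≠ q := by
      rintro rfl
      have := hc.p4; omega
    have hpN : ∀ j : Ix U, j ∈ N.subtype (· ∈ U) → j ≠ p' := by
      rintro j hj rfl
      rw [mem_subtype] at hj
      exact hc.pN hj
    have hqN : ∀ j : Ix U, j ∈ N.subtype (· ∈ U) → j ≠ q' := by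
      rintro j hj rfl
      rw [mem_subtype] at hj
      exact hc.qN hj
    have hbe : ∀ j : Ix U, j ∈ N.subtype (· ∈ U) → ∃ b : (ZMod (j : ℕ))ˣ,
        (cyc (nn U)).α p' j = b * b := by
      intro j hj
      have h1 := qq_eq_one hU (hpN j hj).symm (hc.pj j (mem_subtype.mp hj))
      change qch (j : ℕ) _ = 1 at h1
      rw [qch_eq_one_iff (hU j j.2), ← isSquare_units_iff] at h1
      exact h1
    choose! b hb using hbe
    refine Dat.step hfree (S0 := S.subtype (· ∈ U)) (N0 := N.subtype (· ∈ U)) ?_ ?_ ?_ ?_ ?_ ?_ ?_ ?_ ?_ ?_ ?_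
      ?_ ?_ (fun j => b j) ?_ ?_ ih
    · intro x hx
      rw [mem_subtype] at hx ⊢
      exact hSN hx
    · rw [mem_subtype]; exact hc.pN
    · rw [mem_subtype]; exact hc.qN
    · intro h; exact hpq (congrArg Subtype.val h)
    · change qch p (-1) = 1
      rw [qch_eq_one_iff (hU p hpU), Units.val_neg, Units.val_one, ZMod.exists_sq_eq_neg_one_iff]
      have := hc.p4; omega
    · change qch q (-1) = -1
      rw [qch_eq_neg_one_iff (hU q hqU), Units.val_neg, Units.val_one,
        ZMod.exists_sq_eq_neg_one_iff]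
      exact fun h' => h' hq4
    · intro j hj
      exact qq_eq_one hU (hpN j hj) (hc.sqp j (mem_subtype.mp hj))
    · intro j hj
      refine qq_beta_eq_one hU (hpN j hj) fun h4 => ?_
      rw [mem_subtype, h4] at hj
      exact hc.sq4 hj
    · intro j hj
      exact qq_eq_one hU (hqN j hj) (hc.sqq j (mem_subtype.mp hj))
    · intro j hj
      refine qq_beta_eq_one hU (hqN j hj) fun _ => ?_
      have h2 : q ≠ 2 := by rintro rfl; have := hc.q8; omega
      have h3 := (ZMod.exists_sq_eq_two_iff (p := q) h2).mpr (Or.inr hc.q8)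
      exact_mod_cast h3
    · intro i hi
      change unOf q i = -1
      apply Units.ext
      rw [unOf_val (coprime_of (hU q hqU) (hU i i.2)
        (fun h => hqN i hi (Subtype.ext h.symm))), Units.val_neg, Units.val_one]
      exact hc.qj i (mem_subtype.mp hi)
    · change qch p (unOf q p) = -1
      rw [qch_eq_neg_one_iff (hU p hpU), unOf_val (coprime_of (hU q hqU) (hU p hpU) hpq.symm)]
      exact hc.qp'
    · funext j
      change (if q = 4 then unOf 2 (j : ℕ) else 1) = (1 : (ZMod (j : ℕ))ˣ)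
      rw [if_neg]
      rintro rfl
      exact absurd hc.qp (by norm_num)
    · intro i hi
      exact hb i hi
    · funext j
      change (if p = 4 then unOf 2 (j : ℕ) else 1) = (1 : (ZMod (j : ℕ))ˣ)
      rw [if_neg]
      rintro rfl
      exact absurd hc.pp (by norm_num)

end

end Pool.Agent.N993
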