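import Pool.Agent.N993.Tate

/-!
For systems with values in a module with the trivial action, the operators `T b - 1` map systems of
type `θ` to images of `1 + θ c`.
-/

set_option linter.unusedSectionVars false

namespace Pool.Agent.N993

open Finset

namespace Dat

variable {ι : Type} [DecidableEq ι] {D : Dat ι} {A : Type} [AddCommGroup A] [DistribMulAction D.GG A]

lemma act_eq_self {b : D.GG} {x : D.Pt} (h : ∀ i, x i ≠ none → b i = 1) : D.act b x = x := by
  funext i
  cases hxi : x i with
  | none => exact act_apply_none hxi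
  | some u => rw [act_apply_some hxi, h i (by rw [hxi]; simp), one_mul]

lemma act_supp {S : Finset ι} {b : D.GG} {x : D.Pt} (hx : D.Supp S x) (h : ∀ i ∈ S, b i = 1) :
    D.act b x = x := act_eq_self fun i hi => h i (by by_contra h'; exact hi (hx i h'))

lemma act_congr {S : Finset ι} {b b' : D.GG} {x : D.Pt} (hx : D.Supp S x)
    (h : ∀ i ∈ S, b i = b' i) : D.act b x = D.act b' x := by
  funext i
  cases hxi : x i with
  | none => rw [act_apply_none hxi, act_apply_none hxi]
  | some u =>
    rw [act_apply_some hxi, act_apply_some hxi, h i]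
    by_contra h'
    rw [hx i h'] at hxi
    cases hxi

section triv

variable (htriv : ∀ (b : D.GG) (a : A), b • a = a)

include htriv

lemma T_triv (b : D.GG) (f : D.Pt → A) (x : D.Pt) : D.T b f x = f (D.act b x) := by
  rw [T_apply, htriv]

lemma T_congr {S : Finset ι} {b b' : D.GG} (h : ∀ i ∈ S, b i = b' i) (f : D.Pt → A) :
    D.EqS S (D.T b f) (D.T b' f) := fun x hx => by
  rw [T_triv htriv, T_triv htriv, act_congr hx h]

lemma coh_single (hfree : ∀ i, D.c i ≠ 1) {θ : ℤ} (hθ : θ * θ = 1) {i : ι} {S : Finset ι}
    (hi : i ∉ S) {f : D.Pt → A} (hf : D.IsD (insert i S) f) (hty : D.Ty θ (insert i S) f)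
    (b : D.GG) (hb : ∀ j ∈ S, b j = 1) : D.Img θ (insert i S) (D.T b f - f) := by
  obtain ⟨k1, hk1, hk1'⟩ := tt hfree S (D.Ind i A) (hT_ind i (hfree i)) θ hθ (D.un i f) (hf.un hi)
    hty.un
  refine ⟨D.glue i 0 (D.T b k1 - k1), isD_glue hi IsD.zero ((hk1.T b).sub hk1) ?_, ?_⟩
  · intro x hx
    rw [T_zero, T_zero, Pi.sub_apply, map_sub, T_apply, nrm_smul, htriv, act_supp hx hb]
    simp
  · have h0 : D.EqS S (D.T b f - f) 0 := by
      intro x hx
      rw [Pi.sub_apply, T_triv htriv, act_supp hx hb, sub_self, Pi.zero_apply]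
    have e1 : D.EqS S (D.T b (D.un i f) - D.un i f)
        ((D.T b k1 - k1) + θ • D.T D.c (D.T b k1 - k1)) := by
      refine ((hk1'.T b).sub hk1').trans (EqS.of_eq ?_)
      rw [T_add, T_zsmul, T_sub, smul_sub, T_comm b D.c]
      abel
    have e2 := glue_congr h0 e1
    have e3 : D.glue i (D.T b f - f) (D.T b (D.un i f) - D.un i f) = D.T b f - f := by
      rw [glue_sub, ← T_glue, glue_self]
    rw [e3] at e2
    refine e2.trans (EqS.of_eq ?_)
    rw [T_glue, T_zero, ← glue_zsmul, smul_zero, ← glue_add, add_zero]

/-- `T b - 1` maps systems of type `θ` to images. -/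
theorem coh (hfree : ∀ i, D.c i ≠ 1) {θ : ℤ} (hθ : θ * θ = 1) {S : Finset ι} {f : D.Pt → A}
    (hf : D.IsD S f) (hty : D.Ty θ S f) (b : D.GG) : D.Img θ S (D.T b f - f) := by
  classical
  have key : ∀ U : Finset ι, U ⊆ S →
      D.Img θ S (D.T (fun i => if i ∈ U then b i else 1) f - f) := by
    intro U
    induction U using Finset.induction_on with
    | empty =>
      intro _
      refine Img.zero.congr fun x hx => ?_
      rw [Pi.sub_apply, T_triv htriv, act_eq_self (fun i _ => if_neg (notMem_empty i)), sub_self]
      rfl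
    | insert i U hi ih =>
      intro hU
      have hiS : i ∈ S := hU (mem_insert_self _ _)
      have h1 := ih (fun j hj => hU (mem_insert_of_mem hj))
      set b' : D.GG := fun j => if j ∈ U then b j else 1 with hb'
      set b1 : D.GG := Pi.mulSingle i (b i) with hb1
      have hmul : (fun j => if j ∈ insert i U then b j else 1 : D.GG) = b1 * b' := by
        funext j
        rw [Pi.mul_apply]
        by_cases hj : j = i
        · subst hj
          rw [if_pos (mem_insert_self _ _), hb1, Pi.mulSingle_eq_same, hb']
          simp only [if_neg hi, mul_one]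
        · rw [hb1, Pi.mulSingle_eq_of_ne hj, one_mul, hb']
          by_cases hjU : j ∈ U
          · rw [if_pos (mem_insert_of_mem hjU)]
            simp only [if_pos hjU]
          · rw [if_neg (by rw [mem_insert, not_or]; exact ⟨hj, hjU⟩)]
            simp only [if_neg hjU]
      rw [hmul, ← T_T]
      have h2 : D.Img θ S (D.T b1 (D.T b' f) - D.T b' f) := by
        have hS : insert i (S.erase i) = S := insert_erase hiS
        have := coh_single (θ := θ) htriv hfree hθ (notMem_erase i S) (f := D.T b' f)
          (by rw [hS]; exact hf.T b') (by rw [hS]; exact hty.T b') b1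
          (fun j hj => Pi.mulSingle_eq_of_ne (ne_of_mem_erase hj) _)
        rwa [hS] at this
      have h3 := h2.add h1
      refine h3.congr (EqS.of_eq ?_)
      abel
  refine (key S (Subset.refl S)).congr ?_
  exact (T_congr htriv (fun i hi => if_pos hi) f).sub (EqS.refl f)

end triv

end Dat

end Pool.Agent.N993
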