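import Pool.Agent.N993.Step2

/-!
The connecting map, detection of images by the restrictions to the subsets of the right parity, and
the description of images in the small system by parity.
-/

set_option linter.unusedSectionVars false

namespace Pool.Agent.N993

open Finset

namespace Dat

variable {ι : Type} [DecidableEq ι] {D : Dat ι}

/-- the connecting system -/
def dlt (i : ι) (g0 : D.Pt → ℤ) (g1 : D.Pt → D.Ind i ℤ) : D.Pt → ℤ :=
  (fun x => D.nrm i (g1 x)) - (D.T (D.α i) g0 - D.T (D.β i) g0)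

lemma dlt_isD {i : ι} {S : Finset ι} {g0 : D.Pt → ℤ} {g1 : D.Pt → D.Ind i ℤ}
    (hg0 : D.IsD S g0) (hg1 : D.IsD S g1) : D.IsD S (dlt i g0 g1) :=
  (hg1.comp (D.nrm i) (nrm_smul i)).sub ((hg0.T _).sub (hg0.T _))

lemma dlt_ty {i : ι} {S : Finset ι} (hi : i ∉ S) {θ : ℤ} (hθ : θ * θ = 1) {f g0 : D.Pt → ℤ}
    (hf : D.IsD (insert i S) f)
    (hg0' : D.EqS S f (g0 + θ • D.T D.c g0)) {g1 : D.Pt → D.Ind i ℤ}
    (hg1' : D.EqS S (D.un i f) (g1 + θ • D.T D.c g1)) : D.Ty (-θ) S (dlt i g0 g1) := by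
  apply Ty.of_add_eq_zero hθ
  intro x hx
  have e1 : D.nrm i (g1 x) + θ • D.T D.c (fun x => D.nrm i (g1 x)) x =
      D.nrm i (D.un i f x) := by
    rw [T_nrm, hg1' x hx, Pi.add_apply, Pi.smul_apply, map_add, map_zsmul]
  have e2 : ∀ b : D.GG, D.T b g0 x + θ • D.T D.c (D.T b g0) x = D.T b f x := by
    intro b
    rw [hg0'.T b x hx, T_add, T_zsmul, T_comm b D.c]; rfl
  have e3 : D.nrm i (D.un i f x) = D.T (D.α i) f x - D.T (D.β i) f x := by
    apply hf.rel (hx.mono (subset_insert _ _)) (hx i hi)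
  have e4 : D.T D.c (dlt i g0 g1) x = D.T D.c (fun x => D.nrm i (g1 x)) x -
      (D.T D.c (D.T (D.α i) g0) x - D.T D.c (D.T (D.β i) g0) x) := by
    unfold dlt; rw [T_sub, T_sub]; rfl
  have e5 : dlt i g0 g1 x = D.nrm i (g1 x) - (D.T (D.α i) g0 x - D.T (D.β i) g0 x) := rfl
  rw [e4, e5]
  calc _ = (D.nrm i (g1 x) + θ • D.T D.c (fun x => D.nrm i (g1 x)) x) -
        ((D.T (D.α i) g0 x + θ • D.T D.c (D.T (D.α i) g0) x) -
        (D.T (D.β i) g0 x + θ • D.T D.c (D.T (D.β i) g0) x)) := by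
        rw [smul_sub, smul_sub]; abel
    _ = 0 := by rw [e1, e2, e2, e3, sub_self]

/-- The converse of `glue_img`. -/
lemma img_dlt (hfree : ∀ i, D.c i ≠ 1) {i : ι} {S : Finset ι} (hi : i ∉ S) {θ : ℤ}
    (hθ : θ * θ = 1) {f g0 : D.Pt → ℤ} (hg0 : D.IsD S g0)
    (hg0' : D.EqS S f (g0 + θ • D.T D.c g0)) {g1 : D.Pt → D.Ind i ℤ} (hg1 : D.IsD S g1)
    (hg1' : D.EqS S (D.un i f) (g1 + θ • D.T D.c g1)) (h : D.Img θ (insert i S) f) :
    D.Img (-θ) S (dlt i g0 g1) := by
  have hθ' : (-θ) * (-θ) = 1 := by rw [neg_mul_neg, hθ]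
  obtain ⟨G, hG, hG'⟩ := h
  have hGS : D.IsD S G := hG.mono (subset_insert _ _)
  have hG'S : D.EqS S f (G + θ • D.T D.c G) := hG'.mono (subset_insert _ _)
  have hG1 : D.IsD S (D.un i G) := hG.un hi
  have hG1' : D.EqS S (D.un i f) (D.un i G + θ • D.T D.c (D.un i G)) := by
    intro x hx
    have := hG'.un x hx
    rw [this, T_un']
    rfl
  -- the differences
  have hh : D.Ty (-θ) S (g0 - G) := by
    apply Ty.of_add_eq_zero hθ
    intro x hx
    have h1 := hg0' x hx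
    have h2 := hG'S x hx
    rw [h1] at h2
    rw [T_sub, Pi.sub_apply, Pi.sub_apply]
    simp only [Pi.add_apply, Pi.smul_apply] at h2
    rw [smul_sub]
    linear_combination h2
  have hk : D.Ty (-θ) S (g1 - D.un i G) := by
    apply Ty.of_add_eq_zero hθ
    intro x hx
    have h1 := hg1' x hx
    have h2 := hG1' x hx
    rw [h1] at h2
    rw [T_sub, Pi.sub_apply, Pi.sub_apply, smul_sub]
    simp only [Pi.add_apply, Pi.smul_apply] at h2
    have h3 : g1 x - D.un i G x + (θ • D.T D.c g1 x - θ • D.T D.c (D.un i G) x) =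
        (g1 x + θ • D.T D.c g1 x) - (D.un i G x + θ • D.T D.c (D.un i G) x) := by abel
    rw [h3, h2, sub_self]
  have hkI := tt hfree S (D.Ind i ℤ) (hT_ind i (hfree i)) (-θ) hθ' _ (hg1.sub hG1) hk
  obtain ⟨k', hk', hk''⟩ := hkI
  have A1 : D.Img (-θ) S (fun x => D.nrm i ((g1 - D.un i G) x)) := by
    refine ⟨fun x => D.nrm i (k' x), hk'.comp (D.nrm i) (nrm_smul i), ?_⟩
    intro x hx
    rw [Pi.add_apply, Pi.smul_apply, T_nrm]
    beta_reduce
    rw [hk'' x hx, Pi.add_apply, Pi.smul_apply, map_add, map_zsmul]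
  have A2 := coh (triv_int D) hfree hθ' (hg0.sub hGS) hh (D.α i)
  have A3 := coh (triv_int D) hfree hθ' (hg0.sub hGS) hh (D.β i)
  refine (A1.sub (A2.sub A3)).congr ?_
  intro x hx
  have h4 := hG.rel (hx.mono (subset_insert _ _)) (hx i hi)
  have h5 : D.nrm i ((g1 - D.un i G) x) = D.nrm i (g1 x) - D.nrm i (D.un i G x) := by
    rw [Pi.sub_apply, map_sub]
  have h6 : ∀ b : D.GG, D.T b (g0 - G) x = D.T b g0 x - D.T b G x := fun b => by
    rw [T_sub]; rfl
  change D.nrm i ((g1 - D.un i G) x) -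
    ((D.T (D.α i) (g0 - G) x - (g0 - G) x) - (D.T (D.β i) (g0 - G) x - (g0 - G) x)) =
    D.nrm i (g1 x) - (D.T (D.α i) g0 x - D.T (D.β i) g0 x)
  rw [h5, h6, h6]
  linear_combination -h4

theorem img_iff (hfree : ∀ i, D.c i ≠ 1) {i : ι} {S : Finset ι} (hi : i ∉ S) {θ : ℤ}
    (hθ : θ * θ = 1) {f g0 : D.Pt → ℤ} (hg0 : D.IsD S g0)
    (hg0' : D.EqS S f (g0 + θ • D.T D.c g0)) {g1 : D.Pt → D.Ind i ℤ} (hg1 : D.IsD S g1)
    (hg1' : D.EqS S (D.un i f) (g1 + θ • D.T D.c g1)) :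
    D.Img θ (insert i S) f ↔ D.Img (-θ) S (dlt i g0 g1) :=
  ⟨img_dlt hfree hi hθ hg0 hg0' hg1 hg1', fun h => glue_img hi hθ hg0 hg0' hg1 hg1' h⟩

/-- Detection of images by the subsets of the right parity. -/
theorem detect (hfree : ∀ i, D.c i ≠ 1) (S : Finset ι) : ∀ (θ : ℤ) (_ : θ * θ = 1) (f : D.Pt → ℤ)
    (_ : D.IsD S f) (_ : D.Ty θ S f) (_ : ∀ T ⊆ S, θ = (-1) ^ T.card → D.Img θ T f),
    D.Img θ S f := by
  induction S using Finset.induction_on with
  | empty =>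
    intro θ hθ f hf hty h
    have hcase : θ = 1 ∨ θ = -1 := by
      have : (θ - 1) * (θ + 1) = 0 := by linear_combination hθ
      rcases mul_eq_zero.mp this with h | h
      · left; omega
      · right; omega
    rcases hcase with rfl | rfl
    · exact h ∅ (Subset.refl _) (by simp)
    · refine Img.zero.congr fun x hx => ?_
      have h1 := hty x hx
      rw [T_triv (triv_int D), act_supp hx (fun i hi => absurd hi (notMem_empty i))] at h1
      change (0 : ℤ) = f x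
      have h2 : f x = -1 * f x := h1
      omega
  | insert i S hi ih =>
    intro θ hθ f hf hty h
    have hcase : θ = 1 ∨ θ = -1 := by
      have : (θ - 1) * (θ + 1) = 0 := by linear_combination hθ
      rcases mul_eq_zero.mp this with h | h
      · left; omega
      · right; omega
    by_cases hpar : θ = (-1) ^ (insert i S).card
    · exact h _ (Subset.refl _) hpar
    have hθ' : (-θ) * (-θ) = 1 := by rw [neg_mul_neg, hθ]
    have hparS : θ = (-1) ^ S.card := by
      rw [card_insert_of_notMem hi, pow_succ] at hpar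
      rcases neg_one_pow_eq_or ℤ S.card with h1 | h1 <;> rw [h1] at hpar ⊢ <;>
        rcases hcase with rfl | rfl <;> first | rfl | (exfalso; apply hpar; norm_num)
    obtain ⟨g0, hg0, hg0'⟩ := h S (subset_insert _ _) hparS
    obtain ⟨g1, hg1, hg1'⟩ := tt hfree S (D.Ind i ℤ) (hT_ind i (hfree i)) θ hθ (D.un i f)
      (hf.un hi) hty.un
    rw [img_iff hfree hi hθ hg0 hg0' hg1 hg1']
    refine ih (-θ) hθ' _ (dlt_isD hg0 hg1) (dlt_ty hi hθ hf hg0' hg1') ?_
    intro T hT hparT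
    have hiT : i ∉ T := fun h => hi (hT h)
    refine img_dlt hfree hiT hθ (hg0.mono hT) (hg0'.mono hT) (hg1.mono hT) (hg1'.mono hT) ?_
    refine h _ (insert_subset_insert _ hT) ?_
    rw [card_insert_of_notMem hiT, pow_succ, ← hparT]; ring

/-! ### Parity in the small system -/

lemma Img.of_even {θ : ℤ} (hθ : θ * θ = 1) {S : Finset ι} {f : D.Pt → ℤ}
    (hf : D.IsD S f) (hty : D.Ty θ S f) (h : ∀ x, D.Supp S x → 2 ∣ f x) : D.Img θ S f := by
  set τ : D.Pt → ℤ := fun x => f x / 2 with hτ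
  have h2 : D.EqS S ((2 : ℤ) • τ) f := by
    intro x hx
    rw [Pi.smul_apply, smul_eq_mul, hτ]
    exact Int.mul_ediv_cancel' (h x hx)
  have hD2 : D.IsD S ((2 : ℤ) • τ) := h2.symm.isD hf
  have hT2 : D.Ty θ S ((2 : ℤ) • τ) := hty.congr h2.symm
  have hD : D.IsD S τ := by
    intro i hi x hx h0
    have h1 := hD2 i hi x hx h0
    have e1 : ∑ u, ((2 : ℤ) • τ) (Function.update x i (some u)) =
        2 * ∑ u, τ (Function.update x i (some u)) := by
      rw [mul_sum]; rfl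
    have e2 : D.α i • ((2 : ℤ) • τ) (D.act (D.α i) x) -
        D.β i • ((2 : ℤ) • τ) (D.act (D.β i) x) =
        2 * (D.α i • τ (D.act (D.α i) x) - D.β i • τ (D.act (D.β i) x)) := by
      rw [mul_sub]; rfl
    exact mul_left_cancel₀ two_ne_zero (e1.symm.trans (h1.trans e2))
  have hT : D.Ty θ S τ := by
    intro x hx
    have := hT2 x hx
    rw [T_zsmul, Pi.smul_apply, Pi.smul_apply, smul_comm θ] at this
    simp only [smul_eq_mul] at this ⊢
    exact mul_left_cancel₀ two_ne_zero this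
  exact (hT.two hθ hD).congr h2

variable {χ : ∀ i, D.G i →* ℤˣ}

/-- Images are even in the small system. -/
lemma small_even {θ : ℤ} (hθ : θ * θ = 1) {N : Finset ι} {ν : (D.small χ).Pt → ℤ}
    (h : (D.small χ).Img θ N ν) {z : (D.small χ).Pt} (hz : (D.small χ).Supp N z) : 2 ∣ ν z := by
  obtain ⟨k, hk, hk'⟩ := h
  have h1 : ν z = k z + θ * k ((D.small χ).act (D.small χ).c z) := hk' z hz
  have h2 := par hk _ z hz le_rfl (D.small χ).c
  have hcase : θ = 1 ∨ θ = -1 := by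
    have : (θ - 1) * (θ + 1) = 0 := by linear_combination hθ
    rcases mul_eq_zero.mp this with h | h
    · left; omega
    · right; omega
  obtain ⟨w, hw⟩ := h2
  rw [h1]
  have h3 : k ((D.small χ).act (D.small χ).c z) - k z = 2 * w := hw
  rcases hcase with rfl | rfl <;> omega

variable [Fintype ι]

lemma sm_even {θ : ℤ} (hθ : θ * θ = 1) {N : Finset ι} {f : D.Pt → ℤ} (h : D.Img θ N f)
    {z : (D.small χ).Pt} (hz : (D.small χ).Supp N z) : 2 ∣ sm χ f z := by
  obtain ⟨k, hk, hk'⟩ := h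
  refine small_even (N := N) hθ (ν := sm χ f) ⟨sm χ k, sm_isD hk, ?_⟩ hz
  intro z hz
  rw [sm_congr hk' z hz, sm_add, sm_zsmul, sm_T]
  rfl

lemma small_img {θ : ℤ} (hθ : θ * θ = 1) {N : Finset ι} {f : D.Pt → ℤ} (hf : D.IsD N f)
    (hty : D.Ty θ N f) (h : ∀ z, (D.small χ).Supp N z → 2 ∣ sm χ f z) :
    (D.small χ).Img θ N (sm χ f) := by
  refine Img.of_even hθ (sm_isD hf) ?_ h
  intro z hz
  have h1 : D.EqS N (D.T D.c f) (θ • f) := hty
  have h2 := sm_congr (χ := χ) h1 z hz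
  rw [sm_T, sm_zsmul] at h2
  exact h2

end Dat

end Pool.Agent.N993
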