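import Pool.Agent.N993.Sys

/-!
Systems lift along surjections of modules.
-/

set_option linter.unusedSectionVars false

namespace Pool.Agent.N993

open Finset

namespace Dat

variable {ι : Type} [DecidableEq ι] {D : Dat ι}

/-- stable subgroups -/
def Stab (D : Dat ι) {A : Type} [AddCommGroup A] [DistribMulAction D.GG A] (L : AddSubgroup A) : Prop :=
  ∀ (b : D.GG), ∀ a ∈ L, b • a ∈ L

section

variable {A : Type} [AddCommGroup A] [DistribMulAction D.GG A]

/-- functions with values in a subgroup -/
def indS (D : Dat ι) (i : ι) {A : Type} [AddCommGroup A] (L : AddSubgroup A) :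
    AddSubgroup (D.Ind i A) where
  carrier := {h | ∀ u, h.ev u ∈ L}
  zero_mem' := fun _ => L.zero_mem
  add_mem' := fun ha hb u => L.add_mem (ha u) (hb u)
  neg_mem' := fun ha u => L.neg_mem (ha u)

lemma mem_indS {i : ι} {L : AddSubgroup A} {h : D.Ind i A} :
    h ∈ D.indS i L ↔ ∀ u, h.ev u ∈ L := Iff.rfl

lemma Stab.ind {L : AddSubgroup A} (hL : D.Stab L) (i : ι) : D.Stab (D.indS i L) := by
  intro b h hh u
  exact hL b _ (hh _)

/-- the map of induced modules -/
def indMap (D : Dat ι) (i : ι) {A B : Type} [AddCommGroup A] [AddCommGroup B] (π : A →+ B) :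
    D.Ind i A →+ D.Ind i B where
  toFun h := ⟨fun u => π (h.ev u)⟩
  map_zero' := by apply Ind.ext; funext u; exact map_zero π
  map_add' h k := by apply Ind.ext; funext u; exact map_add π _ _

lemma indMap_apply {B : Type} [AddCommGroup B] (i : ι) (π : A →+ B) (h : D.Ind i A) (u : D.G i) :
    (D.indMap i π h).ev u = π (h.ev u) := rfl

/-- the function supported at one -/
def sgl (D : Dat ι) (i : ι) {A : Type} [AddCommGroup A] (a : A) : D.Ind i A :=
  ⟨fun u => if u = 1 then a else 0⟩

lemma nrm_sgl (i : ι) (a : A) : D.nrm i (D.sgl i a) = a := by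
  rw [nrm_apply]
  change ∑ u : D.G i, (if u = 1 then a else 0) = a
  simp

end

theorem exs (D : Dat ι) (S : Finset ι) : ∀ (A B : Type) [AddCommGroup A] [AddCommGroup B]
    [DistribMulAction D.GG A] [DistribMulAction D.GG B] (π : A →+ B)
    (_ : ∀ (b : D.GG) a, π (b • a) = b • π a) (L : AddSubgroup A) (K : AddSubgroup B)
    (_ : D.Stab L) (_ : D.Stab K) (_ : ∀ b ∈ K, ∃ a ∈ L, π a = b) (f : D.Pt → B)
    (_ : D.IsD S f) (_ : ∀ x, D.Supp S x → f x ∈ K),
    ∃ g : D.Pt → A, D.IsD S g ∧ ∀ x, D.Supp S x → g x ∈ L ∧ π (g x) = f x := by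
  classical
  induction S using Finset.induction_on with
  | empty =>
    intro A B _ _ _ _ π _ L K _ _ hs f _ hfK
    refine ⟨fun x => if h : f x ∈ K then (hs _ h).choose else 0, ?_, ?_⟩
    · intro i hi; exact absurd hi (notMem_empty _)
    · intro x hx
      have h := hfK x hx
      simp only [dif_pos h]
      exact (hs _ h).choose_spec
  | insert i S hi ih =>
    intro A B _ _ _ _ π hπ L K hL hK hs f hf hfK
    obtain ⟨g0, hg0, hg0'⟩ := ih A B π hπ L K hL hK hs f (hf.mono (subset_insert _ _))
      (fun x hx => hfK x (hx.mono (subset_insert _ _)))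
    obtain ⟨h1, hh1, hh1'⟩ := ih (D.Ind i A) (D.Ind i B) (D.indMap i π)
      (fun b h => by
        apply Ind.ext
        funext u
        rw [indMap_apply, ind_smul, ind_smul, hπ, indMap_apply])
      (D.indS i L) (D.indS i K) (hL.ind i) (hK.ind i)
      (fun h hh => by
        choose a ha ha' using fun u => hs (h.ev u) (hh u)
        exact ⟨⟨a⟩, ha, Ind.ext (funext ha')⟩)
      (D.un i f) (hf.un hi)
      (fun x hx u => hfK _ (hx.update_insert _))
    -- the difference
    have hN : D.IsD S (fun x => D.nrm i (h1 x)) := hh1.comp (D.nrm i) (nrm_smul i)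
    have he : D.IsD S (D.T (D.α i) g0 - D.T (D.β i) g0 - fun x => D.nrm i (h1 x)) :=
      ((hg0.T _).sub (hg0.T _)).sub hN
    have hKer : D.Stab (L ⊓ π.ker) := by
      intro b a ha
      rw [AddSubgroup.mem_inf] at ha ⊢
      refine ⟨hL b a ha.1, ?_⟩
      rw [AddMonoidHom.mem_ker, hπ, AddMonoidHom.mem_ker.mp ha.2, smul_zero]
    obtain ⟨k1, hk1, hk1'⟩ := ih (D.Ind i A) A (D.nrm i) (nrm_smul i) (D.indS i (L ⊓ π.ker))
      (L ⊓ π.ker) (hKer.ind i) hKer
      (fun a ha => ⟨D.sgl i a, fun u => by
        change (if u = 1 then a else 0) ∈ _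
        split_ifs
        · exact ha
        · exact AddSubgroup.zero_mem _, nrm_sgl i a⟩)
      _ he
      (fun x hx => by
        rw [AddSubgroup.mem_inf, AddMonoidHom.mem_ker]
        constructor
        · refine L.sub_mem (L.sub_mem ?_ ?_) ?_
          · exact hL _ _ (hg0' _ (hx.act _)).1
          · exact hL _ _ (hg0' _ (hx.act _)).1
          · exact L.sum_mem fun u _ => (hh1' x hx).1 u
        · simp only [Pi.sub_apply, map_sub, T_apply, hπ]
          rw [(hg0' _ (hx.act _)).2, (hg0' _ (hx.act _)).2, nrm_apply, map_sum]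
          have h2 : ∀ u, π ((h1 x).ev u) = f (Function.update x i (some u)) := fun u =>
            congrFun (congrArg Ind.ev (hh1' x hx).2) u
          simp only [h2]
          rw [sub_eq_zero]
          by_cases hxi : x i = none
          · exact (hf i (mem_insert_self _ _) x (hx.mono (subset_insert _ _)) hxi).symm
          · exact absurd (hx i hi) hxi)
    refine ⟨D.glue i g0 (h1 + k1), isD_glue hi hg0 (hh1.add hk1) ?_, ?_⟩
    · intro x hx
      rw [Pi.add_apply, map_add, (hk1' x hx).2]
      simp only [Pi.sub_apply]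
      abel
    · intro x hx
      cases hxi : x i with
      | none =>
        rw [glue_none hxi]
        exact hg0' x (hx.of_insert hxi)
      | some u =>
        rw [glue_some hxi]
        have hy := hx.update_none
        have h3 := hh1' _ hy
        have h4 := (hk1' _ hy).1 u
        rw [AddSubgroup.mem_inf, AddMonoidHom.mem_ker] at h4
        rw [Pi.add_apply, ind_add]
        refine ⟨L.add_mem (h3.1 u) h4.1, ?_⟩
        rw [map_add, h4.2, add_zero]
        have h5 : π ((h1 (Function.update x i none)).ev u) =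
            f (Function.update (Function.update x i none) i (some u)) :=
          congrFun (congrArg Ind.ev h3.2) u
        rw [h5, Function.update_idem]
        congr 1
        rw [← hxi]; exact Function.update_eq_self i x

/-- The simple form of the lifting. -/
theorem exists_lift (S : Finset ι) {A B : Type} [AddCommGroup A] [AddCommGroup B]
    [DistribMulAction D.GG A] [DistribMulAction D.GG B] (π : A →+ B)
    (hπ : ∀ (b : D.GG) a, π (b • a) = b • π a) (hs : Function.Surjective π) {f : D.Pt → B}
    (hf : D.IsD S f) : ∃ g : D.Pt → A, D.IsD S g ∧ ∀ x, D.Supp S x → π (g x) = f x := by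
  obtain ⟨g, hg, hg'⟩ := exs D S A B π hπ ⊤ ⊤ (fun _ _ _ => AddSubgroup.mem_top _)
    (fun _ _ _ => AddSubgroup.mem_top _)
    (fun b _ => by obtain ⟨a, ha⟩ := hs b; exact ⟨a, AddSubgroup.mem_top _, ha⟩) f hf
    (fun _ _ => AddSubgroup.mem_top _)
  exact ⟨g, hg, fun x hx => (hg' x hx).2⟩

end Dat

end Pool.Agent.N993
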