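import Pool.Agent.N993.SmA

/-!
The fibres of the small system as products of classes of squares.
-/

set_option linter.unusedSectionVars false

namespace Pool.Agent.N993

open Finset Pool.Agent.H916R2 Pool.Agent.N992

/-- the quadratic characters -/
noncomputable def qn {ι : Type} (n : ι → ℕ) [∀ i, NeZero (n i)] :
    ∀ i, (cyc n).G i →* ℤˣ := fun i => qch (n i)

lemma exists_qch {k : ℕ} (hk : (k.Prime ∧ k % 2 = 1) ∨ k = 4) (ε : ℤˣ) :
    ∃ u : (ZMod k)ˣ, qch k u = ε := by
  rcases Int.units_eq_one_or ε with h | h
  · exact ⟨1, by rw [h, map_one]⟩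
  · rw [h]
    rcases hk with h2 | h2
    · have : Fact k.Prime := ⟨h2.1⟩
      have hF : ringChar (ZMod k) ≠ 2 := by
        rw [ZMod.ringChar_zmod_n]; have := h2.2; omega
      obtain ⟨a, ha⟩ := FiniteField.exists_nonsquare hF
      have ha0 : a ≠ 0 := by rintro rfl; exact ha IsSquare.zero
      refine ⟨Units.mk0 a ha0, ?_⟩
      rw [qch_eq_neg_one_iff (Or.inl h2)]
      exact ha
    · subst h2
      exact ⟨-1, by rw [qch_eq_neg_one_iff (Or.inr rfl)]; decide⟩

section

variable {ι : Type} [Fintype ι] [DecidableEq ι] {n : ι → ℕ} [∀ i, NeZero (n i)]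

lemma emb_none0 {x : (cyc n).Pt} {i : ι} (h : x i = none) : emb x i = 0 := by
  unfold emb; rw [h]

lemma emb_some0 {x : (cyc n).Pt} {i : ι} {u : (ZMod (n i))ˣ} (h : x i = some u) :
    emb x i = (u : ZMod (n i)) := by
  unfold emb; rw [h]

lemma emb_injective (hn : Adm' n) : Function.Injective (emb : (cyc n).Pt → ∀ i, ZMod (n i)) := by
  intro x y h
  funext i
  have h1 := congrFun h i
  have hf : Fact (1 < n i) := ⟨lt_trans (by norm_num) (one_lt_of (hn i))⟩
  cases hx : x i with
  | none =>
    cases hy : y i with
    | none => rfl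
    | some v =>
      rw [emb_none0 hx, emb_some0 hy] at h1
      exact absurd h1.symm (Units.ne_zero v)
  | some u =>
    cases hy : y i with
    | none =>
      rw [emb_some0 hx, emb_none0 hy] at h1
      exact absurd h1 (Units.ne_zero u)
    | some v =>
      rw [emb_some0 hx, emb_some0 hy] at h1
      rw [Units.ext h1]

/-- The fibres are products of classes of squares. -/
lemma sum_fib (hn : Adm' n) {Q : Type} [AddCommGroup Q] (F : (∀ i, ZMod (n i)) → Q)
    (v : ∀ i, (ZMod (n i))ˣ) (x' : ((cyc n).small (qn n)).Pt)
    (hv : ∀ i ε, x' i = some ε → qch (n i) (v i) = ε) :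
    Dat.smA (qn n) (fun x => F (emb x)) x' =
      ∑ y ∈ PA (fun i => (Hf (n i)).image (fun a => (v i : ZMod (n i)) * a))
        (univ.filter (fun i => x' i ≠ none)), F y := by
  classical
  unfold Dat.smA
  symm
  have himg : PA (fun i => (Hf (n i)).image (fun a => (v i : ZMod (n i)) * a))
      (univ.filter (fun i => x' i ≠ none)) =
      (univ.filter (fun x : (cyc n).Pt => Dat.mp (qn n) x = x')).image emb := by
    ext y
    rw [Pool.Agent.N992.mem_PA, mem_image]
    constructor
    · rintro ⟨h1, h2⟩
      have hyi : ∀ i, ∃ z : Option (ZMod (n i))ˣ, (match z with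
          | none => y i = 0 ∧ x' i = none
          | some u => y i = u ∧ x' i = some (qch (n i) u)) := by
        intro i
        cases hxi : x' i with
        | none => exact ⟨none, h2 i (by simp [hxi]), rfl⟩
        | some ε =>
          have h3 := h1 i (by simp [hxi])
          rw [mem_image] at h3
          obtain ⟨a, ha, hay⟩ := h3
          rw [Pool.Agent.N992.mem_Hf1] at ha
          obtain ⟨⟨w, hw⟩, ha2⟩ := ha
          refine ⟨some (v i * w), ?_, ?_⟩
          · rw [← hay, ← hw]; push_cast; rfl
          · rw [map_mul, hv i ε hxi, (qch_eq_one_iff (hn i) w).mpr (by rw [hw]; exact ha2), mul_one]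
      choose z hz using hyi
      refine ⟨z, ?_, ?_⟩
      · rw [mem_filter]
        refine ⟨mem_univ _, ?_⟩
        funext i
        have := hz i
        unfold Dat.mp
        cases hzi : z i with
        | none => rw [hzi] at this; rw [this.2]; rfl
        | some u => rw [hzi] at this; rw [this.2]; rfl
      · funext i
        have := hz i
        cases hzi : z i with
        | none => rw [hzi] at this; rw [this.1]; exact emb_none0 (x := z) hzi
        | some u => rw [hzi] at this; rw [this.1]; exact emb_some0 (x := z) hzi
    · rintro ⟨x, hx, rfl⟩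
      have hx2 := (mem_filter.mp hx).2
      refine ⟨fun i hi => ?_, fun i hi => ?_⟩
      · have hxi' := (mem_filter.mp hi).2
        cases hxi : x i with
        | none =>
          exfalso; apply hxi'
          rw [← hx2]; exact Dat.mp_none.mpr hxi
        | some u =>
          rw [emb_some0 hxi, mem_image]
          have h5 : x' i = some (qch (n i) u) := by
            rw [← hx2]; unfold Dat.mp; rw [hxi]; rfl
          have h6 := hv i _ h5
          refine ⟨(((v i)⁻¹ * u : (ZMod (n i))ˣ) : ZMod (n i)), ?_, ?_⟩
          · rw [Pool.Agent.N992.mem_Hf1]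
            refine ⟨Units.isUnit _, ?_⟩
            rw [← qch_eq_one_iff (hn i), map_mul, map_inv, h6]
            exact inv_mul_cancel _
          · rw [← Units.val_mul, mul_inv_cancel_left]
      · have hxi' : x' i = none := by
          by_contra h; exact hi (mem_filter.mpr ⟨mem_univ _, h⟩)
        apply emb_none0
        rw [← Dat.mp_none (χ := qn n), hx2]; exact hxi'
  rw [himg, sum_image (fun x _ y _ h => emb_injective hn h)]

end

end Pool.Agent.N993
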