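import Pool.Agent.N993.Good

/-!
Pairs with a nonresidue: auxiliary primes.
-/

set_option linter.unusedSectionVars false

namespace Pool.Agent.N993

open Finset Pool.Agent.H916R2 Pool.Agent.N992 Pool.Agent.N998

/-- `a` (or 2 if `a = 4`) is not a square modulo `p`. -/
def NR (p a : ℕ) : Prop := ¬ IsSquare ((((if a = 4 then 2 else a : ℕ)) : ℕ) : ZMod p)

section sub

variable {U : Finset ℕ}

lemma subtype_insert' {x : ℕ} (hx : x ∈ U) (M : Finset ℕ) :
    (insert x M).subtype (· ∈ U) = insert (⟨x, hx⟩ : Ix U) (M.subtype (· ∈ U)) := by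
  ext y
  rw [mem_subtype, mem_insert, mem_insert, mem_subtype, Subtype.ext_iff]

lemma subtype_singleton' {x : ℕ} (hx : x ∈ U) :
    ({x} : Finset ℕ).subtype (· ∈ U) = {(⟨x, hx⟩ : Ix U)} := by
  ext y
  rw [mem_subtype, mem_singleton, mem_singleton, Subtype.ext_iff]

lemma subtype_self : U.subtype (· ∈ U) = univ := by
  ext x; simp

end sub

section

variable {U : Finset ℕ} (hU : ∀ x ∈ U, (x.Prime ∧ x % 2 = 1) ∨ x = 4)
  [∀ i : Ix U, NeZero (nn U i)]

include hU

lemma qq_eq_neg_one {i j : Ix U} (hij : i ≠ j) (h : ¬ IsSquare (((i : ℕ) : ℕ) : ZMod (j : ℕ))) :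
    qq U j ((cyc (nn U)).α i j) = -1 := by
  change qch (j : ℕ) (unOf i j) = -1
  rw [qch_eq_neg_one_iff (hU j j.2), unOf_val (coprime_of (hU i i.2) (hU j j.2)
    (fun h => hij (Subtype.ext h)))]
  exact h

lemma qq_c_eq_one {i : Ix U} (hi : (i : ℕ) % 4 = 1) : qq U i ((cyc (nn U)).c i) = 1 := by
  change qch (i : ℕ) (-1) = 1
  have hp : (i : ℕ).Prime := by
    rcases hU i i.2 with h | h
    · exact h.1
    · omega
  rw [qch_eq_one_iff (hU i i.2), Units.val_neg, Units.val_one]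
  exact isSquare_neg_one hp hi

lemma qq_c_eq_neg_one {i : Ix U} (hi : ((i : ℕ).Prime ∧ (i : ℕ) % 4 = 3) ∨ (i : ℕ) = 4) :
    qq U i ((cyc (nn U)).c i) = -1 := by
  change qch (i : ℕ) (-1) = -1
  rw [qch_eq_neg_one_iff (hU i i.2), Units.val_neg, Units.val_one]
  rcases hi with h | h
  · exact not_isSquare_neg_one h.1 h.2
  · rw [h]; decide

lemma beta_eq_one {i : Ix U} (hi : (i : ℕ) ≠ 4) : (cyc (nn U)).β i = 1 := by
  funext j
  change (if (i : ℕ) = 4 then unOf 2 (j : ℕ) else 1) = (1 : (ZMod (j : ℕ))ˣ)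
  rw [if_neg hi]

lemma qq_nr {p a : Ix U} (hpa : a ≠ p) (h : NR p a) :
    qq U p ((cyc (nn U)).α a p) * qq U p ((cyc (nn U)).β a p) = -1 := by
  unfold NR at h
  by_cases h4 : (a : ℕ) = 4
  · rw [if_pos h4] at h
    have h1 : qq U p ((cyc (nn U)).α a p) = 1 := by
      apply qq_eq_one hU hpa
      rw [h4]
      exact ⟨2, by push_cast; norm_num⟩
    have h2 : qq U p ((cyc (nn U)).β a p) = -1 := by
      change qch (p : ℕ) (if (a : ℕ) = 4 then unOf 2 (p : ℕ) else 1) = -1
      rw [if_pos h4, qch_eq_neg_one_iff (hU p p.2), unOf_val (two_coprime_of (hU p p.2)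
        (fun h' => hpa (Subtype.ext (h4.trans h'.symm))))]
      exact h
    rw [h1, h2, one_mul]
  · rw [if_neg h4] at h
    rw [qq_eq_neg_one hU hpa h, beta_eq_one hU h4]
    change -1 * qch (p : ℕ) 1 = -1
    rw [map_one, mul_one]

/-- the conditions on the auxiliary prime `q` -/
lemma auxC_of {U0 : Finset ℕ} {p q : ℕ} (hpU : p ∈ U) (hqU : q ∈ U) (hU0 : U0 ⊆ U)
    (hp : p.Prime) (hp4 : p % 4 = 1) (hq : q.Prime) (hq8 : q % 8 = 7) (hpU0 : p ∉ U0)
    (hqU0 : q ∉ U0) (hneg : ∀ j ∈ U0, ((q : ℕ) : ZMod j) = -1)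
    (hnr : ¬ IsSquare ((q : ℕ) : ZMod p)) :
    Dat.AuxC (cyc (nn U)) (qq U) (U0.subtype (· ∈ U)) ⟨p, hpU⟩ ⟨q, hqU⟩ := by
  have hpq : p ≠ q := by rintro rfl; omega
  have hpF : Fact p.Prime := ⟨hp⟩
  have hqF : Fact q.Prime := ⟨hq⟩
  have hq4 : q % 4 = 3 := by omega
  have hjq : ∀ j : Ix U, j ∈ U0.subtype (· ∈ U) → j ≠ ⟨q, hqU⟩ := by
    rintro j hj rfl
    rw [mem_subtype] at hj
    exact hqU0 hj
  refine ⟨?_, ?_, ?_, ?_, ?_, ?_, ?_, ?_, ?_, ?_⟩
  · rw [mem_subtype]; exact hpU0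
  · rw [mem_subtype]; exact hqU0
  · intro h; exact hpq (congrArg Subtype.val h)
  · exact qq_c_eq_one hU hp4
  · exact qq_c_eq_neg_one hU (Or.inl ⟨hq, hq4⟩)
  · intro j hj
    apply qq_eq_one hU (hjq j hj)
    rw [mem_subtype] at hj
    rcases hU j j.2 with h | h
    · have : Fact (j : ℕ).Prime := ⟨h.1⟩
      have hqj := hneg j hj
      by_cases hj4 : (j : ℕ) % 4 = 1
      · rw [← ZMod.exists_sq_eq_prime_iff_of_mod_four_eq_one hj4 (by omega : q ≠ 2), hqj]
        exact isSquare_neg_one h.1 hj4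
      · have hj3 : (j : ℕ) % 4 = 3 := by omega
        have hne : q ≠ (j : ℕ) := fun e => hqU0 (e ▸ hj)
        rw [ZMod.exists_sq_eq_prime_iff_of_mod_four_eq_three hq4 hj3 hne, hqj]
        exact not_isSquare_neg_one h.1 hj3
    · rw [h]
      exact ⟨2, by push_cast; norm_num⟩
  · intro j hj
    refine qq_beta_eq_one hU (hjq j hj) fun _ => ?_
    have h2 : q ≠ 2 := by rintro rfl; omega
    have h3 := (ZMod.exists_sq_eq_two_iff (p := q) h2).mpr (Or.inr hq8)
    exact_mod_cast h3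
  · intro i hi
    change unOf q i = -1
    apply Units.ext
    rw [unOf_val (coprime_of (hU q hqU) (hU i i.2)
      (fun h => hjq i hi (Subtype.ext h.symm))), Units.val_neg, Units.val_one]
    rw [mem_subtype] at hi
    exact hneg i hi
  · exact qq_eq_neg_one hU (i := ⟨q, hqU⟩) (j := ⟨p, hpU⟩)
      (fun h => hpq (congrArg Subtype.val h).symm) hnr
  · apply beta_eq_one hU
    change q ≠ 4
    rintro rfl; omega

end

/-- odd primes congruent to 3 modulo 4, and 4 -/
def Three (a : ℕ) : Prop := (a.Prime ∧ a % 4 = 3) ∨ a = 4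

lemma Three.adm {a : ℕ} (h : Three a) : (a.Prime ∧ a % 2 = 1) ∨ a = 4 := by
  rcases h with h | h
  · left; exact ⟨h.1, by omega⟩
  · right; exact h

lemma Three.mod {a : ℕ} (h : Three a) : a % 4 ≠ 1 := by
  rcases h with h | h <;> omega

/-- existence of the auxiliary prime -/
lemma exists_aux {U0 : Finset ℕ} {p : ℕ} (hU0 : ∀ x ∈ U0, (x.Prime ∧ x % 2 = 1) ∨ x = 4)
    (hp : p.Prime) (hp4 : p % 4 = 1) (hpU0 : p ∉ U0) :
    ∃ q, q.Prime ∧ q % 8 = 7 ∧ q ∉ U0 ∧ (∀ j ∈ U0, ((q : ℕ) : ZMod j) = -1) ∧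
      ¬ IsSquare ((q : ℕ) : ZMod p) := by
  have hp2 : p ≠ 2 := by omega
  have h2p : Nat.Coprime 2 p := (Nat.coprime_primes Nat.prime_two hp).mpr (Ne.symm hp2)
  have hpad : (p.Prime ∧ p % 2 = 1) ∨ p = 4 := Or.inl ⟨hp, by omega⟩
  obtain ⟨q, hqB, hq, hqA, hqp⟩ := exists_aux_prime (A := 8 * ∏ x ∈ U0, x)
    (p := p) (by
      refine Nat.mul_ne_zero (by norm_num) ?_
      rw [prod_ne_zero_iff]
      intro x hx
      have := one_lt_of (hU0 x hx); omega) hp hp2 (by
      refine Nat.Coprime.mul_left ?_ ?_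
      · exact Nat.Coprime.pow_left 3 h2p
      · exact Nat.Coprime.prod_left fun x hx =>
          coprime_of (hU0 x hx) hpad (fun e => hpU0 (e ▸ hx))) (∑ x ∈ U0, x)
  refine ⟨q, hq, mod_eight (cast_eq_neg_one_of_dvd (dvd_mul_right 8 _) hqA), ?_, ?_, hqp⟩
  · intro h
    have := single_le_sum (f := fun x : ℕ => x) (fun _ _ => Nat.zero_le _) h
    beta_reduce at this
    omega
  · intro j hj
    refine cast_eq_neg_one_of_dvd (Dvd.dvd.mul_left ?_ 8) hqA
    exact dvd_prod_of_mem (fun x => x) hj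

/-- Transfer between pairs with nonresidues. -/
theorem good_pair_transfer {p a b : ℕ} (hp : p.Prime) (hp4 : p % 4 = 1) (ha : Three a)
    (hb : Three b) (hna : NR p a) (hnb : NR p b) (h : Good {p, b}) : Good {p, a} := by
  classical
  have hpa : p ≠ a := by rintro rfl; exact ha.mod hp4
  have hpb : p ≠ b := by rintro rfl; exact hb.mod hp4
  set U0 : Finset ℕ := {a, b} with hU0d
  have hU0 : ∀ x ∈ U0, (x.Prime ∧ x % 2 = 1) ∨ x = 4 := by
    intro x hx
    rw [hU0d, mem_insert, mem_singleton] at hx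
    rcases hx with rfl | rfl
    · exact ha.adm
    · exact hb.adm
  have hpU0 : p ∉ U0 := by
    rw [hU0d, mem_insert, mem_singleton, not_or]
    exact ⟨hpa, hpb⟩
  obtain ⟨q, hq, hq8, hqU0, hneg, hnr⟩ := exists_aux hU0 hp hp4 hpU0
  set U : Finset ℕ := insert p (insert q U0) with hUd
  have hU : ∀ x ∈ U, (x.Prime ∧ x % 2 = 1) ∨ x = 4 := by
    intro x hx
    rw [hUd, mem_insert, mem_insert] at hx
    rcases hx with rfl | rfl | hx
    · left; exact ⟨hp, by omega⟩
    · left; exact ⟨hq, by omega⟩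
    · exact hU0 x hx
  have hpU : p ∈ U := mem_insert_self _ _
  have hqU : q ∈ U := mem_insert_of_mem (mem_insert_self _ _)
  have hU0U : U0 ⊆ U := (subset_insert _ _).trans (subset_insert _ _)
  have ha0 : a ∈ U0 := mem_insert_self _ _
  have hb0 : b ∈ U0 := mem_insert_of_mem (mem_singleton_self _)
  refine good_core (U := U) hU (S := {p, a}) ?_ {{p, b}} ?_ ?_
  · intro x hx
    rw [mem_insert, mem_singleton] at hx
    rcases hx with rfl | rfl
    · exact hpU
    · exact hU0U ha0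
  · intro T hT
    rw [mem_singleton] at hT
    subst hT
    refine ⟨?_, h⟩
    intro x hx
    rw [mem_insert, mem_singleton] at hx
    rcases hx with rfl | rfl
    · exact hpU
    · exact hU0U hb0
  · intro _ ν hν hty hsm hT
    have hfree : ∀ i, (cyc (nn U)).c i ≠ 1 := fun i => neg_one_ne_one (hU i i.2)
    have haux := auxC_of hU hpU hqU hU0U hp hp4 hq hq8 hpU0 hqU0 hneg hnr
    have hun : (univ : Finset (Ix U)) = insert ⟨p, hpU⟩ (insert ⟨q, hqU⟩ (U0.subtype (· ∈ U))) := by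
      rw [← subtype_insert' hqU, ← subtype_insert' hpU, ← hUd, subtype_self]
    have h1 := hT _ (mem_singleton_self _)
    rw [subtype_insert' hpU, subtype_singleton' (hU0U hb0)] at h1
    rw [subtype_insert' hpU, subtype_singleton' (hU0U ha0)]
    rw [hun] at hν hty hsm
    refine (Dat.pair_iff hfree haux hν hty (fun z hz => Dat.small_even (by norm_num) hsm hz)
      (a := ⟨a, hU0U ha0⟩) (b := ⟨b, hU0U hb0⟩) ?_ ?_ ?_ ?_ ?_ ?_ ?_ ?_).mpr h1
    · rw [mem_subtype]; exact ha0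
    · exact qq_c_eq_neg_one hU ha
    · exact card_kernel_odd ha
    · exact qq_nr hU (fun h => hpa (congrArg Subtype.val h).symm) hna
    · rw [mem_subtype]; exact hb0
    · exact qq_c_eq_neg_one hU hb
    · exact card_kernel_odd hb
    · exact qq_nr hU (fun h => hpb (congrArg Subtype.val h).symm) hnb

/-- Two primes congruent to 1 modulo 4 which are nonresidues modulo each other. -/
theorem good_two_primes {p r a b : ℕ} (hp : p.Prime) (hp4 : p % 4 = 1) (hr : r.Prime)
    (hr4 : r % 4 = 1) (hpr : p ≠ r) (hrp : ¬ IsSquare ((r : ℕ) : ZMod p)) (ha : Three a)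
    (hna : NR p a) (hga : Good {p, a}) (hb : Three b) (hnb : NR r b) (hgb : Good {r, b}) :
    Good {p, r} := by
  classical
  have hpad : (p.Prime ∧ p % 2 = 1) ∨ p = 4 := Or.inl ⟨hp, by omega⟩
  have hrad : (r.Prime ∧ r % 2 = 1) ∨ r = 4 := Or.inl ⟨hr, by omega⟩
  have hpa : p ≠ a := by rintro rfl; exact ha.mod hp4
  have hra : r ≠ a := by rintro rfl; exact ha.mod hr4
  -- the second auxiliary prime
  obtain ⟨s, hs, hs8, hs0, hsneg, hsr⟩ := exists_aux (U0 := {p, a}) (p := r) (by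
    intro x hx
    rw [mem_insert, mem_singleton] at hx
    rcases hx with rfl | rfl
    · exact hpad
    · exact ha.adm) hr hr4 (by
    rw [mem_insert, mem_singleton, not_or]
    exact ⟨hpr.symm, hra⟩)
  have hs4 : s % 4 = 3 := by omega
  have hsT : Three s := Or.inl ⟨hs, hs4⟩
  have hs4' : s ≠ 4 := by rintro rfl; omega
  have hr4' : r ≠ 4 := by rintro rfl; omega
  have hsp : s ≠ p := fun e => hs0 (e ▸ mem_insert_self _ _)
  have hsa : s ≠ a := fun e => hs0 (e ▸ mem_insert_of_mem (mem_singleton_self _))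
  have hsr' : s ≠ r := by rintro rfl; omega
  have hgs : Good {r, s} := by
    refine good_pair_transfer hr hr4 hsT hb ?_ hnb hgb
    unfold NR
    rw [if_neg hs4']
    exact hsr
  have hsqp : IsSquare ((s : ℕ) : ZMod p) := by
    rw [hsneg p (mem_insert_self _ _)]
    exact isSquare_neg_one hp hp4
  set U0 : Finset ℕ := {a, r, s} with hU0d
  have hU0 : ∀ x ∈ U0, (x.Prime ∧ x % 2 = 1) ∨ x = 4 := by
    intro x hx
    rw [hU0d, mem_insert, mem_insert, mem_singleton] at hx
    rcases hx with rfl | rfl | rfl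
    · exact ha.adm
    · exact hrad
    · exact hsT.adm
  have hpU0 : p ∉ U0 := by
    rw [hU0d, mem_insert, mem_insert, mem_singleton, not_or, not_or]
    exact ⟨hpa, hpr, hsp.symm⟩
  obtain ⟨q, hq, hq8, hqU0, hneg, hnr⟩ := exists_aux hU0 hp hp4 hpU0
  set U : Finset ℕ := insert p (insert q U0) with hUd
  have hU : ∀ x ∈ U, (x.Prime ∧ x % 2 = 1) ∨ x = 4 := by
    intro x hx
    rw [hUd, mem_insert, mem_insert] at hx
    rcases hx with rfl | rfl | hx
    · exact hpad
    · left; exact ⟨hq, by omega⟩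
    · exact hU0 x hx
  have hpU : p ∈ U := mem_insert_self _ _
  have hqU : q ∈ U := mem_insert_of_mem (mem_insert_self _ _)
  have hU0U : U0 ⊆ U := (subset_insert _ _).trans (subset_insert _ _)
  have ha0 : a ∈ U0 := mem_insert_self _ _
  have hr0 : r ∈ U0 := mem_insert_of_mem (mem_insert_self _ _)
  have hs0 : s ∈ U0 := mem_insert_of_mem (mem_insert_of_mem (mem_singleton_self _))
  have hne : ∀ {x y : ℕ} {hx : x ∈ U} {hy : y ∈ U}, x ≠ y → (⟨x, hx⟩ : Ix U) ≠ ⟨y, hy⟩ :=
    fun h e => h (congrArg Subtype.val e)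
  refine good_core (U := U) hU (S := {p, r}) ?_ {{p, a}, {r, s}} ?_ ?_
  · intro x hx
    rw [mem_insert, mem_singleton] at hx
    rcases hx with rfl | rfl
    · exact hpU
    · exact hU0U hr0
  · intro T hT
    rw [mem_insert, mem_singleton] at hT
    rcases hT with rfl | rfl
    · refine ⟨?_, hga⟩
      intro x hx
      rw [mem_insert, mem_singleton] at hx
      rcases hx with rfl | rfl
      · exact hpU
      · exact hU0U ha0
    · refine ⟨?_, hgs⟩
      intro x hx
      rw [mem_insert, mem_singleton] at hx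
      rcases hx with rfl | rfl
      · exact hU0U hr0
      · exact hU0U hs0
  · intro _ ν hν hty hsm hT
    have hfree : ∀ i, (cyc (nn U)).c i ≠ 1 := fun i => neg_one_ne_one (hU i i.2)
    have haux := auxC_of hU hpU hqU hU0U hp hp4 hq hq8 hpU0 hqU0 hneg hnr
    have hun : (univ : Finset (Ix U)) = insert ⟨p, hpU⟩ (insert ⟨q, hqU⟩ (U0.subtype (· ∈ U))) := by
      rw [← subtype_insert' hqU, ← subtype_insert' hpU, ← hUd, subtype_self]
    have h1 := hT _ (mem_insert_self _ _)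
    have h2 := hT _ (mem_insert_of_mem (mem_singleton_self _))
    rw [subtype_insert' hpU, subtype_singleton' (hU0U ha0)] at h1
    rw [subtype_insert' (hU0U hr0), subtype_singleton' (hU0U hs0)] at h2
    rw [subtype_insert' hpU, subtype_singleton' (hU0U hr0)]
    rw [hun] at hν hty hsm
    refine Dat.two_primes hfree haux hν hty (fun z hz => Dat.small_even (by norm_num) hsm hz)
      (a := ⟨a, hU0U ha0⟩) ?_ ?_ ?_ ?_ h1 (r := ⟨r, hU0U hr0⟩) (s := ⟨s, hU0U hs0⟩) ?_ ?_ ?_ ?_ ?_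
      ?_ ?_ ?_ ?_ ?_ h2
    · rw [mem_subtype]; exact ha0
    · exact qq_c_eq_neg_one hU ha
    · exact card_kernel_odd ha
    · exact qq_nr hU (hne hpa.symm) hna
    · exact hne hsr'.symm
    · rw [mem_subtype]; exact hr0
    · rw [mem_subtype]; exact hs0
    · exact qq_c_eq_one hU hr4
    · exact qq_c_eq_neg_one hU hsT
    · exact qq_eq_neg_one hU (hne hpr.symm) hrp
    · exact beta_eq_one hU hr4'
    · exact qq_eq_one hU (hne hsp) hsqp
    · exact beta_eq_one hU hs4'
    · exact qq_eq_neg_one hU (hne hsr') hsr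

end Pool.Agent.N993
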