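import Pool.Agent.N993.Small

/-!
Parity in the small system.
-/

set_option linter.unusedSectionVars false

namespace Pool.Agent.N993

open Finset

namespace Dat

variable {ι : Type} [DecidableEq ι] {D : Dat ι} {χ : ∀ i, D.G i →* ℤˣ}

lemma act_mulSingle {b : D.GG} {x : D.Pt} {i : ι} {v : D.G i} (hb : b = Pi.mulSingle i v) {u : D.G i}
    (hx : x i = some u) : D.act b x = Function.update (Function.update x i none) i (some (v * u)) := by
  subst hb
  rw [Function.update_idem]
  funext j
  by_cases hj : j = i
  · subst hj
    rw [Function.update_self, act_apply_some hx, Pi.mulSingle_eq_same]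
  · rw [Function.update_of_ne hj]
    unfold act
    rw [Pi.mulSingle_eq_of_ne hj]
    cases x j <;> simp

lemma par {N : Finset ι} {ν : (D.small χ).Pt → ℤ} (hν : (D.small χ).IsD N ν) : ∀ (k : ℕ)
    (x : (D.small χ).Pt), (D.small χ).Supp N x → (N.filter (fun i => x i ≠ none)).card ≤ k →
    ∀ b : (D.small χ).GG, (2 : ℤ) ∣ ν ((D.small χ).act b x) - ν x := by
  intro k
  induction k using Nat.strong_induction_on with
  | _ k ih =>
    have single : ∀ (x : (D.small χ).Pt), (D.small χ).Supp N x →
        (N.filter (fun i => x i ≠ none)).card ≤ k → ∀ (i : ι) (v : ℤˣ),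
        (2 : ℤ) ∣ ν ((D.small χ).act (Pi.mulSingle i v : (D.small χ).GG) x) - ν x := by
      intro x hx hk i v
      cases hxi : x i with
      | none =>
        rw [act_eq_self, sub_self]
        · exact dvd_zero 2
        · intro j hj
          refine Pi.mulSingle_eq_of_ne (M := (D.small χ).G) ?_ v
          rintro rfl
          exact hj hxi
      | some u =>
        have hiN : i ∈ N := by
          by_contra h
          rw [hx i h] at hxi; cases hxi
        set x0 := Function.update x i none with hx0
        have hx0S : (D.small χ).Supp N x0 := hx.update hiN none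
        have hx0i : x0 i = none := Function.update_self ..
        have hlt : (N.filter (fun j => x0 j ≠ none)).card < (N.filter (fun j => x j ≠ none)).card := by
          apply card_lt_card
          rw [ssubset_iff_of_subset]
          · refine ⟨i, mem_filter.mpr ⟨hiN, by rw [hxi]; simp⟩, ?_⟩
            intro h
            exact (mem_filter.mp h).2 hx0i
          · intro j hj
            rw [mem_filter] at hj ⊢
            refine ⟨hj.1, ?_⟩
            by_cases hji : j = i
            · exfalso; rw [hji] at hj; exact hj.2 hx0i
            · rw [hx0, Function.update_of_ne hji] at hj; exact hj.2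
        have hP := ih _ (lt_of_lt_of_le hlt hk) x0 hx0S le_rfl
        have hrel := hν i hiN x0 hx0S hx0i
        have h2 : (univ : Finset ℤˣ) = {1, -1} := by decide
        have hrel' : ν (Function.update x0 i (some 1)) + ν (Function.update x0 i (some (-1))) =
            ν ((D.small χ).act ((D.small χ).α i) x0) - ν ((D.small χ).act ((D.small χ).β i) x0) := by
          rw [← sum_pair (f := fun u : ℤˣ => ν (Function.update x0 i (some u)))
            (by decide : (1 : ℤˣ) ≠ -1), ← h2]
          exact hrel
        have hα := hP ((D.small χ).α i)
        have hβ := hP ((D.small χ).β i)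
        have hx1 : x = Function.update x0 i (some u) := by
          rw [hx0, Function.update_idem, ← hxi, Function.update_eq_self]
        have hx2 : (D.small χ).act (Pi.mulSingle i v : (D.small χ).GG) x =
            Function.update x0 i (some (v * u)) := act_mulSingle rfl hxi
        rw [hx2]
        conv_rhs => rw [hx1]
        have hpar : (2 : ℤ) ∣ ν (Function.update x0 i (some 1)) -
            ν (Function.update x0 i (some (-1))) := by omega
        have hu : ∀ w : ℤˣ, w = 1 ∨ w = -1 := Int.units_eq_one_or
        rcases hu (v * u) with h | h <;> rcases hu u with h' | h' <;> rw [h, h'] <;> omega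
    intro x hx hk b
    have key : ∀ U : Finset ι,
        (2 : ℤ) ∣ ν ((D.small χ).act (fun i => if i ∈ U then b i else 1) x) - ν x := by
      intro U
      induction U using Finset.induction_on with
      | empty =>
        rw [act_eq_self (fun i _ => if_neg (notMem_empty i)), sub_self]
        exact dvd_zero 2
      | insert i U hi ihU =>
        set b' : (D.small χ).GG := fun j => if j ∈ U then b j else 1 with hb'
        have hmul : (fun j => if j ∈ insert i U then b j else 1 : (D.small χ).GG) =
            (Pi.mulSingle i (b i) : (D.small χ).GG) * b' := by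
          funext j
          rw [Pi.mul_apply]
          by_cases hj : j = i
          · subst hj
            rw [if_pos (mem_insert_self _ _), Pi.mulSingle_eq_same, hb']
            simp only [if_neg hi, mul_one]
          · rw [Pi.mulSingle_eq_of_ne hj, one_mul, hb']
            by_cases hjU : j ∈ U
            · rw [if_pos (mem_insert_of_mem hjU)]
              simp only [if_pos hjU]
            · rw [if_neg (by rw [mem_insert, not_or]; exact ⟨hj, hjU⟩)]
              simp only [if_neg hjU]
        rw [hmul, ← act_act]
        have hfil : N.filter (fun i => (D.small χ).act b' x i ≠ none) =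
            N.filter (fun i => x i ≠ none) :=
          filter_congr fun i _ => not_congr act_eq_none
        have h1 := single ((D.small χ).act b' x) (hx.act b') (by rw [hfil]; exact hk) i (b i)
        have h2 := dvd_add h1 ihU
        have e : ν ((D.small χ).act (Pi.mulSingle i (b i) : (D.small χ).GG)
            ((D.small χ).act b' x)) - ν ((D.small χ).act b' x) +
            (ν ((D.small χ).act b' x) - ν x) =
            ν ((D.small χ).act (Pi.mulSingle i (b i) : (D.small χ).GG)
            ((D.small χ).act b' x)) - ν x := by ring
        rw [e] at h2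
        exact h2
    have h3 := key N
    rwa [act_congr (b' := b) hx (fun i hi => if_pos hi)] at h3

/-- In the small system `T b - 1` maps everything of type `θ` to images of `1 + θ c`. -/
theorem small_coh {θ : ℤ} (hθ : θ * θ = 1) {N : Finset ι} {ν : (D.small χ).Pt → ℤ}
    (hν : (D.small χ).IsD N ν) (hty : (D.small χ).Ty θ N ν) (b : (D.small χ).GG) :
    (D.small χ).Img θ N ((D.small χ).T b ν - ν) := by
  set τ : (D.small χ).Pt → ℤ := fun x => ((D.small χ).T b ν x - ν x) / 2 with hτ
  have h2 : (D.small χ).EqS N ((2 : ℤ) • τ) ((D.small χ).T b ν - ν) := by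
    intro x hx
    have h1 := par hν _ x hx le_rfl b
    rw [Pi.smul_apply, smul_eq_mul, Pi.sub_apply, hτ]
    exact Int.mul_ediv_cancel' h1
  have hD2 : (D.small χ).IsD N ((2 : ℤ) • τ) := h2.symm.isD ((hν.T b).sub hν)
  have hT2 : (D.small χ).Ty θ N ((2 : ℤ) • τ) := ((hty.T b).sub hty).congr h2.symm
  have hD : (D.small χ).IsD N τ := by
    intro i hi x hx h0
    have h1 := hD2 i hi x hx h0
    have e1 : ∑ u, ((2 : ℤ) • τ) (Function.update x i (some u)) =
        2 * ∑ u, τ (Function.update x i (some u)) := by
      rw [mul_sum]; rfl
    have e2 : (D.small χ).α i • ((2 : ℤ) • τ) ((D.small χ).act ((D.small χ).α i) x) -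
        (D.small χ).β i • ((2 : ℤ) • τ) ((D.small χ).act ((D.small χ).β i) x) =
        2 * ((D.small χ).α i • τ ((D.small χ).act ((D.small χ).α i) x) -
        (D.small χ).β i • τ ((D.small χ).act ((D.small χ).β i) x)) := by
      rw [mul_sub]; rfl
    exact mul_left_cancel₀ two_ne_zero (e1.symm.trans (h1.trans e2))
  have hT : (D.small χ).Ty θ N τ := by
    intro x hx
    have := hT2 x hx
    rw [T_zsmul, Pi.smul_apply, Pi.smul_apply, smul_comm θ] at this
    simp only [smul_eq_mul] at this ⊢
    exact mul_left_cancel₀ two_ne_zero this
  exact (hT.two hθ hD).congr h2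

end Dat

end Pool.Agent.N993
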