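import Pool.Agent.N993.Step

/-!
The inductive step.
-/

set_option linter.unusedSectionVars false

namespace Pool.Agent.N993

open Finset

namespace Dat

variable {ι : Type} [DecidableEq ι] {D : Dat ι} {χ : ∀ i, D.G i →* ℤˣ}

lemma isD_ev {B : Type} [AddCommGroup B] [DistribMulAction (D.small χ).GG B] {S : Finset ι} {i : ι}
    {h : (D.small χ).Pt → (D.small χ).Ind i B} (hh : (D.small χ).IsD S h)
    (hα : ∀ j ∈ S, χ i (D.α j i) = 1) (hβ : ∀ j ∈ S, χ i (D.β j i) = 1) (ε : ℤˣ) :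
    (D.small χ).IsD S (fun z => (h z).ev ε) := by
  intro j hj z hz h0
  have h1 := congrFun (congrArg Ind.ev (hh j hj z hz h0)) ε
  rw [ind_sum, ind_sub, ind_smul, ind_smul] at h1
  have e1 : (D.small χ).α j i * ε = ε := by
    change χ i (D.α j i) * ε = ε
    rw [hα j hj, one_mul]
  have e2 : (D.small χ).β j i * ε = ε := by
    change χ i (D.β j i) * ε = ε
    rw [hβ j hj, one_mul]
  rw [e1, e2] at h1
  exact h1

lemma sum_units (g : ℤˣ → ℤ) : ∑ u : ℤˣ, g u = g 1 + g (-1) := by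
  have h2 : (univ : Finset ℤˣ) = {1, -1} := by decide
  rw [h2, sum_pair (by decide)]

lemma act_comm (a b : D.GG) (x : D.Pt) : D.act a (D.act b x) = D.act b (D.act a x) := by
  rw [act_act, act_act, mul_comm]

lemma act_c_c (x : D.Pt) : D.act D.c (D.act D.c x) = x := by
  rw [act_act]
  have : D.c * D.c = 1 := by funext i; exact D.hc i
  rw [this, act_one]

variable [Fintype ι]

/-- The part of the step in the small system. -/
lemma step_small {N0 : Finset ι} {p q : ι} (hp : p ∉ N0) (hq : q ∉ N0) (hpq : p ≠ q)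
    (hpc : χ p (D.c p) = 1) (hqc : χ q (D.c q) = -1)
    (hαp : ∀ j ∈ N0, χ p (D.α j p) = 1) (hβp : ∀ j ∈ N0, χ p (D.β j p) = 1)
    (hαq : ∀ j ∈ N0, χ q (D.α j q) = 1) (hβq : ∀ j ∈ N0, χ q (D.β j q) = 1)
    (hq1 : ∀ i ∈ N0, D.α q i = D.c i) (hq2 : χ p (D.α q p) = -1) (hq3 : D.β q = 1)
    (b : D.GG) (hb : ∀ i ∈ N0, D.α p i = b i * b i) (hp3 : D.β p = 1)
    {θ : ℤ} (hθ : θ * θ = 1) {ε : ℤ} (hε : 2 * ε = 1 + θ) {f κ : D.Pt → ℤ} (hκ : D.IsD N0 κ)
    (hκ' : D.EqS N0 (D.T b f - f) (κ + θ • D.T D.c κ))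
    (hsm : (D.small χ).Img θ (insert p (insert q N0)) (sm χ f)) :
    (D.small χ).Img (-θ) N0 (sm χ (ns χ p 1 (ns χ q 1 (D.un q (D.un p f))) +
      ε • ns χ p 1 (D.un p f) - θ • (D.T b κ + κ))) := by
  have hθ' : (-θ) * (-θ) = 1 := by rw [neg_mul_neg, hθ]
  have hpN1 : p ∉ insert q N0 := by rw [mem_insert, not_or]; exact ⟨hpq, hp⟩
  have hN0N1 : N0 ⊆ insert q N0 := subset_insert _ _
  have hN1N : insert q N0 ⊆ insert p (insert q N0) := subset_insert _ _
  have hN0N := hN0N1.trans hN1N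
  obtain ⟨g, hg, hg'⟩ := hsm
  have hg1 : ∀ z, (D.small χ).Supp (insert p (insert q N0)) z →
      sm χ f z = g z + θ * g ((D.small χ).act (D.small χ).c z) := fun z hz => hg' z hz
  set Gp : (D.small χ).Pt → ℤ := fun z => g (Function.update z p (some 1)) with hGp
  set Gm : (D.small χ).Pt → ℤ := fun z => g (Function.update z p (some (-1))) with hGm
  set Gpp : (D.small χ).Pt → ℤ := fun z =>
    g (Function.update (Function.update z q (some 1)) p (some 1)) with hGpp
  set Gpm : (D.small χ).Pt → ℤ := fun z =>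
    g (Function.update (Function.update z q (some (-1))) p (some 1)) with hGpm
  have hGpD : (D.small χ).IsD N0 Gp := by
    have h1 : (D.small χ).IsD (insert p N0) g := hg.mono (insert_subset_insert _ hN0N1)
    exact isD_ev (h1.un hp) hαp hβp 1
  have hGppD : (D.small χ).IsD N0 Gpp :=
    isD_ev (isD_ev ((hg.un hpN1).un hq) hαq hβq 1) hαp hβp 1
  have hcp : (D.small χ).c p = 1 := hpc
  have hcq : (D.small χ).c q = -1 := hqc
  -- sums over the fibres
  have hρ : ∀ z, (D.small χ).Supp N0 z → sm χ (ns χ p 1 (D.un p f)) z =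
      Gp z + θ * Gp ((D.small χ).act (D.small χ).c z) := by
    intro z hz
    have e1 : sm χ (ns χ p 1 (D.un p f)) z = sm χ f (Function.update z p (some 1)) :=
      sm_wsum p 1 f (hz p hp)
    rw [e1, hg1 _ ((hz.mono hN0N1).update_insert _), act_update_some, hcp, one_mul]
  have hE : ∀ z, (D.small χ).Supp N0 z →
      sm χ (ns χ p 1 (ns χ q 1 (D.un q (D.un p f)))) z =
      Gpp z + θ * Gpm ((D.small χ).act (D.small χ).c z) := by
    intro z hz
    have e0 : ns χ p 1 (ns χ q 1 (D.un q (D.un p f))) = ns χ q 1 (D.un q (ns χ p 1 (D.un p f))) := by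
      funext x; exact wsum_swap _ _ f x
    have e1 : sm χ (ns χ q 1 (D.un q (ns χ p 1 (D.un p f)))) z =
        sm χ (ns χ p 1 (D.un p f)) (Function.update z q (some 1)) :=
      sm_wsum q 1 _ (hz q hq)
    have e2 : sm χ (ns χ p 1 (D.un p f)) (Function.update z q (some 1)) =
        sm χ f (Function.update (Function.update z q (some 1)) p (some 1)) :=
      sm_wsum p 1 f (by rw [Function.update_of_ne hpq]; exact hz p hp)
    rw [e0, e1, e2, hg1 _ ((hz.update_insert _).update_insert _), act_update_some,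
      act_update_some, hcp, hcq, one_mul, mul_one]
  -- the relations
  have hrq : ∀ z, (D.small χ).Supp N0 z →
      Gpp z + Gpm z = Gm ((D.small χ).act (D.small χ).c z) - Gp z := by
    intro z hz
    have h1 := hg q (mem_insert_of_mem (mem_insert_self _ _)) (Function.update z p (some 1))
      ((hz.mono hN0N1).update_insert _)
      (by rw [Function.update_of_ne hpq.symm]; exact hz q hq)
    have h2 : ∑ u : ℤˣ, g (Function.update (Function.update z p (some 1)) q (some u)) =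
        Gpp z + Gpm z := by
      rw [sum_units, Function.update_comm hpq, Function.update_comm hpq]
    have h3 : (D.small χ).act ((D.small χ).α q) (Function.update z p (some 1)) =
        Function.update ((D.small χ).act (D.small χ).c z) p (some (-1)) := by
      rw [act_update_some]
      have e1 : (D.small χ).α q p * 1 = -1 := by
        change χ p (D.α q p) * 1 = -1
        rw [hq2, mul_one]
      have e2 : (D.small χ).act ((D.small χ).α q) z = (D.small χ).act (D.small χ).c z :=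
        act_congr hz fun i hi => by
          change χ i (D.α q i) = χ i (D.c i)
          rw [hq1 i hi]
      rw [e1, e2]
    have h4 : (D.small χ).act ((D.small χ).β q) (Function.update z p (some 1)) =
        Function.update z p (some 1) := by
      apply act_eq_self
      intro i _
      change χ i (D.β q i) = 1
      rw [hq3, Pi.one_apply, map_one]
    rw [← h2]
    refine h1.trans ?_
    rw [h3, h4]; rfl
  have hrp : ∀ z, (D.small χ).Supp N0 z → Gp z + Gm z = 0 := by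
    intro z hz
    have h1 := hg p (mem_insert_self _ _) z (hz.mono hN0N) (hz p hp)
    have h2 : ∑ u : ℤˣ, g (Function.update z p (some u)) = Gp z + Gm z := sum_units _
    have h3 : (D.small χ).act ((D.small χ).α p) z = z := act_supp hz fun i hi => by
      change χ i (D.α p i) = 1
      rw [hb i hi, map_mul, Int.units_mul_self]
    have h4 : (D.small χ).act ((D.small χ).β p) z = z := act_supp hz fun i _ => by
      change χ i (D.β p i) = 1
      rw [hp3, Pi.one_apply, map_one]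
    rw [← h2]
    refine h1.trans ?_
    rw [h3, h4]
    exact sub_self _
  -- the correction
  set ν : (D.small χ).Pt → ℤ := sm χ κ - ((D.small χ).T (mg χ b) g - g) with hν
  have hνD : (D.small χ).IsD N0 ν :=
    (sm_isD hκ).sub (((hg.mono hN0N).T _).sub (hg.mono hN0N))
  have hk1 : ∀ z, (D.small χ).Supp N0 z → sm χ f ((D.small χ).act (mg χ b) z) - sm χ f z =
      sm χ κ z + θ * sm χ κ ((D.small χ).act (D.small χ).c z) := by
    intro z hz
    have h1 := sm_congr hκ' z hz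
    rw [sm_sub, sm_add, sm_zsmul, sm_T, sm_T] at h1
    exact h1
  have hνT : (D.small χ).Ty (-θ) N0 ν := by
    apply Ty.of_add_eq_zero hθ
    intro z hz
    change (sm χ κ z - (g ((D.small χ).act (mg χ b) z) - g z)) +
      θ * (sm χ κ ((D.small χ).act (D.small χ).c z) -
        (g ((D.small χ).act (mg χ b) ((D.small χ).act (D.small χ).c z)) -
          g ((D.small χ).act (D.small χ).c z))) = 0
    have h1 := hk1 z hz
    rw [hg1 z (hz.mono hN0N), hg1 _ ((hz.mono hN0N).act _), act_comm (D.small χ).c] at h1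
    linear_combination -h1
  have A1 : (D.small χ).Img (-θ) N0 ((Gpp + (1 - ε) • Gp) +
      (-θ) • (D.small χ).T (D.small χ).c (Gpp + (1 - ε) • Gp)) :=
    ⟨_, hGppD.add (hGpD.zsmul _), EqS.refl _⟩
  have A2 := small_coh hθ' hνD hνT (mg χ b)
  have A3 := hνT.two hθ' hνD
  refine (A1.sub ((A2.add A3).zsmul θ)).congr ?_
  intro z hz
  rw [sm_sub, sm_add, sm_zsmul, sm_zsmul, sm_add, sm_T]
  have hzc := hz.act (D.small χ).c
  have hbb : (D.small χ).act (mg χ b) ((D.small χ).act (mg χ b) z) = z := by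
    rw [act_act]
    apply act_supp hz
    intro i hi
    change χ i (b i) * χ i (b i) = 1
    rw [Int.units_mul_self]
  change (Gpp z + (1 - ε) * Gp z) + (-θ) * (Gpp ((D.small χ).act (D.small χ).c z) +
      (1 - ε) * Gp ((D.small χ).act (D.small χ).c z)) -
      θ * ((sm χ κ ((D.small χ).act (mg χ b) z) -
        (g ((D.small χ).act (mg χ b) ((D.small χ).act (mg χ b) z)) -
          g ((D.small χ).act (mg χ b) z)) - (sm χ κ z - (g ((D.small χ).act (mg χ b) z) - g z))) +
        2 * (sm χ κ z - (g ((D.small χ).act (mg χ b) z) - g z))) =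
    sm χ (ns χ p 1 (ns χ q 1 (D.un q (D.un p f)))) z + ε * sm χ (ns χ p 1 (D.un p f)) z -
      θ * (sm χ κ ((D.small χ).act (mg χ b) z) + sm χ κ z)
  rw [hE z hz, hρ z hz, hbb]
  have h1 := hrq _ hzc
  rw [act_c_c] at h1
  have h2 := hrp z hz
  linear_combination (-θ) * h1 - θ * h2 - Gp z * hε

/-- The inductive step. -/
theorem step (hfree : ∀ i, D.c i ≠ 1) {S0 N0 : Finset ι} (hS : S0 ⊆ N0) {p q : ι}
    (hp : p ∉ N0) (hq : q ∉ N0) (hpq : p ≠ q)
    (hpc : χ p (D.c p) = 1) (hqc : χ q (D.c q) = -1)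
    (hαp : ∀ j ∈ N0, χ p (D.α j p) = 1) (hβp : ∀ j ∈ N0, χ p (D.β j p) = 1)
    (hαq : ∀ j ∈ N0, χ q (D.α j q) = 1) (hβq : ∀ j ∈ N0, χ q (D.β j q) = 1)
    (hq1 : ∀ i ∈ N0, D.α q i = D.c i) (hq2 : χ p (D.α q p) = -1) (hq3 : D.β q = 1)
    (b : D.GG) (hb : ∀ i ∈ N0, D.α p i = b i * b i) (hp3 : D.β p = 1)
    (ih : MainP D χ S0 N0) : MainP D χ (insert p S0) (insert p (insert q N0)) := by
  intro θ hθ f hf hty hsm
  have hθ' : (-θ) * (-θ) = 1 := by rw [neg_mul_neg, hθ]
  obtain ⟨ε, hε⟩ : ∃ ε : ℤ, 2 * ε = 1 + θ := by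
    have : (θ - 1) * (θ + 1) = 0 := by linear_combination hθ
    rcases mul_eq_zero.mp this with h | h
    · exact ⟨1, by omega⟩
    · exact ⟨0, by omega⟩
  have hpN1 : p ∉ insert q N0 := by rw [mem_insert, not_or]; exact ⟨hpq, hp⟩
  have hN0N1 : N0 ⊆ insert q N0 := subset_insert _ _
  have hN1N : insert q N0 ⊆ insert p (insert q N0) := subset_insert _ _
  have hN0N := hN0N1.trans hN1N
  have hpS0 : p ∉ S0 := fun h => hp (hS h)
  have hfN0 : D.IsD N0 f := hf.mono hN0N
  have htN0 : D.Ty θ N0 f := hty.mono hN0N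
  obtain ⟨g0, hg0, hg0'⟩ := ih θ hθ f hfN0 htN0 (hsm.mono hN0N)
  set fp := D.un p f with hfpdef
  have hfp : D.IsD (insert q N0) fp := hf.un hpN1
  have htfp : D.Ty θ (insert q N0) fp := hty.un
  set F1 := ns χ q 1 (D.un q fp) with hF1def
  have hF1 : D.IsD N0 F1 := (hfp.un hq).ns hαq hβq
  have hR1 : D.EqS N0 (F1 + θ • D.T D.c F1) (D.T (D.α q) fp - fp) := by
    have e1 : D.EqS N0 (D.T D.c (D.un q fp)) (θ • D.un q fp) := fun x hx => htfp.un x hx
    have e2 : D.EqS N0 (D.T D.c F1) (θ • ns χ q (-1) (D.un q fp)) := by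
      have h1 := e1.ns χ (-1)
      rw [ns_zsmul] at h1
      refine (EqS.of_eq ?_).trans h1
      rw [hF1def, T_ns, hqc, mul_one]
    have e3 : D.EqS N0 (fun x => D.nrm q (D.un q fp x)) (D.T (D.α q) fp - fp) := by
      intro x hx
      have h1 := hfp.rel (hx.mono hN0N1) (hx q hq)
      rw [hq3, T_one] at h1
      exact h1
    refine ((EqS.refl F1).add (e2.zsmul θ)).trans ?_
    rw [smul_smul, hθ, one_smul, hF1def, ns_sum]
    exact e3
  set E := ns χ p 1 F1 with hEdef
  set ρ := ns χ p 1 fp with hρdef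
  set ρ' := ns χ p (-1) fp with hρ'def
  have hρT : ∀ (ε' : ℤˣ), D.EqS N0 (D.T D.c (ns χ p ε' fp)) (θ • ns χ p ε' fp) := by
    intro ε'
    have e1 : D.EqS N0 (D.T D.c fp) (θ • fp) := fun x hx => htfp x (hx.mono hN0N1)
    have h1 := e1.ns χ ε'
    rw [ns_zsmul] at h1
    refine (EqS.of_eq ?_).trans h1
    rw [T_ns, hpc, one_mul]
  have hE : D.EqS N0 (E + θ • D.T D.c E) (θ • ρ' - ρ) := by
    have e1 := hR1.ns χ 1
    rw [ns_add, ns_zsmul, ns_sub] at e1
    have e2 : D.T D.c E = ns χ p 1 (D.T D.c F1) := by rw [hEdef, T_ns, hpc, one_mul]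
    have e3 : ns χ p 1 (D.T (D.α q) fp) = D.T (D.α q) ρ' := by
      rw [hρ'def, T_ns, hq2]; rfl
    have e4 : D.EqS N0 (D.T (D.α q) ρ') (θ • ρ') :=
      (T_congr (triv_int D) hq1 ρ').trans (hρT (-1))
    rw [e2]
    refine e1.trans ?_
    rw [e3]
    exact e4.sub (EqS.refl ρ)
  obtain ⟨κ, hκ, hκ'⟩ := coh (triv_int D) hfree hθ hfN0 htN0 b
  -- pointwise forms
  have pE : ∀ x, D.Supp N0 x → E x + θ * E (D.act D.c x) = θ * ρ' x - ρ x := hE
  have pρ : ∀ x, D.Supp N0 x → ρ (D.act D.c x) = θ * ρ x := hρT 1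
  have hbb : ∀ x, D.Supp N0 x → D.act (D.α p) x = D.act b (D.act b x) := by
    intro x hx
    rw [act_act]
    exact act_congr hx hb
  have psum : ∀ x, D.Supp N0 x → ρ x + ρ' x = f (D.act b (D.act b x)) - f x := by
    intro x hx
    have h1 : ρ x + ρ' x = D.nrm p (fp x) := congrFun (ns_sum (χ := χ) fp) x
    have h2 := hf.rel (hx.mono hN0N) (hx p hp)
    rw [hp3, T_one, T_triv (triv_int D), hbb x hx] at h2
    rw [h1]; exact h2
  have pκ : ∀ x, D.Supp N0 x → f (D.act b x) - f x = κ x + θ * κ (D.act D.c x) := hκ'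
  set f2 := E + ε • ρ - θ • (D.T b κ + κ) with hf2
  have pf2 : ∀ x, f2 x = E x + ε * ρ x - θ * (κ (D.act b x) + κ x) := fun x => rfl
  have hf2D : D.IsD N0 f2 :=
    ((hF1.ns hαp hβp).add (((hfp.mono hN0N1).ns hαp hβp).zsmul ε)).sub (((hκ.T b).add hκ).zsmul θ)
  have hf2T : D.Ty (-θ) N0 f2 := by
    apply Ty.of_add_eq_zero hθ
    intro x hx
    change f2 x + θ * f2 (D.act D.c x) = 0
    rw [pf2, pf2]
    have h1 := pE x hx
    have h2 := pρ x hx
    have h3 := psum x hx
    have h4 := pκ x hx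
    have h5 := pκ _ (hx.act b)
    rw [act_comm D.c b] at h5
    linear_combination h1 + θ * ε * h2 + θ * h5 + θ * h4 + θ * h3 + ε * ρ x * hθ + ρ x * hε
  have hf2I : D.Img (-θ) S0 f2 := ih (-θ) hθ' f2 hf2D hf2T
    (step_small hp hq hpq hpc hqc hαp hβp hαq hβq hq1 hq2 hq3 b hb hp3 hθ hε hκ hκ' hsm)
  -- the part with the coordinate `p`
  obtain ⟨gp, hgp, hgp'⟩ := tt hfree S0 (D.Ind p ℤ) (hT_ind p (hfree p)) θ hθ fp
    (hfp.mono (hS.trans hN0N1)) (htfp.mono (hS.trans hN0N1))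
  have hαpS : ∀ j ∈ S0, χ p (D.α j p) = 1 := fun j hj => hαp j (hS hj)
  have hβpS : ∀ j ∈ S0, χ p (D.β j p) = 1 := fun j hj => hβp j (hS hj)
  set bv : D.GG := Pi.mulSingle p (D.c p * D.α q p) with hbv
  have hbvp : bv p = D.c p * D.α q p := Pi.mulSingle_eq_same _ _
  have hbvn : ∀ i ∈ S0, bv i = 1 := fun i hi =>
    Pi.mulSingle_eq_of_ne (by rintro rfl; exact hpS0 hi) _
  set η0 := F1 - θ • D.T bv gp + gp with hη0
  have hη0D : D.IsD S0 η0 := ((hF1.mono hS).sub ((hgp.T bv).zsmul θ)).add hgp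
  have hη0T : D.Ty (-θ) S0 η0 := by
    apply Ty.of_add_eq_zero hθ
    intro x hx
    have h1 := hR1 x (hx.mono hS)
    have h2 : D.T (D.α q) fp x = θ • D.T bv fp x := by
      have e1 : D.EqS S0 (D.T (D.α q) fp) (D.T (bv * D.c) fp) := by
        apply T_congr_ind
        · intro i hi
          rw [hq1 i (hS hi), Pi.mul_apply, hbvn i hi, one_mul]
        · rw [Pi.mul_apply, hbvp, mul_comm (D.c p), mul_assoc, D.hc p, mul_one]
      rw [e1 x hx, ← T_T]
      have e2 : D.EqS S0 (D.T D.c fp) (θ • fp) := fun x hx =>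
        htfp x (hx.mono (hS.trans hN0N1))
      rw [e2.T bv x hx, T_zsmul]; rfl
    have h3 := hgp' x hx
    have h4 := hgp'.T bv x hx
    rw [T_add, T_zsmul] at h4
    rw [hη0, T_add, T_sub, T_zsmul, T_comm D.c bv]
    simp only [Pi.add_apply, Pi.sub_apply, Pi.smul_apply] at h1 h3 h4 ⊢
    rw [h2] at h1
    rw [h4] at h1
    calc F1 x - θ • D.T bv gp x + gp x +
          θ • (D.T D.c F1 x - θ • D.T bv (D.T D.c gp) x + D.T D.c gp x)
        = (F1 x + θ • D.T D.c F1 x) - θ • (D.T bv gp x + θ • D.T bv (D.T D.c gp) x) +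
          (gp x + θ • D.T D.c gp x) := by
          rw [smul_add, smul_sub, smul_add]; abel
      _ = 0 := by rw [h1, ← h3]; abel
  have hη : D.Img (-θ) S0 (ns χ p 1 η0) :=
    (tt hfree S0 (D.Ind p ℤ) (hT_ind p (hfree p)) (-θ) hθ' η0 hη0D hη0T).ns hpc hαpS hβpS
  set gq := ns χ p 1 gp with hgq
  set gm := ns χ p (-1) gp with hgm
  have hgqD : D.IsD S0 gq := hgp.ns hαpS hβpS
  have pη : ∀ x, D.Supp S0 x → ns χ p 1 η0 x = E x - θ * gm x + gq x := by
    intro x hx
    have h1 : ns χ p 1 (D.T bv gp) = D.T bv gm := by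
      rw [hgm, T_ns, hbvp, map_mul, hpc, hq2]; rfl
    rw [hη0, ns_add, ns_sub, ns_zsmul, h1]
    change E x - θ * D.T bv gm x + gq x = _
    rw [T_triv (triv_int D), act_supp hx hbvn]
  have pρg : ∀ x, D.Supp S0 x → ρ x = gq x + θ * gq (D.act D.c x) := by
    intro x hx
    have h1 := hgp'.ns χ 1 x hx
    rw [ns_add, ns_zsmul] at h1
    have h2 : ns χ p 1 (D.T D.c gp) = D.T D.c gq := by rw [hgq, T_ns, hpc, one_mul]
    rw [h2] at h1
    exact h1
  set μ := κ - (D.T b g0 - g0) with hμ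
  have pμ : ∀ x, μ x = κ x - (g0 (D.act b x) - g0 x) := fun x => rfl
  have hμD : D.IsD S0 μ := (hκ.mono hS).sub ((hg0.T b).sub hg0)
  have pg0 : ∀ x, D.Supp S0 x → f x = g0 x + θ * g0 (D.act D.c x) := hg0'
  have hμT : D.Ty (-θ) S0 μ := by
    apply Ty.of_add_eq_zero hθ
    intro x hx
    change μ x + θ * μ (D.act D.c x) = 0
    rw [pμ, pμ]
    have h1 := pκ x (hx.mono hS)
    have h2 := pg0 x hx
    have h3 := pg0 _ (hx.act b)
    rw [act_comm D.c b] at h3
    linear_combination -h1 - h2 + h3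
  have B1 := coh (triv_int D) hfree hθ' hμD hμT b
  have B2 := hμT.two hθ' hμD
  have B3 : D.Img (-θ) S0 (gq + (-θ) • D.T D.c gq) := ⟨gq, hgqD, EqS.refl _⟩
  refine glue_img hpS0 hθ hg0 hg0' hgp hgp' ?_
  refine (((hf2I.zsmul θ).add (B3.zsmul (ε * θ))).sub (hη.zsmul θ)).add (B1.add B2) |>.congr ?_
  intro x hx
  have h1 : D.nrm p (gp x) = gq x + gm x := (congrFun (ns_sum (χ := χ) gp) x).symm
  change θ * f2 x + (ε * θ) * (gq x + (-θ) * gq (D.act D.c x)) - θ * ns χ p 1 η0 x +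
      ((μ (D.act b x) - μ x) + 2 * μ x) =
    D.nrm p (gp x) - (g0 (D.act (D.α p) x) - g0 (D.act (D.β p) x))
  rw [h1, hp3, act_one, hbb x (hx.mono hS), pη x hx, pf2, pρg x hx, pμ, pμ]
  linear_combination (gq x + gm x - (κ (D.act b x) + κ x)) * hθ + θ * gq x * hε

end Dat

end Pool.Agent.N993
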