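import Pool.Agent.N993.Cyc
import Pool.Agent.N993.Step2
import Pool.Agent.N993.Chain

/-!
Quadratic characters modulo odd primes and 4.
-/

set_option linter.unusedSectionVars false

namespace Pool.Agent.N993

open Finset Pool.Agent.H916R2

/-- the character with kernel the squares -/
noncomputable def sgnHom (G : Type) [CommGroup G]
    (h : ∀ a b : G, ¬ IsSquare a → ¬ IsSquare b → IsSquare (a * b)) : G →* ℤˣ := by
  classical
  exact
    { toFun := fun u => if IsSquare u then 1 else -1
      map_one' := if_pos IsSquare.one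
      map_mul' := fun a b => by
        by_cases ha : IsSquare a
        · by_cases hb : IsSquare b
          · rw [if_pos ha, if_pos hb, if_pos (ha.mul hb), one_mul]
          · rw [if_pos ha, if_neg hb, if_neg, one_mul]
            intro hab
            apply hb
            have : b = a⁻¹ * (a * b) := by rw [inv_mul_cancel_left]
            rw [this]; exact ha.inv.mul hab
        · by_cases hb : IsSquare b
          · rw [if_neg ha, if_pos hb, if_neg, mul_one]
            intro hab
            apply ha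
            have : a = (a * b) * b⁻¹ := by rw [mul_inv_cancel_right]
            rw [this]; exact hab.mul hb.inv
          · rw [if_neg ha, if_neg hb, if_pos (h a b ha hb)]; decide }

lemma sgnHom_eq_one_iff {G : Type} [CommGroup G]
    (h : ∀ a b : G, ¬ IsSquare a → ¬ IsSquare b → IsSquare (a * b)) (u : G) :
    sgnHom G h u = 1 ↔ IsSquare u := by
  classical
  have h1 : sgnHom G h u = if IsSquare u then 1 else -1 := by
    unfold sgnHom; congr
  rw [h1]
  by_cases hu : IsSquare u
  · rw [if_pos hu]; simp [hu]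
  · rw [if_neg hu]
    constructor
    · intro h'; exact absurd h' (by decide)
    · intro h'; exact absurd h' hu

/-- the quadratic character -/
noncomputable def qch (k : ℕ) : (ZMod k)ˣ →* ℤˣ := by
  classical
  exact if h : ∀ a b : (ZMod k)ˣ, ¬ IsSquare a → ¬ IsSquare b → IsSquare (a * b) then
    sgnHom _ h else 1

lemma isSquare_units_iff {k : ℕ} (u : (ZMod k)ˣ) : IsSquare u ↔ IsSquare (u : ZMod k) := by
  constructor
  · rintro ⟨v, rfl⟩; exact ⟨(v : ZMod k), by push_cast; rfl⟩
  · rintro ⟨a, ha⟩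
    have hu : IsUnit (a * a) := ha ▸ u.isUnit
    obtain ⟨v, hv⟩ := isUnit_of_mul_isUnit_left hu
    refine ⟨v, ?_⟩
    ext
    push_cast
    rw [ha, hv]

lemma sq_two : ∀ x : ZMod 2, IsSquare x := by decide

lemma sq_mul_prime {k : ℕ} (hk : k.Prime) (a b : (ZMod k)ˣ) (ha : ¬ IsSquare a)
    (hb : ¬ IsSquare b) : IsSquare (a * b) := by
  classical
  have : Fact k.Prime := ⟨hk⟩
  rw [isSquare_units_iff] at ha hb ⊢
  have hodd : ringChar (ZMod k) ≠ 2 := by
    rw [ZMod.ringChar_zmod_n]
    rintro rfl
    apply ha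
    exact sq_two _
  have h1 := (quadraticChar_neg_one_iff_not_isSquare (F := ZMod k)).mpr ha
  have h2 := (quadraticChar_neg_one_iff_not_isSquare (F := ZMod k)).mpr hb
  have h3 : quadraticChar (ZMod k) ((a * b : (ZMod k)ˣ) : ZMod k) = 1 := by
    push_cast
    rw [map_mul, h1, h2]; norm_num
  exact (quadraticChar_one_iff_isSquare (Units.ne_zero _)).mp h3

lemma sq_mul_four : ∀ a b : (ZMod 4)ˣ, ¬ IsSquare a → ¬ IsSquare b → IsSquare (a * b) := by
  decide

lemma qch_eq_one_iff {k : ℕ} (hk : (k.Prime ∧ k % 2 = 1) ∨ k = 4) (u : (ZMod k)ˣ) :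
    qch k u = 1 ↔ IsSquare (u : ZMod k) := by
  classical
  have h : ∀ a b : (ZMod k)ˣ, ¬ IsSquare a → ¬ IsSquare b → IsSquare (a * b) := by
    rcases hk with hk | hk
    · exact fun a b => sq_mul_prime hk.1 a b
    · subst hk; exact sq_mul_four
  unfold qch
  rw [dif_pos h, sgnHom_eq_one_iff, isSquare_units_iff]

lemma qch_eq_neg_one_iff {k : ℕ} (hk : (k.Prime ∧ k % 2 = 1) ∨ k = 4) (u : (ZMod k)ˣ) :
    qch k u = -1 ↔ ¬ IsSquare (u : ZMod k) := by
  rw [← qch_eq_one_iff hk]
  rcases Int.units_eq_one_or (qch k u) with h | h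
  · rw [h]; decide
  · rw [h]; decide

lemma one_lt_of {k : ℕ} (hk : (k.Prime ∧ k % 2 = 1) ∨ k = 4) : 2 < k := by
  rcases hk with h | h
  · have := h.1.two_le; omega
  · omega

lemma neg_one_ne_one {k : ℕ} (hk : (k.Prime ∧ k % 2 = 1) ∨ k = 4) : (-1 : (ZMod k)ˣ) ≠ 1 := by
  intro h
  have h1 : ((-1 : (ZMod k)ˣ) : ZMod k) = 1 := by rw [h]; rfl
  rw [Units.val_neg, Units.val_one] at h1
  have : Fact (2 < k) := ⟨one_lt_of hk⟩
  exact ZMod.neg_one_ne_one h1

/-- the kernel of the quadratic character has odd order for primes congruent to 3 modulo 4 and 4 -/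
lemma card_kernel_odd {k : ℕ} [NeZero k] (hk : (k.Prime ∧ k % 4 = 3) ∨ k = 4) :
    (univ.filter (fun u : (ZMod k)ˣ => qch k u = 1)).card % 2 = 1 := by
  classical
  have hk' : (k.Prime ∧ k % 2 = 1) ∨ k = 4 := by
    rcases hk with h | h
    · left; exact ⟨h.1, by omega⟩
    · right; exact h
  have hneg : qch k (-1) = -1 := by
    rw [qch_eq_neg_one_iff hk']
    rcases hk with h | h
    · have : Fact k.Prime := ⟨h.1⟩
      rw [Units.val_neg, Units.val_one, ZMod.exists_sq_eq_neg_one_iff]
      exact fun h' => h' h.2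
    · subst h; decide
  have h1 : (univ.filter (fun u : (ZMod k)ˣ => qch k u = 1)).card =
      (univ.filter (fun u : (ZMod k)ˣ => ¬ qch k u = 1)).card := by
    refine card_nbij' (fun u => -u) (fun u => -u) ?_ ?_ ?_ ?_
    · intro u hu
      rw [mem_coe, mem_filter] at hu ⊢
      refine ⟨mem_univ _, ?_⟩
      change ¬ qch k (-u) = 1
      rw [← neg_one_mul, map_mul, hneg, hu.2]; decide
    · intro u hu
      rw [mem_coe, mem_filter] at hu ⊢
      refine ⟨mem_univ _, ?_⟩
      have h2 := (Int.units_eq_one_or (qch k u)).resolve_left hu.2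
      change qch k (-u) = 1
      rw [← neg_one_mul, map_mul, hneg, h2]; decide
    · intro u _; exact neg_neg u
    · intro u _; exact neg_neg u
  have h2 := card_filter_add_card_filter_not (s := (univ : Finset (ZMod k)ˣ))
    (fun u : (ZMod k)ˣ => qch k u = 1)
  rw [← h1, card_univ] at h2
  rcases hk with h | h
  · have h3 : Fintype.card (ZMod k)ˣ = k - 1 := by
      rw [ZMod.card_units_eq_totient, Nat.totient_prime h.1]
    omega
  · have h3 : Fintype.card (ZMod k)ˣ = 2 := by
      subst h; rw [ZMod.card_units_eq_totient]; decide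
    omega

end Pool.Agent.N993
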