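import Pool.Agent.N993.Coh

/-!
The small system attached to quadratic characters; sums over the fibres.
-/

set_option linter.unusedSectionVars false

namespace Pool.Agent.N993

open Finset

namespace Dat

variable {ι : Type} [DecidableEq ι] {D : Dat ι}

/-- the integers with the trivial action -/
instance instTrivInt (D : Dat ι) : DistribMulAction D.GG ℤ := D.trivAct ℤ

lemma triv_int (D : Dat ι) (b : D.GG) (a : ℤ) : b • a = a := rfl

/-- the small system -/
@[reducible] def small (D : Dat ι) (χ : ∀ i, D.G i →* ℤˣ) : Dat ι where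
  G _ := ℤˣ
  grp _ := inferInstance
  fin _ := inferInstance
  deq _ := inferInstance
  α i j := χ j (D.α i j)
  β i j := χ j (D.β i j)
  c i := χ i (D.c i)
  hc i := by rw [← map_mul, D.hc, map_one]

/-- the image of a point -/
def mp (χ : ∀ i, D.G i →* ℤˣ) (x : D.Pt) : (D.small χ).Pt := fun i => (x i).map (χ i)

/-- the image of a group element -/
def mg (χ : ∀ i, D.G i →* ℤˣ) (b : D.GG) : (D.small χ).GG := fun i => χ i (b i)

section

variable {χ : ∀ i, D.G i →* ℤˣ}

lemma mp_none {x : D.Pt} {i : ι} : mp χ x i = none ↔ x i = none := by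
  unfold mp; cases x i <;> simp

lemma mp_act (b : D.GG) (x : D.Pt) : mp χ (D.act b x) = (D.small χ).act (mg χ b) (mp χ x) := by
  funext i
  cases hxi : x i with
  | none =>
    rw [mp_none.mpr (act_apply_none hxi), act_apply_none (mp_none.mpr hxi)]
  | some u =>
    have h1 : mp χ x i = some (χ i u) := by unfold mp; rw [hxi]; rfl
    rw [act_apply_some h1]
    unfold mp mg
    rw [act_apply_some hxi, Option.map_some, map_mul]

lemma mp_update_some (x : D.Pt) (i : ι) (u : D.G i) :
    mp χ (Function.update x i (some u)) = Function.update (mp χ x) i (some (χ i u)) := by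
  funext j
  by_cases h : j = i
  · subst h; unfold mp; rw [Function.update_self, Function.update_self]; rfl
  · rw [Function.update_of_ne h]; unfold mp; rw [Function.update_of_ne h]

lemma mp_update_none (x : D.Pt) (i : ι) :
    mp χ (Function.update x i none) = Function.update (mp χ x) i none := by
  funext j
  by_cases h : j = i
  · subst h; unfold mp; rw [Function.update_self, Function.update_self]; rfl
  · rw [Function.update_of_ne h]; unfold mp; rw [Function.update_of_ne h]

lemma supp_mp {S : Finset ι} {x : D.Pt} (h : (D.small χ).Supp S (mp χ x)) : D.Supp S x :=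
  fun i hi => mp_none.mp (h i hi)

lemma Supp.mp {S : Finset ι} {x : D.Pt} (h : D.Supp S x) : (D.small χ).Supp S (mp χ x) :=
  fun i hi => mp_none.mpr (h i hi)

end

/-! ### Weighted sums -/

section wsum

variable {A : Type} [AddCommGroup A] [DistribMulAction D.GG A]

/-- weighted sums -/
def wsum (D : Dat ι) (i : ι) {A : Type} [AddCommGroup A] (w : D.G i → ℤ) : D.Ind i A →+ A where
  toFun h := ∑ u : D.G i, w u • h.ev u
  map_zero' := by simp [ind_zero]
  map_add' h k := by simp only [ind_add, smul_add, sum_add_distrib]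

lemma wsum_apply (i : ι) (w : D.G i → ℤ) (h : D.Ind i A) :
    D.wsum i w h = ∑ u : D.G i, w u • h.ev u := rfl

lemma smul_wsum (i : ι) (w : D.G i → ℤ) (b : D.GG) (h : D.Ind i A) :
    b • D.wsum i w h = D.wsum i (fun u => w (b i * u)) (b • h) := by
  rw [wsum_apply, wsum_apply, smul_sum]
  symm
  refine Fintype.sum_equiv (Equiv.mulLeft (b i)) _ _ (fun u => ?_)
  rw [ind_smul]
  exact (map_zsmul (DistribSMul.toAddMonoidHom A b) _ _).symm

lemma T_wsum (i : ι) (w : D.G i → ℤ) (b : D.GG) (h : D.Pt → D.Ind i A) :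
    D.T b (fun x => D.wsum i w (h x)) = fun x => D.wsum i (fun u => w (b i * u)) (D.T b h x) := by
  funext x
  rw [T_apply, smul_wsum, T_apply]

lemma IsD.wsum {i : ι} {S : Finset ι} {h : D.Pt → D.Ind i A} (hh : D.IsD S h) (w : D.G i → ℤ)
    (hα : ∀ j ∈ S, ∀ u, w (D.α j i * u) = w u) (hβ : ∀ j ∈ S, ∀ u, w (D.β j i * u) = w u) :
    D.IsD S (fun x => D.wsum i w (h x)) := by
  intro j hj x hx h0
  rw [← map_sum, hh j hj x hx h0, map_sub, smul_wsum, smul_wsum]
  simp only [hα j hj, hβ j hj]

/-- the indicator function of a class -/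
def idc (χ : ∀ i, D.G i →* ℤˣ) (i : ι) (ε : ℤˣ) : D.G i → ℤ := fun u => if χ i u = ε then 1 else 0

lemma idc_mul (χ : ∀ i, D.G i →* ℤˣ) (i : ι) (ε : ℤˣ) (b : D.G i) :
    (fun u => idc χ i ε (b * u)) = idc χ i (χ i b * ε) := by
  funext u
  unfold idc
  rw [map_mul]
  congr 1
  rw [eq_iff_iff]
  constructor
  · intro h; rw [← h, ← mul_assoc, Int.units_mul_self, one_mul]
  · intro h; rw [h, ← mul_assoc, Int.units_mul_self, one_mul]

lemma idc_add (χ : ∀ i, D.G i →* ℤˣ) (i : ι) (h : D.Ind i A) :
    D.wsum i (idc χ i 1) h + D.wsum i (idc χ i (-1)) h = D.nrm i h := by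
  rw [wsum_apply, wsum_apply, nrm_apply, ← sum_add_distrib]
  refine sum_congr rfl fun u _ => ?_
  unfold idc
  rcases Int.units_eq_one_or (χ i u) with h1 | h1
  · rw [h1, if_pos rfl, if_neg (by decide), one_smul, zero_smul, add_zero]
  · rw [h1, if_neg (by decide), if_pos rfl, one_smul, zero_smul, zero_add]

end wsum

/-! ### Sums over the fibres -/

section fib

variable [Fintype ι] (χ : ∀ i, D.G i →* ℤˣ)

/-- sums over the fibres -/
def sm (f : D.Pt → ℤ) : (D.small χ).Pt → ℤ := fun x' => ∑ x ∈ univ.filter (fun x => mp χ x = x'), f x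

variable {χ}

lemma sm_add (f g : D.Pt → ℤ) : sm χ (f + g) = sm χ f + sm χ g := by
  funext x'; unfold sm; simp only [Pi.add_apply, sum_add_distrib]

lemma sm_sub (f g : D.Pt → ℤ) : sm χ (f - g) = sm χ f - sm χ g := by
  funext x'; unfold sm; simp only [Pi.sub_apply, sum_sub_distrib]

lemma sm_zsmul (n : ℤ) (f : D.Pt → ℤ) : sm χ (n • f) = n • sm χ f := by
  funext x'; unfold sm; simp only [Pi.smul_apply, smul_sum]

lemma sm_congr {S : Finset ι} {f g : D.Pt → ℤ} (h : D.EqS S f g) :
    (D.small χ).EqS S (sm χ f) (sm χ g) := by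
  intro x' hx'
  unfold sm
  refine sum_congr rfl fun x hx => h x ?_
  rw [(mem_filter.mp hx).2.symm] at hx'
  exact supp_mp hx'

lemma act_inv_act (b : D.GG) (x : D.Pt) : D.act b⁻¹ (D.act b x) = x := by
  rw [act_act, inv_mul_cancel, act_one]

lemma act_act_inv (b : D.GG) (x : D.Pt) : D.act b (D.act b⁻¹ x) = x := by
  rw [act_act, mul_inv_cancel, act_one]

lemma sm_T (b : D.GG) (f : D.Pt → ℤ) : sm χ (D.T b f) = (D.small χ).T (mg χ b) (sm χ f) := by
  funext x'
  rw [T_triv (triv_int _)]
  unfold sm
  have h1 : ∀ x, D.T b f x = f (D.act b x) := fun x => T_triv (triv_int D) b f x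
  simp only [h1]
  refine sum_nbij' (fun x => D.act b x) (fun y => D.act b⁻¹ y) ?_ ?_ ?_ ?_ ?_
  · intro x hx
    rw [mem_filter] at hx ⊢
    refine ⟨mem_univ _, ?_⟩
    rw [mp_act, hx.2]
  · intro y hy
    rw [mem_filter] at hy ⊢
    refine ⟨mem_univ _, ?_⟩
    rw [mp_act, hy.2, act_act]
    have : mg χ b⁻¹ * mg χ b = 1 := by
      funext i
      change χ i (b i)⁻¹ * χ i (b i) = 1
      rw [← map_mul, inv_mul_cancel, map_one]
    rw [this, act_one]
  · intro x _; exact act_inv_act b x
  · intro y _; exact act_act_inv b y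
  · intro x _; rfl

lemma sm_wsum (i : ι) (ε : ℤˣ) (f : D.Pt → ℤ) {z : (D.small χ).Pt} (hz : z i = none) :
    sm χ (fun x => D.wsum i (idc χ i ε) (D.un i f x)) z = sm χ f (Function.update z i (some ε)) := by
  unfold sm
  have h1 : ∀ x, D.wsum i (idc χ i ε) (D.un i f x) =
      ∑ u ∈ univ.filter (fun u => χ i u = ε), f (Function.update x i (some u)) := by
    intro x
    rw [wsum_apply, sum_filter]
    refine sum_congr rfl fun u _ => ?_
    unfold idc
    rw [un_ev]
    split_ifs <;> simp
  simp only [h1]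
  rw [← sum_product' (univ.filter (fun x => mp χ x = z)) (univ.filter (fun u => χ i u = ε))
    (fun x u => f (Function.update x i (some u)))]
  refine sum_nbij' (fun p => Function.update p.1 i (some p.2))
    (fun y => (Function.update y i none, (y i).getD 1)) ?_ ?_ ?_ ?_ ?_
  · rintro ⟨x, u⟩ h
    rw [mem_product, mem_filter, mem_filter] at h
    rw [mem_filter]
    refine ⟨mem_univ _, ?_⟩
    rw [mp_update_some, h.1.2, h.2.2]
  · intro y hy
    rw [mem_filter] at hy
    rw [mem_product, mem_filter, mem_filter]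
    have hyi : mp χ y i = some ε := by rw [hy.2, Function.update_self]
    refine ⟨⟨mem_univ _, ?_⟩, mem_univ _, ?_⟩
    · rw [mp_update_none, hy.2, Function.update_idem, update_none_eq hz]
    · cases hh : y i with
      | none => unfold mp at hyi; rw [hh] at hyi; cases hyi
      | some v =>
        unfold mp at hyi
        rw [hh, Option.map_some, Option.some_inj] at hyi
        exact hyi
  · rintro ⟨x, u⟩ h
    rw [mem_product, mem_filter, mem_filter] at h
    have hxi : x i = none := by rw [← mp_none (χ := χ), h.1.2]; exact hz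
    simp only [Function.update_self, Function.update_idem, Option.getD_some]
    rw [update_none_eq hxi]
  · intro y hy
    rw [mem_filter] at hy
    have hyi : mp χ y i = some ε := by rw [hy.2, Function.update_self]
    cases hh : y i with
    | none => unfold mp at hyi; rw [hh] at hyi; cases hyi
    | some v =>
      simp only [Option.getD_some, Function.update_idem]
      rw [← hh, Function.update_eq_self]
  · rintro ⟨x, u⟩ _; rfl

lemma sm_isD {S : Finset ι} {f : D.Pt → ℤ} (hf : D.IsD S f) : (D.small χ).IsD S (sm χ f) := by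
  intro i hi x' hx' h0
  have h1 : ∑ u : ℤˣ, sm χ f (Function.update x' i (some u)) =
      sm χ (fun x => D.nrm i (D.un i f x)) x' := by
    have h2 : (univ : Finset ℤˣ) = {1, -1} := by decide
    rw [h2, sum_pair (by decide), ← sm_wsum i 1 f h0, ← sm_wsum i (-1) f h0]
    have h3 : (fun x => D.nrm i (D.un i f x)) = (fun x => D.wsum i (idc χ i 1) (D.un i f x)) +
        (fun x => D.wsum i (idc χ i (-1)) (D.un i f x)) := by
      funext x; exact (idc_add χ i _).symm
    rw [h3, sm_add]; rfl
  have h4 : sm χ (fun x => D.nrm i (D.un i f x)) x' =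
      sm χ (D.T (D.α i) f - D.T (D.β i) f) x' := by
    unfold sm
    refine sum_congr rfl fun x hx => ?_
    have hx2 := (mem_filter.mp hx).2
    have hxS : D.Supp S x := supp_mp (by rw [hx2]; exact hx')
    have hxi : x i = none := by rw [← mp_none (χ := χ), hx2]; exact h0
    exact hf i hi x hxS hxi
  have h5 : sm χ (D.T (D.α i) f - D.T (D.β i) f) x' =
      sm χ f ((D.small χ).act ((D.small χ).α i) x') - sm χ f ((D.small χ).act ((D.small χ).β i) x') := by
    rw [sm_sub, sm_T, sm_T, Pi.sub_apply, T_triv (triv_int _), T_triv (triv_int _)]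
    rfl
  exact h1.trans (h4.trans h5)

end fib

end Dat

end Pool.Agent.N993
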