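import Pool.Agent.N993.Base

/-!
The inductive step.
-/

set_option linter.unusedSectionVars false

namespace Pool.Agent.N993

open Finset

namespace Dat

variable {ι : Type} [DecidableEq ι] {D : Dat ι}

section

variable {A : Type} [AddCommGroup A] [DistribMulAction D.GG A]

lemma glue_img {i : ι} {S : Finset ι} (hi : i ∉ S) {θ : ℤ} (hθ : θ * θ = 1) {f g0 : D.Pt → A}
    (hg0 : D.IsD S g0) (hg0' : D.EqS S f (g0 + θ • D.T D.c g0)) {g1 : D.Pt → D.Ind i A}
    (hg1 : D.IsD S g1) (hg1' : D.EqS S (D.un i f) (g1 + θ • D.T D.c g1))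
    (hδ : D.Img (-θ) S ((fun x => D.nrm i (g1 x)) - (D.T (D.α i) g0 - D.T (D.β i) g0))) :
    D.Img θ (insert i S) f := by
  obtain ⟨δ', hδ', hδ''⟩ := hδ
  obtain ⟨γ, hγ, hγ'⟩ := exists_lift S (D.nrm i) (nrm_smul i)
    (fun a => ⟨D.sgl i a, nrm_sgl i a⟩) hδ'
  have hγ'' : D.EqS S (fun x => D.nrm i (γ x)) δ' := hγ'
  set g1' : D.Pt → D.Ind i A := g1 - (γ + (-θ) • D.T D.c γ) with hg1''
  have hN : D.EqS S (fun x => D.nrm i (g1' x)) (D.T (D.α i) g0 - D.T (D.β i) g0) := by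
    intro x hx
    have e1 : D.nrm i (g1' x) = D.nrm i (g1 x) -
        (D.nrm i (γ x) + (-θ) • D.T D.c (fun x => D.nrm i (γ x)) x) := by
      rw [T_nrm]
      simp only [hg1'', Pi.sub_apply, Pi.add_apply, Pi.smul_apply, map_sub, map_add, map_zsmul]
    have e2 := hδ'' x hx
    rw [Pi.add_apply, Pi.smul_apply] at e2
    change D.nrm i (g1' x) = _
    rw [e1, hγ' x hx, hγ''.T D.c x hx, ← e2]
    simp only [Pi.sub_apply]
    abel
  refine ⟨D.glue i g0 g1', isD_glue hi hg0 (hg1.sub (hγ.add ((hγ.T _).zsmul _))) hN, ?_⟩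
  have e1 : D.EqS S (D.un i f) (g1' + θ • D.T D.c g1') := by
    refine hg1'.trans (EqS.of_eq ?_)
    rw [hg1'', T_sub, T_add, T_zsmul, T_c_T_c, smul_sub, smul_add, smul_smul, mul_neg, hθ]
    rw [neg_smul, neg_smul, one_smul]
    abel
  have e2 := glue_congr hg0' e1
  rw [glue_self, glue_add, glue_zsmul, ← T_glue] at e2
  exact e2

/-! ### Partial sums over a class -/

/-- partial sums -/
def ns (χ : ∀ i, D.G i →* ℤˣ) (i : ι) (ε : ℤˣ) (h : D.Pt → D.Ind i A) : D.Pt → A :=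
  fun x => D.wsum i (idc χ i ε) (h x)

variable {χ : ∀ i, D.G i →* ℤˣ} {i : ι} {ε : ℤˣ}

lemma ns_add (h k : D.Pt → D.Ind i A) : ns χ i ε (h + k) = ns χ i ε h + ns χ i ε k := by
  funext x; exact map_add _ _ _

lemma ns_sub (h k : D.Pt → D.Ind i A) : ns χ i ε (h - k) = ns χ i ε h - ns χ i ε k := by
  funext x; exact map_sub _ _ _

lemma ns_zsmul (n : ℤ) (h : D.Pt → D.Ind i A) : ns χ i ε (n • h) = n • ns χ i ε h := by
  funext x; exact map_zsmul (D.wsum i (idc χ i ε)) n _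

lemma T_ns (b : D.GG) (h : D.Pt → D.Ind i A) :
    D.T b (ns χ i ε h) = ns χ i (χ i (b i) * ε) (D.T b h) := by
  have := T_wsum i (idc χ i ε) b h
  rw [idc_mul] at this
  exact this

lemma EqS.ns {S : Finset ι} {h k : D.Pt → D.Ind i A} (hk : D.EqS S h k) (χ : ∀ i, D.G i →* ℤˣ)
    (ε : ℤˣ) : D.EqS S (ns χ i ε h) (ns χ i ε k) := fun x hx => by
  unfold Dat.ns; rw [hk x hx]

lemma IsD.ns {S : Finset ι} {h : D.Pt → D.Ind i A} (hh : D.IsD S h)
    (hα : ∀ j ∈ S, χ i (D.α j i) = 1) (hβ : ∀ j ∈ S, χ i (D.β j i) = 1) :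
    D.IsD S (ns χ i ε h) := by
  refine hh.wsum _ (fun j hj u => ?_) (fun j hj u => ?_)
  · have := congrFun (idc_mul χ i ε (D.α j i)) u
    rw [hα j hj, one_mul] at this
    exact this
  · have := congrFun (idc_mul χ i ε (D.β j i)) u
    rw [hβ j hj, one_mul] at this
    exact this

lemma ns_sum (h : D.Pt → D.Ind i A) :
    ns χ i 1 h + ns χ i (-1) h = fun x => D.nrm i (h x) := by
  funext x; exact idc_add χ i _

lemma Img.ns {θ : ℤ} {S : Finset ι} {h : D.Pt → D.Ind i A} (hh : D.Img θ S h)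
    (hc : χ i (D.c i) = 1) (hα : ∀ j ∈ S, χ i (D.α j i) = 1) (hβ : ∀ j ∈ S, χ i (D.β j i) = 1) :
    D.Img θ S (ns χ i ε h) := by
  obtain ⟨k, hk, hk'⟩ := hh
  refine ⟨Dat.ns χ i ε k, hk.ns hα hβ, (hk'.ns χ ε).trans (EqS.of_eq ?_)⟩
  rw [ns_add, ns_zsmul, T_ns, hc, one_mul]

end

lemma T_un' {A : Type} [AddCommGroup A] [DistribMulAction D.GG A] (i : ι) (b : D.GG) (f : D.Pt → A) :
    D.T b (D.un i f) = D.un i (D.T b f) := funext fun x => T_un i b f x

lemma T_congr_ind {S : Finset ι} {i : ι} {b b' : D.GG} (h : ∀ j ∈ S, b j = b' j) (hi : b i = b' i)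
    (k : D.Pt → D.Ind i ℤ) : D.EqS S (D.T b k) (D.T b' k) := fun x hx => by
  rw [T_apply, T_apply, act_congr hx h]
  apply Ind.ext
  funext u
  rw [ind_smul, ind_smul, hi]; rfl

lemma wsum_swap {p q : ι} (w : D.G p → ℤ) (w' : D.G q → ℤ) (f : D.Pt → ℤ) (x : D.Pt) :
    D.wsum p w (D.wsum q w' (D.un q (D.un p f) x)) =
      D.wsum q w' (D.un q (fun x => D.wsum p w (D.un p f x)) x) := by
  change ∑ y, w y • (D.wsum q w' (D.un q (D.un p f) x)).ev y =
    ∑ r, w' r • (D.un q (fun x => D.wsum p w (D.un p f x)) x).ev r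
  have h1 : ∀ y, (D.wsum q w' (D.un q (D.un p f) x)).ev y =
      ∑ r, w' r • f (Function.update (Function.update x q (some r)) p (some y)) := by
    intro y
    rw [wsum_apply, ind_sum]
    rfl
  have h2 : ∀ r, (D.un q (fun x => D.wsum p w (D.un p f x)) x).ev r =
      ∑ y, w y • f (Function.update (Function.update x q (some r)) p (some y)) := fun r => rfl
  simp only [h1, h2, smul_sum]
  rw [sum_comm]
  refine sum_congr rfl fun r _ => sum_congr rfl fun y _ => ?_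
  rw [smul_comm]

/-- The statement of the main theorem. -/
def MainP [Fintype ι] (D : Dat ι) (χ : ∀ i, D.G i →* ℤˣ) (S N : Finset ι) : Prop :=
  ∀ θ : ℤ, θ * θ = 1 → ∀ f : D.Pt → ℤ, D.IsD N f → D.Ty θ N f →
    (D.small χ).Img θ N (sm χ f) → D.Img θ S f

end Dat

end Pool.Agent.N993
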