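import Mathlib

/-!
Systems of functions on a product of groups with zero, satisfying distribution relations, with values
in a module over the product group.
-/

set_option linter.unusedSectionVars false

namespace Pool.Agent.N993

open Finset

/-- The data: a finite commutative group for every index, the two multipliers of the relation with
index `i`, and an involution `c`. -/
structure Dat (ι : Type) where
  G : ι → Type
  grp : ∀ i, CommGroup (G i)
  fin : ∀ i, Fintype (G i)
  deq : ∀ i, DecidableEq (G i)
  α : ι → ∀ i, G i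
  β : ι → ∀ i, G i
  c : ∀ i, G i
  hc : ∀ i, c i * c i = 1

attribute [instance] Dat.grp Dat.fin Dat.deq

namespace Dat

variable {ι : Type} [DecidableEq ι] (D : Dat ι)

/-- the product group -/
abbrev GG : Type := ∀ i, D.G i

/-- the points -/
abbrev Pt : Type := ∀ i, Option (D.G i)

/-- the action on the points -/
def act (b : D.GG) (x : D.Pt) : D.Pt := fun i => (x i).map (fun u => b i * u)

/-- the support is contained in `S` -/
def Supp (S : Finset ι) (x : D.Pt) : Prop := ∀ i, i ∉ S → x i = none

section act

variable {D}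

@[simp] lemma act_one (x : D.Pt) : D.act 1 x = x := by
  funext i
  unfold act
  cases x i <;> simp

lemma act_act (a b : D.GG) (x : D.Pt) : D.act a (D.act b x) = D.act (a * b) x := by
  funext i
  unfold act
  cases x i <;> simp [mul_assoc]

@[simp] lemma act_eq_none {b : D.GG} {x : D.Pt} {i : ι} : D.act b x i = none ↔ x i = none := by
  unfold act
  cases x i <;> simp

lemma act_apply_none {b : D.GG} {x : D.Pt} {i : ι} (h : x i = none) : D.act b x i = none :=
  act_eq_none.mpr h

lemma act_apply_some {b : D.GG} {x : D.Pt} {i : ι} {u : D.G i} (h : x i = some u) :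
    D.act b x i = some (b i * u) := by
  unfold act; rw [h]; rfl

lemma act_update_some (b : D.GG) (x : D.Pt) (i : ι) (u : D.G i) :
    D.act b (Function.update x i (some u)) = Function.update (D.act b x) i (some (b i * u)) := by
  funext j
  by_cases h : j = i
  · subst h
    rw [Function.update_self]
    exact act_apply_some (Function.update_self ..)
  · rw [Function.update_of_ne h]
    unfold act
    rw [Function.update_of_ne h]

lemma act_update_none (b : D.GG) (x : D.Pt) (i : ι) :
    D.act b (Function.update x i none) = Function.update (D.act b x) i none := by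
  funext j
  by_cases h : j = i
  · subst h
    rw [Function.update_self]
    exact act_apply_none (Function.update_self ..)
  · rw [Function.update_of_ne h]
    unfold act
    rw [Function.update_of_ne h]

lemma Supp.act {S : Finset ι} {x : D.Pt} (h : D.Supp S x) (b : D.GG) : D.Supp S (D.act b x) :=
  fun i hi => act_apply_none (h i hi)

lemma Supp.mono {S T : Finset ι} {x : D.Pt} (h : D.Supp S x) (hST : S ⊆ T) : D.Supp T x :=
  fun i hi => h i (fun h' => hi (hST h'))

lemma Supp.update {S : Finset ι} {x : D.Pt} (h : D.Supp S x) {i : ι} (hi : i ∈ S)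
    (v : Option (D.G i)) : D.Supp S (Function.update x i v) := by
  intro j hj
  rw [Function.update_of_ne (by rintro rfl; exact hj hi)]
  exact h j hj

lemma Supp.update_insert {S : Finset ι} {x : D.Pt} (h : D.Supp S x) {i : ι}
    (v : Option (D.G i)) : D.Supp (insert i S) (Function.update x i v) := by
  intro j hj
  rw [mem_insert, not_or] at hj
  rw [Function.update_of_ne hj.1]
  exact h j hj.2

lemma Supp.update_none {S : Finset ι} {x : D.Pt} {i : ι} (h : D.Supp (insert i S) x) :
    D.Supp S (Function.update x i none) := by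
  intro j hj
  by_cases e : j = i
  · subst e; rw [Function.update_self]
  · rw [Function.update_of_ne e]
    exact h j (by rw [mem_insert, not_or]; exact ⟨e, hj⟩)

lemma Supp.of_insert {S : Finset ι} {x : D.Pt} {i : ι} (h : D.Supp (insert i S) x)
    (hx : x i = none) : D.Supp S x := by
  intro j hj
  by_cases e : j = i
  · subst e; exact hx
  · exact h j (by rw [mem_insert, not_or]; exact ⟨e, hj⟩)

lemma update_none_eq {x : D.Pt} {i : ι} (hx : x i = none) : Function.update x i none = x := by
  rw [← hx]; exact Function.update_eq_self i x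

end act

/-! ### Systems -/

variable {A : Type} [AddCommGroup A] [DistribMulAction D.GG A]

/-- the distribution relations -/
def IsD (S : Finset ι) (f : D.Pt → A) : Prop :=
  ∀ i ∈ S, ∀ x : D.Pt, D.Supp S x → x i = none →
    ∑ u : D.G i, f (Function.update x i (some u)) =
      D.α i • f (D.act (D.α i) x) - D.β i • f (D.act (D.β i) x)

/-- the action on functions -/
def T (b : D.GG) (f : D.Pt → A) : D.Pt → A := fun x => b • f (D.act b x)

section T

variable {D}

lemma T_apply (b : D.GG) (f : D.Pt → A) (x : D.Pt) : D.T b f x = b • f (D.act b x) := rfl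

@[simp] lemma T_one (f : D.Pt → A) : D.T 1 f = f := by
  funext x; rw [T_apply, act_one, one_smul]

lemma T_T (a b : D.GG) (f : D.Pt → A) : D.T a (D.T b f) = D.T (a * b) f := by
  funext x
  rw [T_apply, T_apply, T_apply, act_act, mul_smul, mul_comm b a]

lemma T_comm (a b : D.GG) (f : D.Pt → A) : D.T a (D.T b f) = D.T b (D.T a f) := by
  rw [T_T, T_T, mul_comm]

lemma T_add (b : D.GG) (f g : D.Pt → A) : D.T b (f + g) = D.T b f + D.T b g := by
  funext x; simp [T_apply]

lemma T_sub (b : D.GG) (f g : D.Pt → A) : D.T b (f - g) = D.T b f - D.T b g := by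
  funext x; simp [T_apply, smul_sub]

lemma T_neg (b : D.GG) (f : D.Pt → A) : D.T b (-f) = - D.T b f := by
  funext x; simp [T_apply]

lemma T_zero (b : D.GG) : D.T b (0 : D.Pt → A) = 0 := by
  funext x; simp [T_apply]

lemma T_zsmul (b : D.GG) (n : ℤ) (f : D.Pt → A) : D.T b (n • f) = n • D.T b f := by
  funext x
  simp only [T_apply, Pi.smul_apply]
  exact map_zsmul (DistribSMul.toAddMonoidHom A b) n _

lemma T_c_T_c (f : D.Pt → A) : D.T D.c (D.T D.c f) = f := by
  rw [T_T]
  have : D.c * D.c = 1 := by funext i; exact D.hc i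
  rw [this, T_one]

end T

section IsD

variable {D} {S : Finset ι}

lemma IsD.add {f g : D.Pt → A} (hf : D.IsD S f) (hg : D.IsD S g) : D.IsD S (f + g) := by
  intro i hi x hx h0
  simp only [Pi.add_apply, sum_add_distrib, smul_add]
  rw [hf i hi x hx h0, hg i hi x hx h0]
  abel

lemma IsD.neg {f : D.Pt → A} (hf : D.IsD S f) : D.IsD S (-f) := by
  intro i hi x hx h0
  simp only [Pi.neg_apply, sum_neg_distrib, smul_neg]
  rw [hf i hi x hx h0]
  abel

lemma IsD.sub {f g : D.Pt → A} (hf : D.IsD S f) (hg : D.IsD S g) : D.IsD S (f - g) := by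
  rw [sub_eq_add_neg]; exact hf.add hg.neg

lemma IsD.zero : D.IsD S (0 : D.Pt → A) := by
  intro i hi x hx h0
  simp

lemma IsD.zsmul {f : D.Pt → A} (hf : D.IsD S f) (n : ℤ) : D.IsD S (n • f) := by
  intro i hi x hx h0
  simp only [Pi.smul_apply]
  rw [← smul_sum, hf i hi x hx h0, smul_sub]
  congr 1
  · exact (map_zsmul (DistribSMul.toAddMonoidHom A _) n _).symm
  · exact (map_zsmul (DistribSMul.toAddMonoidHom A _) n _).symm

lemma IsD.T {f : D.Pt → A} (hf : D.IsD S f) (b : D.GG) : D.IsD S (D.T b f) := by
  intro i hi x hx h0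
  simp only [T_apply]
  rw [← smul_sum]
  simp only [act_update_some]
  have h1 : ∑ u : D.G i, f (Function.update (D.act b x) i (some (b i * u))) =
      ∑ u : D.G i, f (Function.update (D.act b x) i (some u)) :=
    Fintype.sum_equiv (Equiv.mulLeft (b i)) _ _ (fun u => rfl)
  rw [h1, hf i hi (D.act b x) (hx.act b) (act_apply_none h0), smul_sub]
  simp only [act_act, smul_smul]
  rw [mul_comm b (D.α i), mul_comm b (D.β i)]

lemma IsD.mono {T : Finset ι} {f : D.Pt → A} (hf : D.IsD T f) (h : S ⊆ T) : D.IsD S f :=
  fun i hi x hx h0 => hf i (h hi) x (hx.mono h) h0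

end IsD

/-! ### Induced modules -/

/-- functions on the group with index `i` -/
@[ext] structure Ind (i : ι) (A : Type) where
  /-- the value -/
  ev : D.G i → A

section Ind

variable {i : ι}

omit [DistribMulAction D.GG A] in
lemma ev_injective : Function.Injective (fun h : D.Ind i A => h.ev) := fun h k e => by
  cases h; cases k; simpa using e

instance : Zero (D.Ind i A) := ⟨⟨fun _ => 0⟩⟩
instance : Add (D.Ind i A) := ⟨fun h k => ⟨fun u => h.ev u + k.ev u⟩⟩
instance : Neg (D.Ind i A) := ⟨fun h => ⟨fun u => - h.ev u⟩⟩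
instance : Sub (D.Ind i A) := ⟨fun h k => ⟨fun u => h.ev u - k.ev u⟩⟩
instance : SMul ℕ (D.Ind i A) := ⟨fun n h => ⟨fun u => n • h.ev u⟩⟩
instance : SMul ℤ (D.Ind i A) := ⟨fun n h => ⟨fun u => n • h.ev u⟩⟩

instance : AddCommGroup (D.Ind i A) :=
  Function.Injective.addCommGroup (fun h : D.Ind i A => h.ev) D.ev_injective rfl (fun _ _ => rfl)
    (fun _ => rfl) (fun _ _ => rfl) (fun _ _ => rfl) (fun _ _ => rfl)

instance : DistribMulAction D.GG (D.Ind i A) where
  smul b h := ⟨fun u => b • h.ev (b i * u)⟩
  one_smul h := by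
    apply Ind.ext
    funext u
    change (1 : D.GG) • h.ev ((1 : D.GG) i * u) = h.ev u
    rw [one_smul, Pi.one_apply, one_mul]
  mul_smul a b h := by
    apply Ind.ext
    funext u
    change (a * b) • h.ev ((a * b) i * u) = a • b • h.ev (b i * (a i * u))
    rw [mul_smul, Pi.mul_apply, mul_comm (a i) (b i), mul_assoc]
  smul_zero b := by
    apply Ind.ext
    funext u
    change b • (0 : A) = 0
    rw [smul_zero]
  smul_add b h k := by
    apply Ind.ext
    funext u
    change b • (h.ev (b i * u) + k.ev (b i * u)) = b • h.ev (b i * u) + b • k.ev (b i * u)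
    rw [smul_add]

end Ind

variable {D}

lemma ind_smul (i : ι) (b : D.GG) (h : D.Ind i A) (u : D.G i) :
    (b • h).ev u = b • h.ev (b i * u) := rfl

lemma ind_add (i : ι) (h k : D.Ind i A) (u : D.G i) : (h + k).ev u = h.ev u + k.ev u := rfl

lemma ind_sub (i : ι) (h k : D.Ind i A) (u : D.G i) : (h - k).ev u = h.ev u - k.ev u := rfl

lemma ind_neg (i : ι) (h : D.Ind i A) (u : D.G i) : (-h).ev u = -h.ev u := rfl

lemma ind_zero (i : ι) (u : D.G i) : (0 : D.Ind i A).ev u = 0 := rfl

lemma ind_zsmul (i : ι) (n : ℤ) (h : D.Ind i A) (u : D.G i) : (n • h).ev u = n • h.ev u := rfl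

lemma ind_sum {κ : Type*} (i : ι) (s : Finset κ) (h : κ → D.Ind i A) (u : D.G i) :
    (∑ k ∈ s, h k).ev u = ∑ k ∈ s, (h k).ev u := by
  classical
  induction s using Finset.induction_on with
  | empty => rw [sum_empty, sum_empty, ind_zero]
  | insert k s hk ih => rw [sum_insert hk, sum_insert hk, ind_add, ih]

variable (D)

/-- the norm -/
def nrm (i : ι) : D.Ind i A →+ A where
  toFun h := ∑ u : D.G i, h.ev u
  map_zero' := by simp [ind_zero]
  map_add' h k := by simp only [ind_add, sum_add_distrib]

variable {D}

lemma nrm_apply (i : ι) (h : D.Ind i A) : D.nrm i h = ∑ u : D.G i, h.ev u := rfl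

lemma nrm_smul (i : ι) (b : D.GG) (h : D.Ind i A) : D.nrm i (b • h) = b • D.nrm i h := by
  rw [nrm_apply, nrm_apply, smul_sum]
  simp only [ind_smul]
  exact Fintype.sum_equiv (Equiv.mulLeft (b i)) _ _ (fun u => rfl)

/-- composition of a system with a map of modules -/
lemma IsD.comp {S : Finset ι} {B : Type} [AddCommGroup B] [DistribMulAction D.GG B] {f : D.Pt → A}
    (hf : D.IsD S f) (π : A →+ B) (hπ : ∀ (b : D.GG) a, π (b • a) = b • π a) :
    D.IsD S (fun x => π (f x)) := by
  intro i hi x hx h0
  rw [← map_sum, hf i hi x hx h0, map_sub, hπ, hπ]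

/-! ### Restriction to the units of one index, and glueing -/

variable (D)

/-- the part of a system at the units of the index `i` -/
def un (i : ι) (f : D.Pt → A) : D.Pt → D.Ind i A := fun x =>
  ⟨fun u => f (Function.update x i (some u))⟩

/-- the system with given parts -/
def glue (i : ι) (f0 : D.Pt → A) (f1 : D.Pt → D.Ind i A) : D.Pt → A := fun x =>
  match x i with
  | none => f0 x
  | some u => (f1 (Function.update x i none)).ev u

variable {D}

lemma un_ev (i : ι) (f : D.Pt → A) (x : D.Pt) (u : D.G i) :
    (D.un i f x).ev u = f (Function.update x i (some u)) := rfl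

lemma glue_none {i : ι} {f0 : D.Pt → A} {f1 : D.Pt → D.Ind i A} {x : D.Pt} (h : x i = none) :
    D.glue i f0 f1 x = f0 x := by
  unfold glue; rw [h]

lemma glue_some {i : ι} {f0 : D.Pt → A} {f1 : D.Pt → D.Ind i A} {x : D.Pt} {u : D.G i}
    (h : x i = some u) : D.glue i f0 f1 x = (f1 (Function.update x i none)).ev u := by
  unfold glue; rw [h]

lemma glue_update {i : ι} {f0 : D.Pt → A} {f1 : D.Pt → D.Ind i A} {x : D.Pt} (h : x i = none)
    (u : D.G i) : D.glue i f0 f1 (Function.update x i (some u)) = (f1 x).ev u := by
  rw [glue_some (Function.update_self i (some u) x), Function.update_idem, update_none_eq h]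

lemma T_un (i : ι) (b : D.GG) (f : D.Pt → A) (x : D.Pt) :
    D.T b (D.un i f) x = D.un i (D.T b f) x := by
  apply Ind.ext
  funext u
  rw [T_apply, ind_smul, un_ev, un_ev, T_apply, act_update_some]

lemma IsD.un {i : ι} {S : Finset ι} (hi : i ∉ S) {f : D.Pt → A} (hf : D.IsD (insert i S) f) :
    D.IsD S (D.un i f) := by
  intro j hj x hx h0
  have hji : j ≠ i := fun e => hi (e ▸ hj)
  apply Ind.ext
  funext u
  rw [ind_sum, ind_sub, ind_smul, ind_smul]
  simp only [un_ev]
  have h1 := hf j (mem_insert_of_mem hj) (Function.update x i (some u)) (hx.update_insert _)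
    (by rw [Function.update_of_ne hji]; exact h0)
  simp only [act_update_some] at h1
  rw [← h1]
  refine sum_congr rfl fun v _ => ?_
  rw [Function.update_comm hji.symm]

lemma IsD.rel {i : ι} {S : Finset ι} {f : D.Pt → A} (hf : D.IsD (insert i S) f)
    {x : D.Pt} (hx : D.Supp (insert i S) x) (h0 : x i = none) :
    D.nrm i (D.un i f x) = D.T (D.α i) f x - D.T (D.β i) f x := by
  have := hf i (mem_insert_self _ _) x hx h0
  exact this

lemma isD_glue {i : ι} {S : Finset ι} (hi : i ∉ S) {f0 : D.Pt → A} {f1 : D.Pt → D.Ind i A}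
    (h0 : D.IsD S f0) (h1 : D.IsD S f1)
    (hr : ∀ x, D.Supp S x → D.nrm i (f1 x) = D.T (D.α i) f0 x - D.T (D.β i) f0 x) :
    D.IsD (insert i S) (D.glue i f0 f1) := by
  intro j hj x hx hxj
  rcases mem_insert.mp hj with rfl | hjS
  · have hxS := hx.of_insert hxj
    simp only [glue_update hxj]
    rw [glue_none (act_apply_none hxj), glue_none (act_apply_none hxj)]
    exact hr x hxS
  · have hji : j ≠ i := fun e => hi (e ▸ hjS)
    cases hxi : x i with
    | none =>
      have hxS := hx.of_insert hxi
      have e1 : ∀ v, D.glue i f0 f1 (Function.update x j (some v)) = f0 (Function.update x j (some v)) :=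
        fun v => glue_none (by rw [Function.update_of_ne hji.symm]; exact hxi)
      simp only [e1]
      rw [glue_none (act_apply_none hxi), glue_none (act_apply_none hxi)]
      exact h0 j hjS x hxS hxj
    | some u =>
      have hy := hx.update_none
      have e1 : ∀ v, D.glue i f0 f1 (Function.update x j (some v)) =
          (f1 (Function.update (Function.update x i none) j (some v))).ev u := by
        intro v
        rw [glue_some (u := u) (by rw [Function.update_of_ne hji.symm]; exact hxi),
          Function.update_comm hji]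
      simp only [e1]
      rw [glue_some (act_apply_some hxi), glue_some (act_apply_some hxi), ← act_update_none,
        ← act_update_none, ← ind_smul, ← ind_smul, ← ind_sub, ← ind_sum]
      rw [h1 j hjS _ hy (by rw [Function.update_of_ne hji]; exact hxj)]

/-! ### The trivial action -/

variable (D)

/-- the trivial action -/
@[reducible] def trivAct (A : Type) [AddCommGroup A] : DistribMulAction D.GG A where
  smul _ a := a
  one_smul _ := rfl
  mul_smul _ _ _ := rfl
  smul_zero _ := rfl
  smul_add _ _ _ := rfl

/-- the distribution relations for functions with values in a group with the trivial action -/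
def IsD0 {A : Type} [AddCommGroup A] (S : Finset ι) (f : D.Pt → A) : Prop :=
  ∀ i ∈ S, ∀ x : D.Pt, D.Supp S x → x i = none →
    ∑ u : D.G i, f (Function.update x i (some u)) = f (D.act (D.α i) x) - f (D.act (D.β i) x)

lemma isD0_iff {A : Type} [AddCommGroup A] (S : Finset ι) (f : D.Pt → A) :
    D.IsD0 S f ↔ (letI := D.trivAct A; D.IsD S f) := Iff.rfl

end Dat

end Pool.Agent.N993
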