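import Pool.Agent.N993.Exs

/-!
The involution: types, images of `1 + θ c`, and the vanishing of the Tate groups of systems with
values in induced modules.
-/

set_option linter.unusedSectionVars false

namespace Pool.Agent.N993

open Finset

namespace Dat

variable {ι : Type} [DecidableEq ι] {D : Dat ι}

section

variable {A : Type} [AddCommGroup A] [DistribMulAction D.GG A]

/-- equality on the points with support in `S` -/
def EqS (D : Dat ι) {A : Type} (S : Finset ι) (f g : D.Pt → A) : Prop :=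
  ∀ x, D.Supp S x → f x = g x

/-- type `θ` -/
def Ty (D : Dat ι) {A : Type} [AddCommGroup A] [DistribMulAction D.GG A] (θ : ℤ) (S : Finset ι)
    (f : D.Pt → A) : Prop := ∀ x, D.Supp S x → D.T D.c f x = θ • f x

/-- images of `1 + θ c` -/
def Img (D : Dat ι) {A : Type} [AddCommGroup A] [DistribMulAction D.GG A] (θ : ℤ) (S : Finset ι)
    (f : D.Pt → A) : Prop := ∃ g, D.IsD S g ∧ D.EqS S f (g + θ • D.T D.c g)

lemma EqS.refl {S : Finset ι} (f : D.Pt → A) : D.EqS S f f := fun _ _ => rfl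

lemma EqS.symm {S : Finset ι} {f g : D.Pt → A} (h : D.EqS S f g) : D.EqS S g f :=
  fun x hx => (h x hx).symm

lemma EqS.trans {S : Finset ι} {f g k : D.Pt → A} (h : D.EqS S f g) (h' : D.EqS S g k) :
    D.EqS S f k := fun x hx => (h x hx).trans (h' x hx)

lemma EqS.of_eq {S : Finset ι} {f g : D.Pt → A} (h : f = g) : D.EqS S f g := fun x _ => by rw [h]

lemma EqS.mono {S T : Finset ι} {f g : D.Pt → A} (h : D.EqS T f g) (hST : S ⊆ T) :
    D.EqS S f g := fun x hx => h x (hx.mono hST)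

lemma EqS.add {S : Finset ι} {f g f' g' : D.Pt → A} (h : D.EqS S f g) (h' : D.EqS S f' g') :
    D.EqS S (f + f') (g + g') := fun x hx => by
  rw [Pi.add_apply, Pi.add_apply, h x hx, h' x hx]

lemma EqS.sub {S : Finset ι} {f g f' g' : D.Pt → A} (h : D.EqS S f g) (h' : D.EqS S f' g') :
    D.EqS S (f - f') (g - g') := fun x hx => by
  rw [Pi.sub_apply, Pi.sub_apply, h x hx, h' x hx]

lemma EqS.neg {S : Finset ι} {f g : D.Pt → A} (h : D.EqS S f g) : D.EqS S (-f) (-g) :=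
  fun x hx => by rw [Pi.neg_apply, Pi.neg_apply, h x hx]

lemma EqS.zsmul {S : Finset ι} {f g : D.Pt → A} (n : ℤ) (h : D.EqS S f g) :
    D.EqS S (n • f) (n • g) := fun x hx => by
  rw [Pi.smul_apply, Pi.smul_apply, h x hx]

lemma EqS.T {S : Finset ι} {f g : D.Pt → A} (h : D.EqS S f g) (b : D.GG) :
    D.EqS S (D.T b f) (D.T b g) := fun x hx => by
  rw [T_apply, T_apply, h _ (hx.act b)]

lemma EqS.isD {S : Finset ι} {f g : D.Pt → A} (h : D.EqS S f g) (hf : D.IsD S f) : D.IsD S g := by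
  intro i hi x hx h0
  rw [← h _ (hx.act _), ← h _ (hx.act _), ← hf i hi x hx h0]
  exact sum_congr rfl fun u _ => (h _ (hx.update hi _)).symm

lemma EqS.un {i : ι} {S : Finset ι} {f g : D.Pt → A} (h : D.EqS (insert i S) f g) :
    D.EqS S (D.un i f) (D.un i g) := fun x hx => by
  apply Ind.ext
  funext u
  rw [un_ev, un_ev, h _ (hx.update_insert _)]

lemma glue_congr {i : ι} {S : Finset ι} {f0 g0 : D.Pt → A} {f1 g1 : D.Pt → D.Ind i A}
    (h0 : D.EqS S f0 g0) (h1 : D.EqS S f1 g1) :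
    D.EqS (insert i S) (D.glue i f0 f1) (D.glue i g0 g1) := by
  intro x hx
  cases hxi : x i with
  | none => rw [glue_none hxi, glue_none hxi, h0 x (hx.of_insert hxi)]
  | some u => rw [glue_some hxi, glue_some hxi, h1 _ hx.update_none]

lemma glue_self (i : ι) (f : D.Pt → A) : D.glue i f (D.un i f) = f := by
  funext x
  cases hxi : x i with
  | none => rw [glue_none hxi]
  | some u =>
    rw [glue_some hxi, un_ev, Function.update_idem, ← hxi, Function.update_eq_self]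

lemma T_glue (i : ι) (b : D.GG) (f0 : D.Pt → A) (f1 : D.Pt → D.Ind i A) :
    D.T b (D.glue i f0 f1) = D.glue i (D.T b f0) (D.T b f1) := by
  funext x
  cases hxi : x i with
  | none => rw [T_apply, glue_none hxi, glue_none (act_apply_none hxi), T_apply]
  | some u =>
    rw [T_apply, glue_some hxi, glue_some (act_apply_some hxi), T_apply, ind_smul, act_update_none]

lemma glue_add (i : ι) (f0 g0 : D.Pt → A) (f1 g1 : D.Pt → D.Ind i A) :
    D.glue i (f0 + g0) (f1 + g1) = D.glue i f0 f1 + D.glue i g0 g1 := by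
  funext x
  rw [Pi.add_apply]
  cases hxi : x i with
  | none => rw [glue_none hxi, glue_none hxi, glue_none hxi]; rfl
  | some u => rw [glue_some hxi, glue_some hxi, glue_some hxi]; rfl

lemma glue_sub (i : ι) (f0 g0 : D.Pt → A) (f1 g1 : D.Pt → D.Ind i A) :
    D.glue i (f0 - g0) (f1 - g1) = D.glue i f0 f1 - D.glue i g0 g1 := by
  funext x
  rw [Pi.sub_apply]
  cases hxi : x i with
  | none => rw [glue_none hxi, glue_none hxi, glue_none hxi]; rfl
  | some u => rw [glue_some hxi, glue_some hxi, glue_some hxi]; rfl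

lemma glue_zsmul (i : ι) (n : ℤ) (f0 : D.Pt → A) (f1 : D.Pt → D.Ind i A) :
    D.glue i (n • f0) (n • f1) = n • D.glue i f0 f1 := by
  funext x
  rw [Pi.smul_apply]
  cases hxi : x i with
  | none => rw [glue_none hxi, glue_none hxi]; rfl
  | some u => rw [glue_some hxi, glue_some hxi]; rfl

lemma T_nrm (i : ι) (b : D.GG) (h : D.Pt → D.Ind i A) :
    D.T b (fun x => D.nrm i (h x)) = fun x => D.nrm i (D.T b h x) := by
  funext x
  rw [T_apply, T_apply, nrm_smul]

/-! ### Types and images -/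

lemma Ty.congr {θ : ℤ} {S : Finset ι} {f g : D.Pt → A} (hf : D.Ty θ S f) (h : D.EqS S f g) :
    D.Ty θ S g := fun x hx => by
  rw [← h.T D.c x hx, hf x hx, h x hx]

lemma Ty.mono {θ : ℤ} {S T : Finset ι} {f : D.Pt → A} (hf : D.Ty θ T f) (h : S ⊆ T) :
    D.Ty θ S f := fun x hx => hf x (hx.mono h)

lemma Ty.T {θ : ℤ} {S : Finset ι} {f : D.Pt → A} (hf : D.Ty θ S f) (b : D.GG) :
    D.Ty θ S (D.T b f) := fun x hx => by
  rw [T_comm, T_apply, hf _ (hx.act b), T_apply]
  exact map_zsmul (DistribSMul.toAddMonoidHom A b) θ _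

lemma Ty.add {θ : ℤ} {S : Finset ι} {f g : D.Pt → A} (hf : D.Ty θ S f) (hg : D.Ty θ S g) :
    D.Ty θ S (f + g) := fun x hx => by
  rw [T_add, Pi.add_apply, Pi.add_apply, hf x hx, hg x hx, smul_add]

lemma Ty.sub {θ : ℤ} {S : Finset ι} {f g : D.Pt → A} (hf : D.Ty θ S f) (hg : D.Ty θ S g) :
    D.Ty θ S (f - g) := fun x hx => by
  rw [T_sub, Pi.sub_apply, Pi.sub_apply, hf x hx, hg x hx, smul_sub]

lemma Ty.un {θ : ℤ} {i : ι} {S : Finset ι} {f : D.Pt → A} (hf : D.Ty θ (insert i S) f) :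
    D.Ty θ S (D.un i f) := fun x hx => by
  rw [T_un]
  apply Ind.ext
  funext u
  rw [un_ev, hf _ (hx.update_insert _), ind_zsmul, un_ev]

lemma Ty.of_add_eq_zero {θ : ℤ} (hθ : θ * θ = 1) {S : Finset ι} {f : D.Pt → A}
    (h : ∀ x, D.Supp S x → f x + θ • D.T D.c f x = 0) : D.Ty (-θ) S f := fun x hx => by
  have h1 : θ • (f x + θ • D.T D.c f x) = 0 := by rw [h x hx, smul_zero]
  rw [smul_add, smul_smul, hθ, one_smul] at h1
  rw [neg_smul]
  exact eq_neg_of_add_eq_zero_right h1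

lemma Img.congr {θ : ℤ} {S : Finset ι} {f g : D.Pt → A} (hf : D.Img θ S f) (h : D.EqS S f g) :
    D.Img θ S g := by
  obtain ⟨k, hk, hk'⟩ := hf
  exact ⟨k, hk, h.symm.trans hk'⟩

lemma Img.mono {θ : ℤ} {S T : Finset ι} {f : D.Pt → A} (hf : D.Img θ T f) (h : S ⊆ T) :
    D.Img θ S f := by
  obtain ⟨k, hk, hk'⟩ := hf
  exact ⟨k, hk.mono h, hk'.mono h⟩

lemma Img.zero {θ : ℤ} {S : Finset ι} : D.Img θ S (0 : D.Pt → A) :=
  ⟨0, IsD.zero, fun x _ => by rw [T_zero, smul_zero, add_zero]⟩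

lemma Img.add {θ : ℤ} {S : Finset ι} {f g : D.Pt → A} (hf : D.Img θ S f) (hg : D.Img θ S g) :
    D.Img θ S (f + g) := by
  obtain ⟨k, hk, hk'⟩ := hf
  obtain ⟨l, hl, hl'⟩ := hg
  refine ⟨k + l, hk.add hl, (hk'.add hl').trans (EqS.of_eq ?_)⟩
  rw [T_add, smul_add]; abel

lemma Img.neg {θ : ℤ} {S : Finset ι} {f : D.Pt → A} (hf : D.Img θ S f) :
    D.Img θ S (-f) := by
  obtain ⟨k, hk, hk'⟩ := hf
  refine ⟨-k, hk.neg, hk'.neg.trans (EqS.of_eq ?_)⟩
  rw [T_neg, smul_neg]; abel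

lemma Img.sub {θ : ℤ} {S : Finset ι} {f g : D.Pt → A} (hf : D.Img θ S f) (hg : D.Img θ S g) :
    D.Img θ S (f - g) := by
  rw [sub_eq_add_neg]; exact hf.add hg.neg

lemma Img.zsmul {θ : ℤ} {S : Finset ι} {f : D.Pt → A} (hf : D.Img θ S f) (n : ℤ) :
    D.Img θ S (n • f) := by
  obtain ⟨k, hk, hk'⟩ := hf
  refine ⟨n • k, hk.zsmul n, (hk'.zsmul n).trans (EqS.of_eq ?_)⟩
  rw [T_zsmul, smul_add, smul_comm]

lemma Img.T {θ : ℤ} {S : Finset ι} {f : D.Pt → A} (hf : D.Img θ S f) (b : D.GG) :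
    D.Img θ S (D.T b f) := by
  obtain ⟨k, hk, hk'⟩ := hf
  refine ⟨D.T b k, hk.T b, (hk'.T b).trans (EqS.of_eq ?_)⟩
  rw [T_add, T_zsmul, T_comm]

lemma Img.isD {θ : ℤ} {S : Finset ι} {f : D.Pt → A} (hf : D.Img θ S f) : D.IsD S f := by
  obtain ⟨k, hk, hk'⟩ := hf
  exact hk'.symm.isD (hk.add ((hk.T _).zsmul θ))

lemma Img.ty {θ : ℤ} (hθ : θ * θ = 1) {S : Finset ι} {f : D.Pt → A} (hf : D.Img θ S f) :
    D.Ty θ S f := by
  obtain ⟨k, hk, hk'⟩ := hf
  refine Ty.congr ?_ hk'.symm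
  intro x _
  rw [T_add, T_zsmul, T_c_T_c]
  simp only [Pi.add_apply, Pi.smul_apply, smul_add, smul_smul, hθ, one_smul]
  rw [add_comm]

lemma Ty.two {θ : ℤ} (hθ : θ * θ = 1) {S : Finset ι} {f : D.Pt → A} (h : D.Ty θ S f)
    (hf : D.IsD S f) : D.Img θ S ((2 : ℤ) • f) := by
  refine ⟨f, hf, fun x hx => ?_⟩
  rw [Pi.smul_apply, Pi.add_apply, Pi.smul_apply, h x hx, smul_smul, hθ, one_smul, two_smul]

/-- An odd multiple suffices. -/
lemma Img.of_odd {θ : ℤ} (hθ : θ * θ = 1) {S : Finset ι} {f : D.Pt → A} (h : D.Ty θ S f)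
    (hf : D.IsD S f) {n : ℤ} (hn : n % 2 = 1) (h' : D.Img θ S (n • f)) : D.Img θ S f := by
  have h1 := (h.two hθ hf).zsmul (n / 2)
  have h2 := h'.sub h1
  refine h2.congr (EqS.of_eq ?_)
  rw [smul_smul, ← sub_smul]
  have : n - n / 2 * 2 = 1 := by omega
  rw [this, one_smul]

/-! ### The property of the module of values -/

/-- vanishing of the Tate groups of the module of values for the involution -/
def HT (D : Dat ι) (A : Type) [AddCommGroup A] [DistribMulAction D.GG A] : Prop :=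
  ∀ θ : ℤ, θ * θ = 1 → ∀ a : A, D.c • a = θ • a → ∃ a' : A, a = a' + θ • D.c • a'

lemma hT_ind (i : ι) (hi : D.c i ≠ 1) : D.HT (D.Ind i A) := by
  classical
  intro θ hθ h hh
  let e := Fintype.equivFin (D.G i)
  have hne : ∀ u : D.G i, e u ≠ e (D.c i * u) := by
    intro u h'
    have h1 := e.injective h'
    apply hi
    have h2 : 1 * u = D.c i * u := by rw [one_mul]; exact h1
    exact (mul_right_cancel h2).symm
  refine ⟨⟨fun u => if e u < e (D.c i * u) then h.ev u else 0⟩, ?_⟩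
  apply Ind.ext
  funext u
  rw [ind_add, ind_zsmul, ind_smul]
  have hcc : D.c i * (D.c i * u) = u := by rw [← mul_assoc, D.hc i, one_mul]
  simp only [hcc]
  have hu : D.c • h.ev (D.c i * u) = θ • h.ev u := congrFun (congrArg Ind.ev hh) u
  rcases lt_or_gt_of_ne (hne u) with h1 | h1
  · rw [if_pos h1, if_neg (not_lt.mpr h1.le), smul_zero, smul_zero, add_zero]
  · rw [if_neg (not_lt.mpr h1.le), if_pos h1, hu, smul_smul, hθ, one_smul, zero_add]

end

theorem tt (hfree : ∀ i, D.c i ≠ 1) (S : Finset ι) : ∀ (A : Type) [AddCommGroup A]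
    [DistribMulAction D.GG A] (_ : D.HT A) (θ : ℤ) (_ : θ * θ = 1) (f : D.Pt → A)
    (_ : D.IsD S f) (_ : D.Ty θ S f), D.Img θ S f := by
  classical
  induction S using Finset.induction_on with
  | empty =>
    intro A _ _ hA θ hθ f _ hty
    have hx0 : D.Supp ∅ (fun _ => none : D.Pt) := fun _ _ => rfl
    have hfix : ∀ x : D.Pt, D.Supp ∅ x → x = fun _ => none := fun x hx =>
      funext fun i => hx i (notMem_empty _)
    have h1 := hty _ hx0
    rw [T_apply, hfix _ (hx0.act D.c)] at h1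
    obtain ⟨a', ha'⟩ := hA θ hθ _ h1
    refine ⟨fun _ => a', fun i hi => absurd hi (notMem_empty _), ?_⟩
    intro x hx
    rw [hfix x hx, Pi.add_apply, Pi.smul_apply, T_apply]
    exact ha'
  | insert i S hi ih =>
    intro A _ _ hA θ hθ f hf hty
    have hθ' : (-θ) * (-θ) = 1 := by rw [neg_mul_neg, hθ]
    obtain ⟨g0, hg0, hg0'⟩ := ih A hA θ hθ f (hf.mono (subset_insert _ _))
      (hty.mono (subset_insert _ _))
    obtain ⟨g1, hg1, hg1'⟩ := ih (D.Ind i A) (hT_ind i (hfree i)) θ hθ (D.un i f) (hf.un hi) hty.un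
    set δ : D.Pt → A := (fun x => D.nrm i (g1 x)) - (D.T (D.α i) g0 - D.T (D.β i) g0) with hδ
    have hδD : D.IsD S δ := (hg1.comp (D.nrm i) (nrm_smul i)).sub ((hg0.T _).sub (hg0.T _))
    have hδ0 : ∀ x, D.Supp S x → δ x + θ • D.T D.c δ x = 0 := by
      intro x hx
      have e1 : D.nrm i (g1 x) + θ • D.T D.c (fun x => D.nrm i (g1 x)) x =
          D.nrm i (D.un i f x) := by
        rw [T_nrm, hg1' x hx, Pi.add_apply, Pi.smul_apply, map_add, map_zsmul]
      have e2 : ∀ b : D.GG, D.T b g0 x + θ • D.T D.c (D.T b g0) x = D.T b f x := by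
        intro b
        rw [hg0'.T b x hx, T_add, T_zsmul, T_comm b D.c]; rfl
      have e3 : D.nrm i (D.un i f x) = D.T (D.α i) f x - D.T (D.β i) f x := by
        apply hf.rel (hx.mono (subset_insert _ _)) (hx i hi)
      have e4 : D.T D.c δ x = D.T D.c (fun x => D.nrm i (g1 x)) x -
          (D.T D.c (D.T (D.α i) g0) x - D.T D.c (D.T (D.β i) g0) x) := by
        rw [hδ, T_sub, T_sub]; rfl
      have e5 : δ x = D.nrm i (g1 x) - (D.T (D.α i) g0 x - D.T (D.β i) g0 x) := rfl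
      rw [e4, e5]
      calc _ = (D.nrm i (g1 x) + θ • D.T D.c (fun x => D.nrm i (g1 x)) x) -
            ((D.T (D.α i) g0 x + θ • D.T D.c (D.T (D.α i) g0) x) -
            (D.T (D.β i) g0 x + θ • D.T D.c (D.T (D.β i) g0) x)) := by
            rw [smul_sub, smul_sub]; abel
        _ = 0 := by rw [e1, e2, e2, e3, sub_self]
    obtain ⟨δ', hδ', hδ''⟩ := ih A hA (-θ) hθ' δ hδD (Ty.of_add_eq_zero hθ hδ0)
    obtain ⟨γ, hγ, hγ'⟩ := exists_lift S (D.nrm i) (nrm_smul i)
      (fun a => ⟨D.sgl i a, nrm_sgl i a⟩) hδ'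
    have hγ'' : D.EqS S (fun x => D.nrm i (γ x)) δ' := hγ'
    set g1' : D.Pt → D.Ind i A := g1 - (γ + (-θ) • D.T D.c γ) with hg1''
    have hN : D.EqS S (fun x => D.nrm i (g1' x)) (D.T (D.α i) g0 - D.T (D.β i) g0) := by
      intro x hx
      have e1 : D.nrm i (g1' x) = D.nrm i (g1 x) -
          (D.nrm i (γ x) + (-θ) • D.T D.c (fun x => D.nrm i (γ x)) x) := by
        rw [T_nrm]
        simp only [hg1'', Pi.sub_apply, Pi.add_apply, Pi.smul_apply, map_sub, map_add, map_zsmul]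
      have e2 := hδ'' x hx
      rw [Pi.add_apply, Pi.smul_apply] at e2
      change D.nrm i (g1' x) = _
      rw [e1, hγ' x hx, hγ''.T D.c x hx, ← e2, hδ]
      simp only [Pi.sub_apply]
      abel
    refine ⟨D.glue i g0 g1', isD_glue hi hg0 (hg1.sub (hγ.add ((hγ.T _).zsmul _))) hN, ?_⟩
    have e1 : D.EqS S (D.un i f) (g1' + θ • D.T D.c g1') := by
      refine hg1'.trans (EqS.of_eq ?_)
      rw [hg1'', T_sub, T_add, T_zsmul, T_c_T_c, smul_sub, smul_add, smul_smul, mul_neg, hθ]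
      rw [neg_smul, neg_smul, one_smul]
      abel
    have e2 := glue_congr hg0' e1
    rw [glue_self, glue_add, glue_zsmul, ← T_glue] at e2
    exact e2

end Dat

end Pool.Agent.N993
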