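import Pool.Agent.N993.Det

/-!
Nonresidue pairs.
-/

set_option linter.unusedSectionVars false

namespace Pool.Agent.N993

open Finset

namespace Dat

variable {ι : Type} [DecidableEq ι] {D : Dat ι} {χ : ∀ i, D.G i →* ℤˣ}

/-- The conditions on the auxiliary index `q`. -/
structure AuxC (D : Dat ι) (χ : ∀ i, D.G i →* ℤˣ) (S0 : Finset ι) (p q : ι) : Prop where
  hp : p ∉ S0
  hq : q ∉ S0
  hpq : p ≠ q
  hpc : χ p (D.c p) = 1
  hqc : χ q (D.c q) = -1
  hαq : ∀ j ∈ S0, χ q (D.α j q) = 1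
  hβq : ∀ j ∈ S0, χ q (D.β j q) = 1
  hq1 : ∀ i ∈ S0, D.α q i = D.c i
  hq2 : χ p (D.α q p) = -1
  hq3 : D.β q = 1

lemma AuxC.mono {S0 S1 : Finset ι} {p q : ι} (h : AuxC D χ S1 p q) (hS : S0 ⊆ S1) :
    AuxC D χ S0 p q where
  hp := fun h' => h.hp (hS h')
  hq := fun h' => h.hq (hS h')
  hpq := h.hpq
  hpc := h.hpc
  hqc := h.hqc
  hαq := fun j hj => h.hαq j (hS hj)
  hβq := fun j hj => h.hβq j (hS hj)
  hq1 := fun j hj => h.hq1 j (hS hj)
  hq2 := h.hq2
  hq3 := h.hq3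

lemma zeta_exists (hfree : ∀ i, D.c i ≠ 1) {S0 : Finset ι} {p q : ι} (h : AuxC D χ S0 p q)
    {f : D.Pt → ℤ} (hf : D.IsD (insert p (insert q S0)) f)
    (hty : D.Ty 1 (insert p (insert q S0)) f) :
    ∃ gp ζ : D.Pt → D.Ind p ℤ, D.IsD S0 gp ∧ D.EqS S0 (D.un p f) (gp + (1 : ℤ) • D.T D.c gp) ∧
      D.IsD S0 ζ ∧ ∀ ε x, D.Supp S0 x →
        ns χ p ε (ns χ q 1 (D.un q (D.un p f))) x - ns χ p (-ε) gp x + ns χ p ε gp x =
          ns χ p ε ζ x - ns χ p ε ζ (D.act D.c x) := by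
  obtain ⟨hp, hq, hpq, hpc, hqc, hαq, hβq, hq1, hq2, hq3⟩ := h
  have hpN1 : p ∉ insert q S0 := by rw [mem_insert, not_or]; exact ⟨hpq, hp⟩
  have hN0N1 : S0 ⊆ insert q S0 := subset_insert _ _
  have hN1N : insert q S0 ⊆ insert p (insert q S0) := subset_insert _ _
  set fp := D.un p f with hfpdef
  have hfp : D.IsD (insert q S0) fp := hf.un hpN1
  have htfp : D.Ty 1 (insert q S0) fp := hty.un
  set F1 := ns χ q 1 (D.un q fp) with hF1def
  have hF1 : D.IsD S0 F1 := (hfp.un hq).ns hαq hβq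
  have hR1 : D.EqS S0 (F1 + (1 : ℤ) • D.T D.c F1) (D.T (D.α q) fp - fp) := by
    have e1 : D.EqS S0 (D.T D.c (D.un q fp)) ((1 : ℤ) • D.un q fp) := fun x hx => htfp.un x hx
    have e2 : D.EqS S0 (D.T D.c F1) ((1 : ℤ) • ns χ q (-1) (D.un q fp)) := by
      have h1 := e1.ns χ (-1)
      rw [ns_zsmul] at h1
      refine (EqS.of_eq ?_).trans h1
      rw [hF1def, T_ns, hqc, mul_one]
    have e3 : D.EqS S0 (fun x => D.nrm q (D.un q fp x)) (D.T (D.α q) fp - fp) := by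
      intro x hx
      have h1 := hfp.rel (hx.mono hN0N1) (hx q hq)
      rw [hq3, T_one] at h1
      exact h1
    refine ((EqS.refl F1).add (e2.zsmul 1)).trans ?_
    rw [smul_smul, one_mul, one_smul, hF1def, ns_sum]
    exact e3
  obtain ⟨gp, hgp, hgp'⟩ := tt hfree S0 (D.Ind p ℤ) (hT_ind p (hfree p)) 1 (by norm_num) fp
    (hfp.mono hN0N1) (htfp.mono hN0N1)
  set bv : D.GG := Pi.mulSingle p (D.c p * D.α q p) with hbv
  have hbvp : bv p = D.c p * D.α q p := Pi.mulSingle_eq_same _ _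
  have hbvn : ∀ i ∈ S0, bv i = 1 := fun i hi =>
    Pi.mulSingle_eq_of_ne (by rintro rfl; exact hp hi) _
  set η0 := F1 - D.T bv gp + gp with hη0
  have hη0D : D.IsD S0 η0 := (hF1.sub (hgp.T bv)).add hgp
  have hη0T : D.Ty (-1) S0 η0 := by
    apply Ty.of_add_eq_zero (by norm_num)
    intro x hx
    have h1 := hR1 x hx
    have h2 : D.T (D.α q) fp x = D.T bv fp x := by
      have e1 : D.EqS S0 (D.T (D.α q) fp) (D.T (bv * D.c) fp) := by
        apply T_congr_ind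
        · intro i hi
          rw [hq1 i hi, Pi.mul_apply, hbvn i hi, one_mul]
        · rw [Pi.mul_apply, hbvp, mul_comm (D.c p), mul_assoc, D.hc p, mul_one]
      rw [e1 x hx, ← T_T]
      have e2 : D.EqS S0 (D.T D.c fp) ((1 : ℤ) • fp) := fun x hx => htfp x (hx.mono hN0N1)
      rw [e2.T bv x hx, T_zsmul, one_smul]
    have h3 := hgp' x hx
    have h4 := hgp'.T bv x hx
    rw [T_add, T_zsmul] at h4
    rw [hη0, T_add, T_sub, T_comm D.c bv]
    simp only [Pi.add_apply, Pi.sub_apply, one_smul] at h1 h3 h4 ⊢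
    rw [h2] at h1
    rw [h4] at h1
    calc F1 x - D.T bv gp x + gp x +
          (D.T D.c F1 x - D.T bv (D.T D.c gp) x + D.T D.c gp x)
        = (F1 x + D.T D.c F1 x) - (D.T bv gp x + D.T bv (D.T D.c gp) x) +
          (gp x + D.T D.c gp x) := by
          abel
      _ = 0 := by rw [h1, ← h3]; abel
  obtain ⟨ζ, hζ, hζ'⟩ := tt hfree S0 (D.Ind p ℤ) (hT_ind p (hfree p)) (-1) (by norm_num) η0
    hη0D hη0T
  refine ⟨gp, ζ, hgp, hgp', hζ, fun ε x hx => ?_⟩
  have h1 : ns χ p ε (D.T bv gp) = D.T bv (ns χ p (-ε) gp) := by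
    rw [T_ns, hbvp, map_mul, hpc, hq2, one_mul, neg_mul_neg, one_mul]
  have h2 := hζ'.ns χ ε x hx
  have h3 : ns χ p ε (D.T D.c ζ) = D.T D.c (ns χ p ε ζ) := by rw [T_ns, hpc, one_mul]
  have h4 : ns χ p ε (ζ + (-1 : ℤ) • D.T D.c ζ) =
      ns χ p ε ζ + (-1 : ℤ) • D.T D.c (ns χ p ε ζ) := by rw [ns_add, ns_zsmul, h3]
  rw [h4, hη0, ns_add, ns_sub, h1] at h2
  simp only [Pi.add_apply, Pi.sub_apply, Pi.smul_apply] at h2
  rw [T_triv (triv_int D), T_triv (triv_int D), act_supp hx hbvn] at h2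
  rw [h2, smul_eq_mul]
  ring

variable [Fintype ι]

/-- the sum over the two classes -/
lemma sm_two (j : ι) (F : D.Pt → ℤ) {z : (D.small χ).Pt} (hz : z j = none) (ε : ℤˣ) :
    sm χ F (Function.update z j (some ε)) + sm χ F (Function.update z j (some (-ε))) =
      sm χ (fun x => D.nrm j (D.un j F x)) z := by
  have h3 : (fun x => D.nrm j (D.un j F x)) = (fun x => D.wsum j (idc χ j 1) (D.un j F x)) +
      (fun x => D.wsum j (idc χ j (-1)) (D.un j F x)) := by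
    funext x; exact (idc_add χ j _).symm
  rw [h3, sm_add, Pi.add_apply, sm_wsum j 1 F hz, sm_wsum j (-1) F hz]
  rcases Int.units_eq_one_or ε with h | h
  · rw [h]
  · rw [h, neg_neg, add_comm]

/-- the relation for the sums over the classes of a system with values in an induced module -/
lemma rel_ns {S0 : Finset ι} {p j : ι} (hj : j ∈ S0) {ζ : D.Pt → D.Ind p ℤ} (hζ : D.IsD S0 ζ)
    {z : (D.small χ).Pt} (hz : (D.small χ).Supp S0 z) (hzj : z j = none) (ε ε' : ℤˣ) :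
    sm χ (ns χ p ε ζ) (Function.update z j (some ε')) +
      sm χ (ns χ p ε ζ) (Function.update z j (some (-ε'))) =
    sm χ (ns χ p (χ p (D.α j p) * ε) ζ) ((D.small χ).act (mg χ (D.α j)) z) -
      sm χ (ns χ p (χ p (D.β j p) * ε) ζ) ((D.small χ).act (mg χ (D.β j)) z) := by
  rw [sm_two j _ hzj]
  have h1 : ∀ b : D.GG, ns χ p ε (D.T b ζ) = D.T b (ns χ p (χ p (b p) * ε) ζ) := by
    intro b
    rw [T_ns, ← mul_assoc, Int.units_mul_self, one_mul]
  have h2 : ∀ x, D.Supp S0 x → x j = none → D.nrm j (D.un j (ns χ p ε ζ) x) =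
      ns χ p ε (D.T (D.α j) ζ) x - ns χ p ε (D.T (D.β j) ζ) x := by
    intro x hx hxj
    have h3 := hζ j hj x hx hxj
    have h4 : D.nrm j (D.un j (ns χ p ε ζ) x) =
        D.wsum p (idc χ p ε) (∑ u : D.G j, ζ (Function.update x j (some u))) := by
      rw [map_sum]; rfl
    rw [h4, h3, map_sub]; rfl
  have h5 : sm χ (fun x => D.nrm j (D.un j (ns χ p ε ζ) x)) z =
      sm χ (ns χ p ε (D.T (D.α j) ζ) - ns χ p ε (D.T (D.β j) ζ)) z := by
    unfold sm
    refine sum_congr rfl fun x hx => ?_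
    have hx2 := (mem_filter.mp hx).2
    exact h2 x (supp_mp (by rw [hx2]; exact hz)) (by rw [← mp_none (χ := χ), hx2]; exact hzj)
  rw [h5, h1, h1, sm_sub, Pi.sub_apply, sm_T, sm_T, T_triv (triv_int _), T_triv (triv_int _)]

lemma sm_ns_ns {S0 : Finset ι} {p q : ι} (hp : p ∉ S0) (hq : q ∉ S0) (hpq : p ≠ q)
    (f : D.Pt → ℤ) {z : (D.small χ).Pt} (hz : (D.small χ).Supp S0 z) (ε : ℤˣ) :
    sm χ (ns χ p ε (ns χ q 1 (D.un q (D.un p f)))) z =
      sm χ f (Function.update (Function.update z q (some 1)) p (some ε)) := by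
  have e0 : ns χ p ε (ns χ q 1 (D.un q (D.un p f))) = ns χ q 1 (D.un q (ns χ p ε (D.un p f))) := by
    funext x; exact wsum_swap _ _ f x
  have e1 : sm χ (ns χ q 1 (D.un q (ns χ p ε (D.un p f)))) z =
      sm χ (ns χ p ε (D.un p f)) (Function.update z q (some 1)) :=
    sm_wsum q 1 _ (hz q hq)
  have e2 : sm χ (ns χ p ε (D.un p f)) (Function.update z q (some 1)) =
      sm χ f (Function.update (Function.update z q (some 1)) p (some ε)) :=
    sm_wsum p ε f (by rw [Function.update_of_ne hpq]; exact hz p hp)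
  rw [e0, e1, e2]

/-- The parity formula. -/
lemma par_formula {S0 : Finset ι} {p q : ι} (h : AuxC D χ S0 p q) {f : D.Pt → ℤ}
    (hev : ∀ z, (D.small χ).Supp (insert p (insert q S0)) z → 2 ∣ sm χ f z)
    {gp ζ : D.Pt → D.Ind p ℤ} (hζ : ∀ ε x, D.Supp S0 x →
        ns χ p ε (ns χ q 1 (D.un q (D.un p f))) x - ns χ p (-ε) gp x + ns χ p ε gp x =
          ns χ p ε ζ x - ns χ p ε ζ (D.act D.c x))
    {z : (D.small χ).Pt} (hz : (D.small χ).Supp S0 z) (ε : ℤˣ) :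
    2 ∣ sm χ (fun x => D.nrm p (gp x)) z - (sm χ (ns χ p ε ζ) z +
      sm χ (ns χ p ε ζ) ((D.small χ).act (D.small χ).c z)) := by
  have h1 : sm χ (ns χ p ε (ns χ q 1 (D.un q (D.un p f)))) z - sm χ (ns χ p (-ε) gp) z +
      sm χ (ns χ p ε gp) z = sm χ (ns χ p ε ζ) z -
      sm χ (ns χ p ε ζ) ((D.small χ).act (D.small χ).c z) := by
    have e1 : sm χ (D.T D.c (ns χ p ε ζ)) z =
        sm χ (ns χ p ε ζ) ((D.small χ).act (D.small χ).c z) := by
      rw [sm_T, T_triv (triv_int _)]; rfl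
    have e2 : D.EqS S0 (ns χ p ε (ns χ q 1 (D.un q (D.un p f))) - ns χ p (-ε) gp + ns χ p ε gp)
        (ns χ p ε ζ - D.T D.c (ns χ p ε ζ)) := by
      intro x hx
      have := hζ ε x hx
      rw [Pi.sub_apply (ns χ p ε ζ), T_triv (triv_int D)]
      exact this
    have e3 := sm_congr (χ := χ) e2 z hz
    rw [sm_add, sm_sub, sm_sub, Pi.add_apply, Pi.sub_apply, Pi.sub_apply, e1] at e3
    exact e3
  rw [sm_ns_ns h.hp h.hq h.hpq f hz ε] at h1
  have h2 := hev (Function.update (Function.update z q (some 1)) p (some ε))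
    ((hz.update_insert _).update_insert _)
  have h3 : sm χ (fun x => D.nrm p (gp x)) z = sm χ (ns χ p ε gp) z + sm χ (ns χ p (-ε) gp) z := by
    have e4 : (fun x => D.nrm p (gp x)) = ns χ p ε gp + ns χ p (-ε) gp := by
      rcases Int.units_eq_one_or ε with h' | h'
      · rw [h']; exact (ns_sum (χ := χ) gp).symm
      · rw [h', neg_neg, add_comm]; exact (ns_sum (χ := χ) gp).symm
    rw [e4, sm_add]; rfl
  rw [h3]
  omega

end Dat

end Pool.Agent.N993
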